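import Mathlib

/-! Definitions for the Chowla correlations in characteristic two. -/

set_option autoImplicit false

open Polynomial Finset Filter
open scoped Classical BigOperators

noncomputable section
namespace Pool.Agent.MP_a4a062_nt.C2

/-- The sum of the finite residues of `P / M`. -/
def tau {R : Type*} [CommRing R] (M P : R[X]) : R := (P %ₘ M).coeff (M.natDegree - 1)

/-- The local term at the piece `M` of `B`; `U` inverts `A`, `G` inverts the cofactor. -/
def vv {R : Type*} [CommRing R] (M B A U G : R[X]) : R :=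
  tau M ((derivative A * G) /ₘ M * ((derivative A * G) %ₘ M))
    + tau M (X * derivative A * derivative B * U * G)
    + tau (M ^ 4) ((A * derivative A + X * B * derivative B) ^ 3 * G ^ 4 * U ^ 2)
    + tau (M ^ 2) (X * (A * derivative A + X * B * derivative B) ^ 3 * G ^ 2 * U ^ 4)

/-- Maps of degree at most `n` in the sense of finite differences. -/
def PDeg {G V : Type*} [AddCommGroup G] [AddCommGroup V] : ℕ → (G → V) → Prop
  | 0, F => ∀ x y, F x = F y
  | n + 1, F => ∀ t, PDeg n fun x => F (x + t) - F x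

variable (k : Type*) [Field k] [Fintype k]

/-- The number of elements of `k`. -/
def qq : ℝ := (Fintype.card k : ℝ)

/-- Polynomials of degree `< N`. -/
def box (N : ℕ) : Finset k[X] :=
  univ.image fun c : Fin N → k => ∑ i : Fin N, monomial (i : ℕ) (c i)

/-- Monic polynomials of degree `N`. -/
def mon (N : ℕ) : Finset k[X] := (box k N).image fun a => X ^ N + a

/-- Monic primes of degree `e`. -/
def prs (e : ℕ) : Finset k[X] := {p ∈ mon k e | Irreducible p}

variable {k}

/-- The Liouville function. -/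
def lam (f : k[X]) : ℝ := (-1) ^ (UniqueFactorizationMonoid.factors f).card

/-- The Artin-Schreier character. -/
def psi (c : k) : ℝ := if ∃ w : k, w ^ 2 + w = c then 1 else -1

/-- Functions that are polynomial phases of degree at most `n` in the direction `W`. -/
def Kill (n : ℕ) (W : k[X]) (Θ : k[X] → ℝ) : Prop :=
  ∀ A, ∃ (c : ℝ) (F : k[X] → k), |c| ≤ 1 ∧ PDeg n F ∧ ∀ s, Θ (A + W * s) = c * psi (F s)

/-- A finite set of polynomials that are pairwise incongruent modulo `p`. -/
def Inc (p : k[X]) (S : Finset k[X]) : Prop := ∀ a ∈ S, ∀ b ∈ S, p ∣ a - b → a = b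

/-- A large square divides `f`. -/
def Big (L : ℕ) (f : k[X]) : Prop := ∃ d : k[X], d.Monic ∧ L ≤ d.natDegree ∧ d ^ 2 ∣ f

/-- `B` has a simple prime factor of medium degree that does not divide `Δ`. -/
def Spf (L m : ℕ) (Δ B : k[X]) : Prop := ∃ p : k[X], p.Monic ∧ Irreducible p ∧ L ≤ p.natDegree ∧
  4 * p.natDegree ≤ m ∧ ¬ p ∣ Δ ∧ p ∣ B ∧ ¬ p ^ 2 ∣ B

/-- The correlation in degree `n`. -/
def cor {ι : Type*} [Fintype ι] (h : ι → k[X]) (M a : k[X]) (n : ℕ) : ℝ :=
  𝔼 f ∈ mon k n, (if M ∣ f - a then 1 else 0) * ∏ i, lam (f + h i)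

end Pool.Agent.MP_a4a062_nt.C2
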