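import Pool.Agent.MP_a4a062_nt.C2.Defs
import Pool.Agent.MP_2033ac_nt.Mg.Main

set_option autoImplicit false

open Polynomial Finset Filter
open scoped Classical BigOperators

noncomputable section
namespace Pool.Agent.MP_a4a062_nt.C2

section Ring
variable {R : Type*} [CommRing R]

theorem tau_add (M P Q : R[X]) : tau M (P + Q) = tau M P + tau M Q := by
  unfold tau
  rw [add_modByMonic, coeff_add]

theorem tau_C_mul (M P : R[X]) (c : R) : tau M (C c * P) = c * tau M P := by
  unfold tau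
  rw [← smul_eq_C_mul, smul_modByMonic, coeff_smul, smul_eq_mul]

theorem tau_congr {M P Q : R[X]} (hM : M.Monic) (h : M ∣ P - Q) : tau M P = tau M Q := by
  unfold tau
  rw [modByMonic_eq_of_dvd_sub hM h]

theorem tau_of_lt {M P : R[X]} (hM : M.Monic) (h : P.degree < M.degree) :
    tau M P = P.coeff (M.natDegree - 1) := by
  nontriviality R
  unfold tau
  rw [(modByMonic_eq_self_iff hM).2 h]

theorem tauh_zero (M : R[X]) : tau M 0 = 0 := by
  unfold tau
  rw [zero_modByMonic, coeff_zero]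

theorem tauh_one (P : R[X]) : tau 1 P = 0 := by
  unfold tau
  rw [modByMonic_one, coeff_zero]

theorem tauh_dvd {M P : R[X]} (hM : M.Monic) (h : M ∣ P) : tau M P = 0 := by
  rw [tau_congr hM (Q := 0) (by rwa [sub_zero]), tauh_zero]

theorem tauh_sum {ι : Type*} (s : Finset ι) (M : R[X]) (P : ι → R[X]) :
    tau M (∑ i ∈ s, P i) = ∑ i ∈ s, tau M (P i) := by
  induction s using Finset.induction_on with
  | empty => rw [sum_empty, sum_empty, tauh_zero]
  | insert a s ha ih => rw [sum_insert ha, sum_insert ha, tau_add, ih]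

theorem tauh_natDegree {M : R[X]} [Nontrivial R] (hM : M.Monic) (P : R[X]) :
    (P %ₘ M).natDegree ≤ M.natDegree - 1 := by
  by_cases h0 : P %ₘ M = 0
  · rw [h0, natDegree_zero]
    exact Nat.zero_le _
  · have h1 : (P %ₘ M).natDegree < M.natDegree :=
      natDegree_lt_natDegree h0 (degree_modByMonic_lt P hM)
    omega

theorem tau_mul {M Q : R[X]} (hM : M.Monic) (hQ : Q.Monic) (P : R[X]) :
    tau (M * Q) (P * Q) = tau M P := by
  nontriviality R
  by_cases h1 : M.natDegree = 0
  · have hM1 : M = 1 := hM.natDegree_eq_zero.1 h1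
    subst hM1
    rw [tauh_one, one_mul]
    exact tauh_dvd hQ (dvd_mul_left _ _)
  have hd : M * Q ∣ P * Q - P %ₘ M * Q := by
    refine ⟨P /ₘ M, ?_⟩
    have h2 := modByMonic_add_div P M
    linear_combination (-Q) * h2
  have hlt : (P %ₘ M * Q).degree < (M * Q).degree := by
    rw [hQ.degree_mul, hQ.degree_mul]
    exact WithBot.add_lt_add_right (degree_ne_bot.2 hQ.ne_zero) (degree_modByMonic_lt P hM)
  rw [tau_congr (hM.mul hQ) hd, tau_of_lt (hM.mul hQ) hlt, hM.natDegree_mul hQ]
  have h3 : M.natDegree + Q.natDegree - 1 = M.natDegree - 1 + Q.natDegree := by omega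
  rw [h3, coeff_mul_add_eq_of_natDegree_le (tauh_natDegree hM P) le_rfl, hQ.coeff_natDegree,
    mul_one]
  rfl

theorem tau_map {S : Type*} [CommRing S] [Nontrivial S] (φ : R →+* S) {M : R[X]} (hM : M.Monic)
    (P : R[X]) : φ (tau M P) = tau (M.map φ) (P.map φ) := by
  unfold tau
  rw [← map_modByMonic φ hM, coeff_map, hM.natDegree_map]

theorem tauh_lin (a : R) (P : R[X]) : tau (X - C a) P = P.eval a := by
  nontriviality R
  unfold tau
  rw [modByMonic_X_sub_C_eq_C_eval, natDegree_X_sub_C, coeff_C_zero]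

theorem tau_nodal {ι : Type*} [Fintype ι] (α : ι → R) (P : R[X]) :
    tau (∏ i, (X - C (α i))) (P * derivative (∏ i, (X - C (α i)))) = ∑ i, P.eval (α i) := by
  rw [derivative_prod_finset, mul_sum, tauh_sum]
  refine sum_congr rfl fun i _ => ?_
  have hQ : (∏ j ∈ univ.erase i, (X - C (α j))).Monic :=
    monic_prod_of_monic _ _ fun j _ => monic_X_sub_C _
  rw [derivative_X_sub_C, mul_one, ← mul_prod_erase univ (fun j => X - C (α j)) (mem_univ i),
    tau_mul (monic_X_sub_C _) hQ, tauh_lin]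

theorem tauh_top {M P : R[X]} (hM : M.Monic)
    (h : P.natDegree < M.natDegree - 1 ∨ P = 0) : tau M P = 0 := by
  nontriviality R
  rcases h with h | h
  · have h1 : P.degree < M.degree := degree_lt_degree (by omega)
    rw [tau_of_lt hM h1]
    exact coeff_eq_zero_of_natDegree_lt h
  · rw [h, tauh_zero]

theorem tau_sq {M : R[X]} (hM : M.Monic) (h : R[X]) :
    tau (M ^ 2) (h ^ 2) = 2 * tau M (h /ₘ M * (h %ₘ M)) := by
  nontriviality R
  by_cases h1 : M.natDegree = 0
  · have hM1 : M = 1 := hM.natDegree_eq_zero.1 h1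
    subst hM1
    rw [one_pow, tauh_one, tauh_one, mul_zero]
  have h2 := modByMonic_add_div h M
  have hd : M ^ 2 ∣ h ^ 2 - (C 2 * (h /ₘ M * (h %ₘ M) * M) + (h %ₘ M) ^ 2) := by
    refine ⟨(h /ₘ M) ^ 2, ?_⟩
    have h3 : (C 2 : R[X]) = 2 := rfl
    rw [h3]
    linear_combination (-(h + (h %ₘ M + M * (h /ₘ M)))) * h2
  have hn : (M ^ 2).natDegree = 2 * M.natDegree := hM.natDegree_pow 2
  have h4 : tau (M ^ 2) ((h %ₘ M) ^ 2) = 0 := by
    refine tauh_top (hM.pow 2) (Or.inl ?_)
    have h5 := tauh_natDegree hM h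
    have h6 : ((h %ₘ M) ^ 2).natDegree ≤ 2 * (h %ₘ M).natDegree := natDegree_pow_le
    omega
  rw [tau_congr (hM.pow 2) hd, tau_add, tau_C_mul, h4, add_zero, pow_two,
    tau_mul hM hM]

theorem tau_sq_mul_deriv [CharP R 2] {M : R[X]} (hM : M.Monic) (S P : R[X]) :
    tau (M ^ 2) (S ^ 2 * derivative P) = 0 := by
  nontriviality R
  have htwo : (2 : R[X]) = 0 := by
    have h3 : (2 : R[X]) = C 2 := rfl
    have h4 : (2 : R) = 0 := CharP.cast_eq_zero R 2
    rw [h3, h4, C_0]
  have hsq : ∀ T : R[X], derivative (T ^ 2) = 0 := fun T => by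
    rw [pow_two, derivative_mul]
    linear_combination (derivative T * T) * htwo
  have hM2 : (M ^ 2).Monic := hM.pow 2
  have h2 := modByMonic_add_div (S ^ 2 * P) (M ^ 2)
  have h5 := congrArg derivative h2
  rw [derivative_add, derivative_mul, derivative_mul, hsq, hsq] at h5
  have hd : M ^ 2 ∣ S ^ 2 * derivative P - derivative ((S ^ 2 * P) %ₘ M ^ 2) := by
    refine ⟨derivative ((S ^ 2 * P) /ₘ M ^ 2), ?_⟩
    linear_combination (-1) * h5
  rw [tau_congr hM2 hd]
  by_cases h1 : (M ^ 2).natDegree = 0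
  · rw [hM2.natDegree_eq_zero.1 h1, tauh_one]
  have hlt := degree_modByMonic_lt (S ^ 2 * P) hM2
  rw [tau_of_lt hM2 (lt_of_le_of_lt (degree_derivative_le) hlt), coeff_derivative]
  have h6 : (M ^ 2).natDegree - 1 + 1 = (M ^ 2).natDegree := by omega
  rw [h6, coeff_eq_zero_of_degree_lt (by rwa [← degree_eq_natDegree hM2.ne_zero]), zero_mul]

theorem tau_sq_sq [CharP R 2] {M : R[X]} (hM : M.Monic) (S : R[X]) :
    tau (M ^ 2) (S ^ 2) = 0 := by
  have h := tau_sq_mul_deriv hM S X
  rwa [derivative_X, mul_one] at h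

end Ring

section PD
variable {G V V' : Type*} [AddCommGroup G] [AddCommGroup V] [AddCommGroup V']

theorem pdeg_congr {n : ℕ} {F F' : G → V} (h : PDeg n F) (e : ∀ x, F x = F' x) : PDeg n F' := by
  have : F = F' := _root_.funext e
  exact this ▸ h

theorem PDeg.const (n : ℕ) (c : V) : PDeg n fun _ : G => c := by
  induction n generalizing c with
  | zero => intro x y; rfl
  | succ n ih => intro t; exact ih (c - c)

theorem pdeg_succ {n : ℕ} {F : G → V} (h : PDeg n F) : PDeg (n + 1) F := by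
  induction n generalizing F with
  | zero =>
    intro t x y
    show F (x + t) - F x = F (y + t) - F y
    rw [h (x + t) x, h (y + t) y, sub_self, sub_self]
  | succ n ih => intro t; exact ih (h t)

theorem PDeg.mono {m n : ℕ} {F : G → V} (h : PDeg m F) (hmn : m ≤ n) : PDeg n F := by
  induction hmn with
  | refl => exact h
  | step _ ih => exact pdeg_succ ih

theorem PDeg.add {n : ℕ} {F F' : G → V} (h : PDeg n F) (h' : PDeg n F') :
    PDeg n fun x => F x + F' x := by
  induction n generalizing F F' with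
  | zero => intro x y; show F x + F' x = F y + F' y; rw [h x y, h' x y]
  | succ n ih =>
    intro t
    refine pdeg_congr (ih (h t) (h' t)) fun x => ?_
    show F (x + t) - F x + (F' (x + t) - F' x) = F (x + t) + F' (x + t) - (F x + F' x)
    abel

theorem PDeg.shift {n : ℕ} {F : G → V} (h : PDeg n F) (t : G) : PDeg n fun x => F (x + t) := by
  induction n generalizing F with
  | zero => intro x y; exact h _ _
  | succ n ih =>
    intro s
    refine pdeg_congr (ih (h s)) fun x => ?_
    show F (x + t + s) - F (x + t) = F (x + s + t) - F (x + t)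
    rw [add_right_comm]

theorem PDeg.map {n : ℕ} {F : G → V} (h : PDeg n F) (φ : V → V')
    (hφ : ∀ a b, φ (a + b) = φ a + φ b) : PDeg n fun x => φ (F x) := by
  induction n generalizing F with
  | zero => intro x y; show φ (F x) = φ (F y); rw [h x y]
  | succ n ih =>
    intro t
    refine pdeg_congr (ih (h t)) fun x => ?_
    show φ (F (x + t) - F x) = φ (F (x + t)) - φ (F x)
    rw [eq_sub_iff_add_eq, ← hφ, sub_add_cancel]

theorem PDeg.comp {G' : Type*} [AddCommGroup G'] {n : ℕ} {F : G → V} (h : PDeg n F) (φ : G' → G)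
    (hφ : ∀ a b, φ (a + b) = φ a + φ b) : PDeg n fun x => F (φ x) := by
  induction n generalizing F with
  | zero => intro x y; exact h _ _
  | succ n ih =>
    intro t
    refine pdeg_congr (ih (h (φ t))) fun x => ?_
    show F (φ x + φ t) - F (φ x) = F (φ (x + t)) - F (φ x)
    rw [hφ]

theorem PDeg.id : PDeg 1 fun x : G => x := by
  intro t x y
  show x + t - x = y + t - y
  abel

theorem pdeg_mul_aux {R : Type*} [CommRing R] (N : ℕ) : ∀ (m n : ℕ) (F F' : G → R), m + n = N →
    PDeg m F → PDeg n F' → PDeg N fun x => F x * F' x := by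
  induction N with
  | zero =>
    intro m n F F' hN h h' x y
    obtain rfl : m = 0 := by omega
    obtain rfl : n = 0 := by omega
    show F x * F' x = F y * F' y
    rw [h x y, h' x y]
  | succ N ih =>
    intro m n F F' hN h h' t
    have h1 : PDeg N fun x => (F (x + t) - F x) * F' (x + t) := by
      cases m with
      | zero =>
        refine pdeg_congr (PDeg.const N (0 : R)) fun x => ?_
        rw [h (x + t) x, sub_self, zero_mul]
      | succ m => exact ih m n _ _ (by omega) (h t) (PDeg.shift h' t)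
    have h2 : PDeg N fun x => F x * (F' (x + t) - F' x) := by
      cases n with
      | zero =>
        refine pdeg_congr (PDeg.const N (0 : R)) fun x => ?_
        rw [h' (x + t) x, sub_self, mul_zero]
      | succ n => exact ih m n _ _ (by omega) h (h' t)
    refine pdeg_congr (PDeg.add h1 h2) fun x => ?_
    show (F (x + t) - F x) * F' (x + t) + F x * (F' (x + t) - F' x) =
      F (x + t) * F' (x + t) - F x * F' x
    ring

theorem PDeg.mul {R : Type*} [CommRing R] {m n : ℕ} {F F' : G → R} (h : PDeg m F)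
    (h' : PDeg n F') : PDeg (m + n) fun x => F x * F' x :=
  pdeg_mul_aux (m + n) m n F F' rfl h h'

end PD

section
variable {k : Type*} [Field k] [Fintype k]

theorem two_le_qq : 2 ≤ qq k := by
  unfold qq
  exact_mod_cast Fintype.one_lt_card (α := k)

theorem box_eq_map (N : ℕ) : box k N =
    Finset.univ.map ⟨Polynomial.ofFn (R := k) N, Polynomial.injective_ofFn N⟩ := by
  ext a
  unfold box
  simp only [Finset.mem_image, Finset.mem_map, Finset.mem_univ, true_and,
    Function.Embedding.coeFn_mk, Polynomial.ofFn_eq_sum_monomial]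

theorem mem_box {N : ℕ} {a : k[X]} : a ∈ box k N ↔ a.degree < N := by
  rw [box_eq_map]
  simp only [Finset.mem_map, Finset.mem_univ, true_and, Function.Embedding.coeFn_mk]
  constructor
  · rintro ⟨v, rfl⟩
    exact Polynomial.ofFn_degree_lt v
  · intro h
    by_cases hp : a = 0
    · exact ⟨0, by simp [hp]⟩
    · exact ⟨_, Polynomial.ofFn_comp_toFn_eq_id_of_natDegree_lt
        ((Polynomial.natDegree_lt_iff_degree_lt hp).2 h)⟩

theorem mem_mon {N : ℕ} {a : k[X]} : a ∈ mon k N ↔ a.Monic ∧ a.natDegree = N := by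
  unfold mon
  simp only [Finset.mem_image, mem_box]
  constructor
  · rintro ⟨b, hb, rfl⟩
    have h1 : b.degree < (X ^ N : k[X]).degree := by rwa [Polynomial.degree_X_pow]
    refine ⟨(Polynomial.monic_X_pow N).add_of_left h1, ?_⟩
    rw [Polynomial.natDegree_add_eq_left_of_degree_lt h1, Polynomial.natDegree_X_pow]
  · rintro ⟨hm, hd⟩
    refine ⟨a - X ^ N, ?_, by ring⟩
    have h1 : a.degree = (X ^ N : k[X]).degree := by
      rw [Polynomial.degree_X_pow, Polynomial.degree_eq_natDegree hm.ne_zero, hd]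
    have := Polynomial.degree_sub_lt_left h1 hm.ne_zero
      (by rw [hm.leadingCoeff, (Polynomial.monic_X_pow N).leadingCoeff])
    rwa [h1, Polynomial.degree_X_pow] at this

theorem card_box (N : ℕ) : (#(box k N) : ℝ) = qq k ^ N := by
  rw [box_eq_map]
  simp [qq]

theorem card_mon (N : ℕ) : (#(mon k N) : ℝ) = qq k ^ N := by
  unfold mon
  rw [Finset.card_image_of_injective _ (add_right_injective _), card_box]

theorem box_nonempty (N : ℕ) : (box k N).Nonempty := ⟨0, mem_box.2 (by simp)⟩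

theorem mon_nonempty (N : ℕ) : (mon k N).Nonempty := (box_nonempty N).image _

theorem box_exp (N : ℕ) (F : k[X] → ℝ) :
    𝔼 f ∈ box k N, F f = (∑ f ∈ box k N, F f) / qq k ^ N := by
  rw [Finset.expect_eq_sum_div_card, card_box]

theorem box_exp_mon (N : ℕ) (F : k[X] → ℝ) :
    𝔼 f ∈ mon k N, F f = (∑ f ∈ mon k N, F f) / qq k ^ N := by
  rw [Finset.expect_eq_sum_div_card, card_mon]

theorem box_sum_shift {N : ℕ} {t : k[X]} (ht : t.degree < N) (F : k[X] → ℝ) :
    ∑ f ∈ box k N, F (f + t) = ∑ f ∈ box k N, F f := by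
  refine Finset.sum_nbij' (fun f => f + t) (fun f => f - t) ?_ ?_ ?_ ?_ ?_
  · intro f hf
    rw [mem_box] at *
    exact (Polynomial.degree_add_le f t).trans_lt (max_lt hf ht)
  · intro f hf
    rw [mem_box] at *
    exact (Polynomial.degree_sub_le f t).trans_lt (max_lt hf ht)
  · intro f _; simp
  · intro f _; simp
  · intro f _; rfl

theorem exp_box_shift {N : ℕ} {t : k[X]} (ht : t.degree < N) (F : k[X] → ℝ) :
    𝔼 f ∈ box k N, F (f + t) = 𝔼 f ∈ box k N, F f := by
  rw [box_exp, box_exp, box_sum_shift ht]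

theorem box_sum_mon (N : ℕ) (F : k[X] → ℝ) :
    ∑ f ∈ mon k N, F f = ∑ a ∈ box k N, F (X ^ N + a) := by
  unfold mon
  exact Finset.sum_image fun _ _ _ _ h => add_right_injective _ h

theorem exp_mon_shift {N : ℕ} {t : k[X]} (ht : t.degree < N) (F : k[X] → ℝ) :
    𝔼 f ∈ mon k N, F (f + t) = 𝔼 f ∈ mon k N, F f := by
  rw [box_exp_mon, box_exp_mon, box_sum_mon, box_sum_mon,
    ← box_sum_shift ht (fun a => F (X ^ N + a))]
  simp only [add_assoc]

theorem box_card_dvd {N : ℕ} {M : k[X]} (hM : M ≠ 0) (hN : M.natDegree ≤ N) :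
    ∑ s ∈ box k N, (if M ∣ s then (1 : ℝ) else 0) = qq k ^ (N - M.natDegree) := by
  rw [Finset.sum_boole, ← card_box]
  congr 1
  symm
  refine Finset.card_bij (fun u _ => M * u) ?_ ?_ ?_
  · intro u hu
    rw [Finset.mem_filter]
    refine ⟨?_, dvd_mul_right _ _⟩
    rw [mem_box] at *
    by_cases h0 : u = 0
    · simp [h0]
    · rw [← Polynomial.natDegree_lt_iff_degree_lt h0] at hu
      rw [← Polynomial.natDegree_lt_iff_degree_lt (mul_ne_zero hM h0), natDegree_mul hM h0]
      omega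
  · intro u _ v _ h
    exact mul_left_cancel₀ hM h
  · intro s hs
    rw [Finset.mem_filter] at hs
    obtain ⟨hs, u, rfl⟩ := hs
    refine ⟨u, ?_, rfl⟩
    rw [mem_box] at *
    by_cases h0 : u = 0
    · simp [h0]
    · rw [← Polynomial.natDegree_lt_iff_degree_lt (mul_ne_zero hM h0), natDegree_mul hM h0] at hs
      rw [← Polynomial.natDegree_lt_iff_degree_lt h0]
      omega

theorem exp_box_dvd {N : ℕ} {M c : k[X]} (hM : M ≠ 0) (hN : M.natDegree ≤ N) (hc : IsCoprime c M)
    (b : k[X]) : 𝔼 s ∈ box k N, (if M ∣ b + c * s then (1 : ℝ) else 0) = 1 / qq k ^ M.natDegree := by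
  obtain ⟨u, v, huv⟩ := id hc
  have ht : ((u * b) % M).degree < N :=
    (Polynomial.degree_mod_lt _ hM).trans_le (Polynomial.degree_le_of_natDegree_le hN)
  have h1 : ∀ s : k[X], M ∣ b + c * s ↔ M ∣ s + (u * b) % M := fun s => by
    have e : c * (s + (u * b) % M) = b + c * s - M * (v * b + c * (u * b / M)) := by
      have h2 := EuclideanDomain.div_add_mod (u * b) M
      linear_combination c * h2 + b * huv
    constructor
    · intro h
      refine hc.symm.dvd_of_dvd_mul_left ?_
      rw [e]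
      exact dvd_sub h (dvd_mul_right _ _)
    · intro h
      have h3 : M ∣ c * (s + (u * b) % M) := h.mul_left c
      rw [e] at h3
      exact (dvd_sub_left (dvd_mul_right _ _)).1 h3
  simp only [h1]
  rw [exp_box_shift ht (fun s => if M ∣ s then (1 : ℝ) else 0), box_exp, box_card_dvd hM hN]
  have h2 := two_le_qq (k := k)
  have h3 : qq k ^ N = qq k ^ (N - M.natDegree) * qq k ^ M.natDegree := by
    rw [← pow_add, Nat.sub_add_cancel hN]
  rw [h3]
  field_simp

theorem exp_mon_mul {n : ℕ} {P : k[X]} (hP : P.Monic) (F : k[X] → ℝ) :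
    𝔼 f ∈ mon k n, F (P * f) =
      qq k ^ P.natDegree * 𝔼 f ∈ mon k (n + P.natDegree), (if P ∣ f then F f else 0) := by
  have h2 := two_le_qq (k := k)
  have h : ∑ f ∈ mon k n, F (P * f) =
      ∑ f ∈ mon k (n + P.natDegree), (if P ∣ f then F f else 0) := by
    rw [← Finset.sum_filter]
    refine Finset.sum_bij (fun f _ => P * f) ?_ ?_ ?_ ?_
    · intro f hf
      rw [mem_mon] at hf
      rw [Finset.mem_filter, mem_mon]
      exact ⟨⟨hP.mul hf.1, by rw [hP.natDegree_mul hf.1, hf.2, add_comm]⟩, dvd_mul_right _ _⟩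
    · intro f _ g _ h
      exact mul_left_cancel₀ hP.ne_zero h
    · intro g hg
      rw [Finset.mem_filter, mem_mon] at hg
      obtain ⟨⟨h1, h3⟩, f, rfl⟩ := hg
      have hf : f.Monic := hP.of_mul_monic_left h1
      refine ⟨f, mem_mon.2 ⟨hf, ?_⟩, rfl⟩
      rw [hP.natDegree_mul hf] at h3
      omega
    · intro f _; rfl
  rw [box_exp_mon, box_exp_mon, h, pow_add]
  field_simp

end

section
variable {k : Type*} [Field k] [Fintype k]

theorem lam_mul {f g : k[X]} (hf : f ≠ 0) (hg : g ≠ 0) : lam (f * g) = lam f * lam g := by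
  unfold lam
  rw [Multiset.card_eq_card_of_rel (UniqueFactorizationMonoid.factors_mul hf hg),
    Multiset.card_add, pow_add]

theorem lam_mul_self (f : k[X]) : lam f * lam f = 1 := by
  unfold lam
  rw [← mul_pow]
  norm_num

theorem abs_lam (f : k[X]) : |lam f| = 1 := by
  unfold lam
  rw [abs_pow]
  norm_num

omit [Fintype k] in
theorem ari_fac {d : k[X]} (hm : d.Monic) (hs : Squarefree d) :
    ∃ S : Finset k[X], (∀ p ∈ S, p.Monic ∧ Irreducible p ∧ p ∣ d) ∧ ∏ p ∈ S, p = d := by
  refine ⟨⟨UniqueFactorizationMonoid.normalizedFactors d,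
    (UniqueFactorizationMonoid.squarefree_iff_nodup_normalizedFactors hm.ne_zero).1 hs⟩,
    fun p hp => ?_, ?_⟩
  · have := (Polynomial.mem_normalizedFactors_iff hm.ne_zero).1 hp
    exact ⟨this.2.1, this.1, this.2.2⟩
  · rw [Finset.prod_mk, Multiset.map_id',
      UniqueFactorizationMonoid.prod_normalizedFactors_eq hm.ne_zero, hm.normalize_eq_self]

theorem ari_geom {q : ℕ} (hq : 2 ≤ q) (m : ℕ) : 2 * ∑ i ∈ range m, q ^ (i + 1) ≤ q ^ (2 * m) := by
  induction m with
  | zero => simp
  | succ m ih =>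
    rcases Nat.eq_zero_or_pos m with rfl | hm
    · simp only [zero_add, range_one, sum_singleton, pow_one, mul_one]
      nlinarith
    · have h1 : q ^ (m + 1) ≤ q ^ (2 * m) := Nat.pow_le_pow_right (by omega) (by omega)
      have h2 : q ^ (2 * (m + 1)) = q ^ (2 * m) * (q * q) := by ring
      have h3 : q ^ (2 * m) * 4 ≤ q ^ (2 * m) * (q * q) :=
        Nat.mul_le_mul_left _ (by nlinarith)
      rw [sum_range_succ]
      omega

theorem card_prs {e : ℕ} (he : 0 < e) : qq k ^ e ≤ 2 * e * (#(prs k e) : ℝ) := by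
  have h1 : 1 < Fintype.card k := Fintype.one_lt_card
  obtain ⟨p, hp⟩ := CharP.exists k
  obtain ⟨c, hpp, hc⟩ := FiniteField.card k p
  have hd := FiniteField.X_pow_card_pow_sub_X_natDegree_eq k he.ne' h1
  have hm : (X ^ Fintype.card k ^ e - X : k[X]).Monic := monic_X_pow_sub (by
    rw [degree_X]; exact_mod_cast Nat.one_lt_pow he.ne' h1)
  obtain ⟨S, hS, hP⟩ := ari_fac hm (galois_poly_separable p _ (by
    rw [hc]; exact dvd_pow (dvd_pow_self p c.ne_zero) he.ne')).squarefree
  rw [← hP, natDegree_prod_of_monic _ _ fun p hp => (hS p hp).1,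
    ← sum_filter_add_sum_filter_not S (fun p => p.natDegree = e)] at hd
  have h2 : ∑ p ∈ S with p.natDegree = e, p.natDegree ≤ e * #(prs k e) := by
    rw [sum_congr rfl fun p hp => (mem_filter.1 hp).2, sum_const, smul_eq_mul, mul_comm]
    exact Nat.mul_le_mul_left e (card_le_card fun p hp => mem_filter.2
      ⟨mem_mon.2 ⟨(hS p (mem_filter.1 hp).1).1, (mem_filter.1 hp).2⟩,
        (hS p (mem_filter.1 hp).1).2.1⟩)
  have h3 : ∏ p ∈ S with ¬ p.natDegree = e, p ∣ MP_2033ac_nt.lcmP k (e / 2) := by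
    refine Finset.prod_dvd_of_coprime (fun a ha b hb hab => ?_) fun a ha => ?_
    · have h4 := hS a (mem_filter.1 ha).1
      have h5 := hS b (mem_filter.1 hb).1
      exact h4.2.1.coprime_iff_not_dvd.2 fun hd => hab (eq_of_monic_of_associated h4.1 h5.1
        (h4.2.1.associated_of_dvd h5.2.1 hd))
    · have h4 := hS a (mem_filter.1 ha).1
      have h5 := (mem_filter.1 ha).2
      obtain ⟨c, hc⟩ : a.natDegree ∣ e := h4.2.1.natDegree_dvd_of_dvd_X_pow_card_pow_sub_X
        (Nat.card_eq_fintype_card (α := k) ▸ h4.2.2)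
      have h6 : 2 ≤ c := by
        rcases c with _ | _ | c <;> simp_all
      have h7 := Nat.mul_le_mul_left a.natDegree h6
      exact MP_2033ac_nt.dvd_lcmP (e / 2) a h4.1.ne_zero (by omega)
  have h4 := natDegree_le_of_dvd h3 (MP_2033ac_nt.lcmP_monic _).ne_zero
  rw [natDegree_prod_of_monic _ _ fun p hp => (hS p (mem_filter.1 hp).1).1,
    MP_2033ac_nt.lcmP_natDegree] at h4
  have h5 := ari_geom (q := Fintype.card k) h1 (e / 2)
  have h6 : Fintype.card k ^ (2 * (e / 2)) ≤ Fintype.card k ^ e :=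
    Nat.pow_le_pow_right (by omega) (by omega)
  have h7 : Fintype.card k ^ e ≤ 2 * e * #(prs k e) := by
    rw [mul_assoc]
    omega
  unfold qq
  exact_mod_cast h7

theorem ari_geom2 (L n : ℕ) :
    ∑ j ∈ range n, 1 / qq k ^ (L + j) ≤ 2 / qq k ^ L - 2 / qq k ^ (L + n) := by
  have h2 := two_le_qq (k := k)
  induction n with
  | zero => simp
  | succ n ih =>
    rw [sum_range_succ, ← add_assoc, pow_succ]
    have hp : 0 < qq k ^ (L + n) := by positivity
    have h3 : 2 / (qq k ^ (L + n) * qq k) ≤ 1 / qq k ^ (L + n) := by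
      rw [div_le_div_iff₀ (by positivity) hp]
      nlinarith
    have h4 : 2 / qq k ^ (L + n) = 2 * (1 / qq k ^ (L + n)) := by ring
    linarith

theorem ari_sq (n : ℕ) {d : k[X]} (hd : d.Monic) :
    𝔼 f ∈ mon k n, (if d ^ 2 ∣ f then (1 : ℝ) else 0) ≤ 1 / qq k ^ (2 * d.natDegree) := by
  have h2 := two_le_qq (k := k)
  have hp : 0 < qq k ^ (2 * d.natDegree) := by positivity
  by_cases h : 2 * d.natDegree ≤ n
  · obtain ⟨m, rfl⟩ := Nat.exists_eq_add_of_le' h
    have h1 := exp_mon_mul (n := m) (hd.pow 2) (fun _ => (1 : ℝ))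
    rw [expect_const (mon_nonempty m), hd.natDegree_pow] at h1
    rw [le_div_iff₀ hp, mul_comm]
    exact h1.ge
  · refine expect_le (mon_nonempty n) fun f hf => ?_
    have h3 := mem_mon.1 hf
    rw [if_neg fun h4 => h (by
      have := natDegree_le_of_dvd h4 h3.1.ne_zero
      rwa [hd.natDegree_pow, h3.2] at this)]
    positivity

theorem exp_big (n L : ℕ) :
    𝔼 f ∈ mon k n, (if Big L f then (1 : ℝ) else 0) ≤ 2 / qq k ^ L := by
  have h2 := two_le_qq (k := k)
  have h1 : 𝔼 f ∈ mon k n, (if Big L f then (1 : ℝ) else 0) ≤ 𝔼 f ∈ mon k n,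
      ∑ j ∈ range (n + 1), ∑ d ∈ mon k (L + j), (if d ^ 2 ∣ f then (1 : ℝ) else 0) := by
    refine expect_le_expect fun f hf => ?_
    have h0 : ∀ (d : k[X]), (0 : ℝ) ≤ if d ^ 2 ∣ f then 1 else 0 := fun d => by positivity
    split_ifs with h
    · obtain ⟨d, h3, h4, h5⟩ := h
      have h6 := natDegree_le_of_dvd h5 (mem_mon.1 hf).1.ne_zero
      rw [h3.natDegree_pow, (mem_mon.1 hf).2] at h6
      refine le_trans ?_ (single_le_sum (f := fun j => ∑ d ∈ mon k (L + j),
        (if d ^ 2 ∣ f then (1 : ℝ) else 0)) (fun j _ => sum_nonneg fun d _ => h0 d)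
        (mem_range.2 (show d.natDegree - L < n + 1 by omega)))
      refine le_trans ?_ (single_le_sum (fun d _ => h0 d)
        (mem_mon.2 ⟨h3, (show d.natDegree = L + (d.natDegree - L) by omega)⟩))
      rw [if_pos h5]
    · exact sum_nonneg fun j _ => sum_nonneg fun d _ => h0 d
  refine h1.trans ?_
  rw [expect_sum_comm]
  refine (sum_le_sum fun j _ => (?_ : _ ≤ 1 / qq k ^ (L + j))).trans
    ((ari_geom2 L (n + 1)).trans (sub_le_self _ (by positivity)))
  rw [expect_sum_comm]
  refine (sum_le_card_nsmul _ _ (1 / qq k ^ (2 * (L + j))) fun d hd => ?_).trans ?_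
  · rw [← (mem_mon.1 hd).2]
    exact ari_sq n (mem_mon.1 hd).1
  · rw [nsmul_eq_mul, card_mon, two_mul, pow_add (qq k) (L + j)]
    apply le_of_eq
    field_simp

/-- The Artin-Schreier map. -/
def ariAS (k : Type*) [Field k] [CharP k 2] : k →+ k :=
  AddMonoidHom.mk' (fun w => w ^ 2 + w) fun a b => by
    rw [CharTwo.add_sq]; ring

theorem ari_index [CharP k 2] : (ariAS k).range.index = 2 := by
  rw [AddSubgroup.index_range]
  have h : ((ariAS k).ker : Set k) = {0, 1} := by
    ext w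
    have h1 : w ^ 2 + w = w * (w - 1) := by rw [CharTwo.sub_eq_add]; ring
    simp only [SetLike.mem_coe, AddMonoidHom.mem_ker, ariAS, AddMonoidHom.mk'_apply, h1,
      mul_eq_zero, sub_eq_zero, Set.mem_insert_iff, Set.mem_singleton_iff]
  change Nat.card ((ariAS k).ker : Set k) = 2
  rw [h, Nat.card_coe_set_eq, Set.ncard_pair zero_ne_one]

theorem psi_add [CharP k 2] (a b : k) : psi (a + b) = psi a * psi b := by
  have h : (∃ w : k, w ^ 2 + w = a + b) ↔ ((∃ w : k, w ^ 2 + w = a) ↔ ∃ w : k, w ^ 2 + w = b) :=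
    AddSubgroup.add_mem_iff_of_index_two (ari_index (k := k))
  unfold psi
  by_cases ha : ∃ w : k, w ^ 2 + w = a <;> by_cases hb : ∃ w : k, w ^ 2 + w = b <;>
    simp only [ha, hb, h] <;> simp

theorem exists_psi_neg [CharP k 2] : ∃ c : k, psi c = -1 := by
  by_contra h
  have h1 : (ariAS k).range = ⊤ := by
    refine (AddSubgroup.eq_top_iff' _).2 fun c => ?_
    by_contra h2
    exact h ⟨c, if_neg h2⟩
  have h2 := ari_index (k := k)
  rw [h1, AddSubgroup.index_top] at h2
  omega

end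

section
variable {k : Type*} [Field k] [Fintype k]

omit [Fintype k] in
theorem ab_sq [CharP k 2] (a : k[X]) (i : ℕ) :
    (a ^ 2).coeff (2 * i) = a.coeff i ^ 2 ∧ (a ^ 2).coeff (2 * i + 1) = 0 := by
  rw [← map_frobenius_expand 2 a, coeff_map, coeff_map, coeff_expand_mul' two_pos,
    coeff_expand two_pos, if_neg (by omega), map_zero]
  exact ⟨rfl, rfl⟩

omit [Fintype k] in
theorem ab_coeff [CharP k 2] (a b : k[X]) (i : ℕ) :
    (a ^ 2 + X * b ^ 2).coeff (2 * i) = a.coeff i ^ 2 ∧
      (a ^ 2 + X * b ^ 2).coeff (2 * i + 1) = b.coeff i ^ 2 := by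
  rw [coeff_add, coeff_add, coeff_X_mul, (ab_sq a i).1, (ab_sq a i).2, (ab_sq b i).1, zero_add]
  refine ⟨?_, rfl⟩
  rcases i with _ | i
  · simp
  · rw [show 2 * (i + 1) = 2 * i + 1 + 1 from rfl, coeff_X_mul, (ab_sq b i).2, add_zero]

omit [Fintype k] in
theorem ab_inj [CharP k 2] {a b a' b' : k[X]} (h : a ^ 2 + X * b ^ 2 = a' ^ 2 + X * b' ^ 2) :
    a = a' ∧ b = b' :=
  ⟨Polynomial.ext fun i => frobenius_inj k 2 ((ab_coeff a b i).1.symm.trans
      (h ▸ (ab_coeff a' b' i).1)),
    Polynomial.ext fun i => frobenius_inj k 2 ((ab_coeff a b i).2.symm.trans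
      (h ▸ (ab_coeff a' b' i).2))⟩

theorem exists_ab [CharP k 2] (h : k[X]) : ∃ a b : k[X], h = a ^ 2 + X * b ^ 2 ∧
    ∀ m : ℕ, h.degree < (2 * m + 1 : ℕ) → a.degree < (m + 1 : ℕ) ∧ b.degree < m := by
  obtain ⟨a, b, rfl⟩ : ∃ a b : k[X], h = a ^ 2 + X * b ^ 2 := by
    induction h using Polynomial.induction_on' with
    | add p q hp hq =>
      obtain ⟨a, b, rfl⟩ := hp
      obtain ⟨a', b', rfl⟩ := hq
      exact ⟨a + a', b + b', by rw [CharTwo.add_sq, CharTwo.add_sq]; ring⟩
    | monomial n c =>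
      obtain ⟨d, rfl⟩ := (Finite.injective_iff_surjective.1 (frobenius_inj k 2)) c
      rw [frobenius_def, ← C_mul_X_pow_eq_monomial, C_pow]
      obtain ⟨i, rfl | rfl⟩ := n.even_or_odd'
      · exact ⟨C d * X ^ i, 0, by ring⟩
      · exact ⟨0, C d * X ^ i, by ring⟩
  refine ⟨a, b, rfl, fun m hm => ?_⟩
  rw [degree_lt_iff_coeff_zero] at hm
  refine ⟨(degree_lt_iff_coeff_zero _ _).2 fun i hi => ?_,
    (degree_lt_iff_coeff_zero _ _).2 fun i hi => ?_⟩
  · exact pow_eq_zero_iff two_ne_zero |>.1 ((ab_coeff a b i).1.symm.trans (hm _ (by omega)))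
  · exact pow_eq_zero_iff two_ne_zero |>.1 ((ab_coeff a b i).2.symm.trans (hm _ (by omega)))

theorem exp_AB [CharP k 2] (m : ℕ) (F : k[X] → ℝ) : 𝔼 f ∈ mon k (2 * m + 1), F f =
    𝔼 B ∈ mon k m, 𝔼 A ∈ box k (m + 1), F (A ^ 2 + X * B ^ 2) := by
  rw [← expect_product' (mon k m) (box k (m + 1)) fun B A => F (A ^ 2 + X * B ^ 2)]
  have key : ∀ A b : k[X], A ^ 2 + X * (X ^ m + b) ^ 2 = X ^ (2 * m + 1) + (A ^ 2 + X * b ^ 2) :=
    fun A b => by rw [CharTwo.add_sq]; ring
  refine (expect_nbij (fun x : k[X] × k[X] => x.2 ^ 2 + X * x.1 ^ 2) ?_ (fun _ _ => rfl)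
    (fun x _ y _ h => Prod.ext (ab_inj h).2 (ab_inj h).1) ?_).symm
  · rintro ⟨B, A⟩ hx
    obtain ⟨hB, hA⟩ := mem_product.1 hx
    obtain ⟨b, hb, rfl⟩ := mem_image.1 hB
    refine mem_image.2 ⟨A ^ 2 + X * b ^ 2, mem_box.2 ?_, (key A b).symm⟩
    have h1 := (degree_lt_iff_coeff_zero _ _).1 (mem_box.1 hA)
    have h2 := (degree_lt_iff_coeff_zero _ _).1 (mem_box.1 hb)
    refine (degree_lt_iff_coeff_zero _ _).2 fun n hn => ?_
    obtain ⟨i, rfl | rfl⟩ := n.even_or_odd'
    · rw [(ab_coeff A b i).1, h1 i (by omega), zero_pow two_ne_zero]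
    · rw [(ab_coeff A b i).2, h2 i (by omega), zero_pow two_ne_zero]
  · intro f hf
    obtain ⟨h, hh, rfl⟩ := mem_image.1 (mem_coe.1 hf)
    obtain ⟨a, b, rfl, hd⟩ := exists_ab h
    obtain ⟨ha, hb⟩ := hd m (mem_box.1 hh)
    exact ⟨(X ^ m + b, a), mem_coe.2 (mem_product.2
      ⟨mem_image.2 ⟨b, mem_box.2 hb, rfl⟩, mem_box.2 ha⟩), key a b⟩

end

section
variable {k : Type*} [Field k] [Fintype k]

theorem sign_aux (N : ℕ) : ∀ f : k[X], f.Monic → f.Separable → f.natDegree = N →
    ∃ (a : Fin N → AlgebraicClosure k) (σ : Equiv.Perm (Fin N)),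
      Function.Injective a ∧ (∀ i, (f.map (algebraMap k _)).eval (a i) = 0) ∧
      (∀ i, MP_2033ac_nt.frob k (a i) = a (σ i)) ∧
      ((Equiv.Perm.sign σ : ℤ) : ℝ) = (-1) ^ N * lam f := by
  induction N using Nat.strong_induction_on with
  | _ N ih =>
  intro f hf hs hN
  rcases Nat.eq_zero_or_pos N with rfl | hpos
  · have h1 : f = 1 := hf.natDegree_eq_zero.1 hN
    subst h1
    refine ⟨Fin.elim0, 1, fun i => i.elim0, fun i => i.elim0, fun i => i.elim0, ?_⟩
    simp [lam, UniqueFactorizationMonoid.factors_one]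
  · have hu : ¬ IsUnit f := fun h => by
      have := natDegree_eq_zero_of_isUnit h
      omega
    obtain ⟨p, hpm, hpi, g, rfl⟩ := exists_monic_irreducible_factor f hu
    have hg : g.Monic := hpm.of_mul_monic_left hf
    have hd : p.natDegree + g.natDegree = N := by rw [← hN, hpm.natDegree_mul hg]
    have hp0 : 0 < p.natDegree := hpi.natDegree_pos
    obtain ⟨a₂, σ₂, i₂, r₂, f₂, s₂⟩ := ih g.natDegree (by omega) g hg hs.of_mul_right rfl
    obtain ⟨a₁, f₁, i₁, r₁⟩ := MP_2033ac_nt.cyc hpi rfl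
    have hc : IsCoprime p g := hs.isCoprime
    have hl : lam p = -1 := by
      simp [lam, UniqueFactorizationMonoid.card_factors_of_irreducible hpi]
    subst hd
    have hne : ∀ i j, a₁ i ≠ a₂ j := fun i j h => by
      obtain ⟨u, v, huv⟩ := hc
      have := congrArg (fun q : k[X] => (q.map (algebraMap k (AlgebraicClosure k))).eval (a₁ i)) huv
      simp only [Polynomial.map_add, Polynomial.map_mul, eval_add, eval_mul, Polynomial.map_one,
        eval_one] at this
      rw [r₁ i, h, r₂ j] at this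
      simp at this
    refine ⟨Sum.elim a₁ a₂ ∘ finSumFinEquiv.symm,
      finSumFinEquiv.permCongr (Equiv.sumCongr (finRotate _) σ₂), ?_, fun i => ?_, fun i => ?_, ?_⟩
    · exact (Function.Injective.sumElim i₁ i₂ hne).comp finSumFinEquiv.symm.injective
    · obtain ⟨j, rfl⟩ := finSumFinEquiv.surjective i
      rw [Polynomial.map_mul, eval_mul, Function.comp_apply, Equiv.symm_apply_apply]
      rcases j with j | j
      · rw [Sum.elim_inl, r₁, zero_mul]
      · rw [Sum.elim_inr, r₂, mul_zero]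
    · obtain ⟨j, rfl⟩ := finSumFinEquiv.surjective i
      rw [Equiv.permCongr_apply, Function.comp_apply, Function.comp_apply, Equiv.symm_apply_apply,
        Equiv.symm_apply_apply]
      rcases j with j | j
      · exact f₁ j
      · exact f₂ j
    · rw [Equiv.Perm.sign_permCongr]
      have hs' := Equiv.Perm.sign_sumCongr (finRotate p.natDegree) σ₂
      rw [show (Equiv.sumCongr (finRotate p.natDegree) σ₂ : Equiv.Perm _) =
        Equiv.Perm.sumCongr (finRotate p.natDegree) σ₂ from rfl, hs', sign_finRotate,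
        lam_mul hpi.ne_zero hg.ne_zero, hl, Units.val_mul, Int.cast_mul, s₂]
      obtain ⟨e, he⟩ : ∃ e, p.natDegree = e + 1 := ⟨p.natDegree - 1, by omega⟩
      rw [he, Nat.add_sub_cancel]
      push_cast
      ring

theorem exists_roots {f : k[X]} (hf : f.Monic) (hs : f.Separable) :
    ∃ (a : Fin f.natDegree → AlgebraicClosure k) (σ : Equiv.Perm (Fin f.natDegree)),
      Function.Injective a ∧ (∀ i, (f.map (algebraMap k _)).eval (a i) = 0) ∧
      (∀ i, MP_2033ac_nt.frob k (a i) = a (σ i)) ∧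
      ((Equiv.Perm.sign σ : ℤ) : ℝ) = (-1) ^ f.natDegree * lam f :=
  sign_aux _ f hf hs rfl

end

end Pool.Agent.MP_a4a062_nt.C2
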