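import Pool.Agent.MP_a4a062_nt.C2.P1

set_option autoImplicit false

open Polynomial Finset Filter
open scoped Classical BigOperators

noncomputable section
namespace Pool.Agent.MP_a4a062_nt.C2

section LbA
variable {K : Type*} [Field K] [CharP K 2]

/-- parity as an element of a field of characteristic two -/
def lbPar (K : Type*) [Field K] [CharP K 2] : ℤˣ →* Multiplicative K where
  toFun u := Multiplicative.ofAdd (if u = 1 then 0 else 1)
  map_one' := by simp
  map_mul' u v := by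
    rcases Int.units_eq_one_or u with rfl | rfl <;> rcases Int.units_eq_one_or v with rfl | rfl <;>
      simp [← ofAdd_add, CharTwo.add_self_eq_zero]

theorem lb_ne {n : ℕ} {a : Fin n → K} (ha : Function.Injective a) {i j : Fin n} (h : i ≠ j) :
    a i + a j ≠ 0 := fun e => h (ha (by rwa [CharTwo.add_eq_zero] at e))

theorem lb_perm {n : ℕ} {a : Fin n → K} (ha : Function.Injective a) (σ : Equiv.Perm (Fin n)) :
    ∑ i, ∑ j ∈ Ioi i, a (σ i) / (a (σ i) + a (σ j)) =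
      ∑ i, ∑ j ∈ Ioi i, a i / (a i + a j) + if Equiv.Perm.sign σ = 1 then 0 else 1 := by
  have h1 : (if Equiv.Perm.sign σ = 1 then (0 : K) else 1) =
      ∑ i, ∑ j ∈ Ioi i, if σ⁻¹ i < σ⁻¹ j then (0 : K) else 1 := by
    have := congrArg (fun u => Multiplicative.toAdd (lbPar K u)) (σ⁻¹).sign_eq_prod_prod_Ioi
    simp only [map_prod, toAdd_prod, Equiv.Perm.sign_inv] at this
    refine Eq.trans this (sum_congr rfl fun i _ => sum_congr rfl fun j _ => ?_)
    split_ifs <;> simp [lbPar]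
  have h2 : ∑ i, ∑ j ∈ Ioi i, a (σ i) / (a (σ i) + a (σ j)) =
      ∑ i, ∑ j ∈ ({i}ᶜ : Finset (Fin n)), if σ⁻¹ j < σ⁻¹ i then a j / (a j + a i) else 0 := by
    have e1 : ∀ i, ∑ j ∈ Ioi i, a (σ i) / (a (σ i) + a (σ j)) =
        ∑ j, if i < j then a (σ i) / (a (σ i) + a (σ j)) else 0 := fun i => by
      rw [← sum_filter]; congr 1; ext j; simp
    have e2 : ∀ i, (∑ j ∈ ({i}ᶜ : Finset (Fin n)), if σ⁻¹ j < σ⁻¹ i then a j / (a j + a i) else 0) =
        ∑ j, if σ⁻¹ j < σ⁻¹ i then a j / (a j + a i) else 0 := fun i => by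
      refine sum_subset (subset_univ _) fun j _ hj => ?_
      have : j = i := by simpa using hj
      simp [this]
    simp only [e1, e2]
    rw [sum_comm, ← Equiv.sum_comp σ⁻¹]
    refine sum_congr rfl fun i _ => ?_
    rw [← Equiv.sum_comp σ⁻¹]
    simp
  rw [h1, h2, ← sum_sum_Ioi_add_eq_sum_sum_off_diag
    (fun j i => if σ⁻¹ j < σ⁻¹ i then a j / (a j + a i) else 0), ← sum_add_distrib]
  refine sum_congr rfl fun i _ => ?_
  rw [← sum_add_distrib]
  refine sum_congr rfl fun j hj => ?_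
  have hij : i ≠ j := (mem_Ioi.1 hj).ne
  have h0 := lb_ne ha hij
  rcases lt_or_gt_of_ne (σ⁻¹.injective.ne hij) with h | h
  · simp only [h, h.not_gt, if_true, if_false, add_zero, zero_add]
  · simp only [h, h.not_gt, if_true, if_false, add_zero]
    rw [add_comm (a j)]
    field_simp
    linear_combination (-a i) * (CharTwo.two_eq_zero : (2 : K) = 0)

theorem lb_newton {ι : Type*} (s : Finset ι) (u : ι → K) :
    (∏ j ∈ s, (1 + C (u j) * X)).coeff 0 = 1 ∧
    ∑ j ∈ s, u j = (∏ j ∈ s, (1 + C (u j) * X)).coeff 1 ∧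
    ∑ j ∈ s, u j ^ 3 = (∏ j ∈ s, (1 + C (u j) * X)).coeff 1 ^ 3 +
      (∏ j ∈ s, (1 + C (u j) * X)).coeff 1 * (∏ j ∈ s, (1 + C (u j) * X)).coeff 2 +
      (∏ j ∈ s, (1 + C (u j) * X)).coeff 3 := by
  induction s using Finset.induction_on with
  | empty => simp [coeff_one]
  | insert x s hx ih =>
    obtain ⟨h0, h1, h3⟩ := ih
    simp only [prod_insert hx, sum_insert hx]
    set P := ∏ j ∈ s, (1 + C (u j) * X)
    have c : ∀ l, ((1 + C (u x) * X) * P).coeff (l + 1) = P.coeff (l + 1) + u x * P.coeff l :=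
      fun l => by rw [add_mul, one_mul, coeff_add, mul_assoc, coeff_C_mul, coeff_X_mul]
    refine ⟨by simp [add_mul, mul_assoc, h0], ?_, ?_⟩
    · rw [c 0, h0, h1]; ring
    · rw [c 0, c 1, c 2, h0, h3]
      linear_combination (-(2 * P.coeff 1 ^ 2 * u x + 2 * P.coeff 1 * u x ^ 2 + u x * P.coeff 2)) *
        (CharTwo.two_eq_zero : (2 : K) = 0)

theorem lb_root {n : ℕ} {a : Fin n → K} (ha : Function.Injective a) (i : Fin n) :
    ∃ δ : K, δ ≠ 0 ∧ ∀ l, (hasseDeriv (l + 1) (∏ j, (X - C (a j)))).eval (a i) =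
      δ * (∏ j ∈ ({i}ᶜ : Finset (Fin n)), (1 + C (1 / (a j + a i)) * X)).coeff l := by
  refine ⟨∏ j ∈ ({i}ᶜ : Finset (Fin n)), (a j + a i), prod_ne_zero_iff.2 fun j hj =>
    lb_ne ha (by simpa using hj), fun l => ?_⟩
  rw [← taylor_coeff, taylor_apply, Polynomial.prod_comp, Fintype.prod_eq_mul_prod_compl i,
    ← coeff_C_mul, map_prod, ← prod_mul_distrib]
  have : (X - C (a i)).comp (X + C (a i)) = X := by simp
  rw [this, coeff_X_mul]
  congr 1
  refine prod_congr rfl fun j hj => ?_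
  have h0 : a j + a i ≠ 0 := lb_ne ha (by simpa using hj)
  rw [mul_add, ← mul_assoc, ← C_mul, mul_one_div_cancel h0]
  simp only [add_comp, X_comp, C_comp, map_add, map_one, CharTwo.sub_eq_add]
  ring

theorem lb_beta {n : ℕ} {a : Fin n → K} (ha : Function.Injective a) (H : ℕ → K[X])
    (hH : ∀ l, H l = hasseDeriv l (∏ j, (X - C (a j)))) :
    (∀ i, (H 1).eval (a i) ≠ 0) ∧
    (∑ i, ∑ j ∈ Ioi i, a i / (a i + a j)) ^ 2 + ∑ i, ∑ j ∈ Ioi i, a i / (a i + a j) =
      (∑ i : Fin n, ∑ _j ∈ Ioi i, (1 : K)) ^ 2 + ∑ i, a i ^ 3 * ((H 2).eval (a i) ^ 3 +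
        (H 2).eval (a i) * (H 3).eval (a i) * (H 1).eval (a i) +
        (H 4).eval (a i) * (H 1).eval (a i) ^ 2) / (H 1).eval (a i) ^ 3 := by
  have h2 : (2 : K) = 0 := CharTwo.two_eq_zero
  refine ⟨fun i => ?_, ?_⟩
  · obtain ⟨δ, h0, h⟩ := lb_root ha i
    rw [hH, h 0, (lb_newton _ _).1, mul_one]
    exact h0
  have e1 : ∀ i, a i ^ 3 * ((H 2).eval (a i) ^ 3 +
        (H 2).eval (a i) * (H 3).eval (a i) * (H 1).eval (a i) +
        (H 4).eval (a i) * (H 1).eval (a i) ^ 2) / (H 1).eval (a i) ^ 3 =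
      ∑ j ∈ ({i}ᶜ : Finset (Fin n)), a i ^ 3 * (1 / (a j + a i)) ^ 3 := fun i => by
    obtain ⟨δ, h0, h⟩ := lb_root ha i
    rw [← mul_sum, (lb_newton _ _).2.2, hH, hH, hH, hH, h 0, h 1, h 2, h 3, (lb_newton _ _).1]
    field_simp
  have e2 : ∑ i : Fin n, ∑ _j ∈ Ioi i, (1 : K) =
      ∑ i, ∑ j ∈ ({i}ᶜ : Finset (Fin n)), a i * (1 / (a j + a i)) := by
    rw [← sum_sum_Ioi_add_eq_sum_sum_off_diag (fun j i => a i * (1 / (a j + a i)))]
    refine sum_congr rfl fun i _ => sum_congr rfl fun j hj => ?_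
    have h0 := lb_ne ha (mem_Ioi.1 hj).ne
    rw [add_comm (a j)]
    field_simp
  simp only [e1, e2, CharTwo.sum_sq, ← sum_add_distrib]
  rw [← sum_sum_Ioi_add_eq_sum_sum_off_diag
    (fun j i => (a i * (1 / (a j + a i))) ^ 2 + a i ^ 3 * (1 / (a j + a i)) ^ 3)]
  refine sum_congr rfl fun i _ => sum_congr rfl fun j hj => ?_
  have h0 := lb_ne ha (mem_Ioi.1 hj).ne
  rw [add_comm (a j)]
  field_simp
  linear_combination (a i ^ 2 * a j - a j ^ 3) * h2

end LbA

section LbB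
variable {k : Type*} [Field k] [CharP k 2]

theorem lb_dvd {R : Type*} [CommRing R] {m x y e : R} (hx : m ∣ x) (hy : m ∣ y) (c₁ c₂ c₃ : R)
    (h : e = x * c₁ + y * c₂ + m * c₃) : m ∣ e :=
  h ▸ dvd_add (dvd_add (hx.mul_right _) (hy.mul_right _)) (dvd_mul_right _ _)

omit [CharP k 2] in
theorem lb_crt {u v u' v' : k[X]} (hu : u.Monic) (hv : v.Monic) (h1 : u ∣ v * v' - 1)
    (h2 : v ∣ u * u' - 1) (N : k[X]) : tau (u * v) N = tau u (N * v') + tau v (N * u') := by
  rw [← tau_mul hu hv, ← tau_mul hv hu (N * u'), mul_comm v u, ← tau_add]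
  refine tau_congr (hu.mul hv) ?_
  have := mul_dvd_mul h1 h2
  exact lb_dvd this this N 0 (-(N * u' * v')) (by ring)

theorem lb_ev {M : k[X]} (hM : M.Monic) (S R : k[X]) :
    tau (M ^ 2) (S ^ 2 + X * R ^ 2) = tau M R ^ 2 := by
  rw [tau_add, tau_sq_sq hM, zero_add]
  have h2 : (2 : k[X]) = 0 := CharTwo.two_eq_zero
  have e := modByMonic_add_div R M
  rw [tau_congr (Q := X * (R %ₘ M) ^ 2) (hM.pow 2) ⟨X * (R /ₘ M) ^ 2, by
    linear_combination (-(X * (R + R %ₘ M + M * (R /ₘ M)))) * e +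
      (X * (R %ₘ M) * (M * (R /ₘ M))) * h2⟩]
  by_cases h1 : M = 1
  · simp [h1, tau]
  have hd : 0 < M.natDegree := hM.natDegree_pos.2 h1
  have hlt : (R %ₘ M).natDegree < M.natDegree := natDegree_modByMonic_lt R hM h1
  obtain ⟨d, hd⟩ : ∃ d, M.natDegree = d + 1 := ⟨_, (Nat.succ_pred_eq_of_pos hd).symm⟩
  have hle : (R %ₘ M).natDegree ≤ d := by omega
  rw [tau_of_lt (hM.pow 2), hM.natDegree_pow, hd]
  · rw [show 2 * (d + 1) - 1 = 2 * d + 1 by omega, coeff_X_mul, tau, hd, Nat.add_sub_cancel,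
      coeff_pow_of_natDegree_le hle]
  · refine degree_lt_degree ?_
    rw [hM.natDegree_pow, hd]
    refine lt_of_le_of_lt natDegree_mul_le ?_
    have := natDegree_pow_le (p := R %ₘ M) (n := 2)
    rw [natDegree_X]
    omega

theorem lb_half {M : k[X]} (hM : M.Monic) (h : k[X]) :
    tau M (h /ₘ M * (h %ₘ M)) = tau (M ^ 3) (X * h * (derivative h * M + h * derivative M)) := by
  have h2 : (2 : k[X]) = 0 := CharTwo.two_eq_zero
  by_cases h1 : M = 1
  · simp [h1, tau]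
  have hd : 0 < M.natDegree := hM.natDegree_pos.2 h1
  have hlt : (h %ₘ M).natDegree < M.natDegree := natDegree_modByMonic_lt h hM h1
  have e := modByMonic_add_div h M
  generalize h %ₘ M = ρ at *
  generalize h /ₘ M = q at *
  subst e
  have z : tau (M ^ 3) (X * ρ * (derivative ρ * M + ρ * derivative M)) = 0 := by
    have hb : (X * ρ * (derivative ρ * M + ρ * derivative M)).natDegree < 3 * M.natDegree - 1 := by
      have b1 := natDegree_mul_le (p := X * ρ) (q := derivative ρ * M + ρ * derivative M)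
      have b2 := natDegree_mul_le (p := (X : k[X])) (q := ρ)
      have b3 := natDegree_add_le (derivative ρ * M) (ρ * derivative M)
      have b5 := natDegree_mul_le (p := ρ) (q := derivative M)
      have b6 := natDegree_derivative_le M
      rw [natDegree_X] at b2
      by_cases h0 : ρ.natDegree = 0
      · rw [derivative_of_natDegree_zero h0, zero_mul, natDegree_zero] at b3
        rw [derivative_of_natDegree_zero h0, zero_mul] at b1 ⊢
        omega
      · have b4 := natDegree_mul_le (p := derivative ρ) (q := M)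
        have b7 := natDegree_derivative_le ρ
        omega
    rw [tau_of_lt (hM.pow 3) (degree_lt_degree (by rw [hM.natDegree_pow]; omega)),
      hM.natDegree_pow, coeff_eq_zero_of_natDegree_lt hb]
  have z2 := tau_sq_mul_deriv hM 1 (X * (q * ρ * M))
  rw [← tau_mul hM hM, ← sq, ← add_zero (tau (M ^ 2) _), ← z2, ← tau_add,
    ← tau_mul (hM.pow 2) hM, ← pow_succ, ← add_zero (tau (M ^ (2 + 1)) _), ← z, ← tau_add]
  refine tau_congr (hM.pow 3) ⟨X * q * derivative q, ?_⟩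
  simp only [derivative_mul, derivative_add, derivative_X]
  linear_combination (q * ρ * M ^ 2 - X * q * derivative q * M ^ 3 - X * ρ * q * M * derivative M
    - X * q ^ 2 * M ^ 2 * derivative M) * h2

end LbB

section LbC
variable {k : Type*} [Field k] [Fintype k] [CharP k 2]

theorem lb_dec (A : k[X]) : ∃ a₀ a₁ : k[X], A = a₀ ^ 2 + X * a₁ ^ 2 ∧ derivative A = a₁ ^ 2 := by
  obtain ⟨a, b, h, -⟩ := exists_ab A
  refine ⟨a, b, h, ?_⟩
  rw [h]
  simp only [sq, derivative_add, derivative_mul, derivative_X]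
  linear_combination (a * derivative a + X * b * derivative b) *
    (CharTwo.two_eq_zero : (2 : k[X]) = 0)

theorem lb_local {M r A U G V : k[X]} (Z : k[X]) (hM : M.Monic) (hU : M ^ 4 ∣ A * U - 1)
    (hG : M ^ 4 ∣ r * G - 1) (hV : M ^ 4 ∣ (A ^ 2 + X * (M * r) ^ 2) * V - 1) :
    psi (tau (M ^ 4) (((X * (derivative A ^ 2 + X * derivative (M * r) ^ 2)) ^ 3 +
      X * (derivative A ^ 2 + X * derivative (M * r) ^ 2) * (X ^ 2 * derivative (M * r) ^ 2) *
        (M * r) ^ 2 + Z * (M * r) ^ 4) * V * G ^ 4)) = psi (vv M (M * r) A U G) := by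
  have h2 : (2 : k[X]) = 0 := CharTwo.two_eq_zero
  have k2 : (2 : k) = 0 := CharTwo.two_eq_zero
  obtain ⟨a₀, a₁, hA, ha⟩ := lb_dec A
  obtain ⟨b₀, b₁, hB, hb⟩ := lb_dec (M * r)
  have hda : derivative (derivative A) = 0 := by
    rw [ha, sq, derivative_mul]; linear_combination (a₁ * derivative a₁) * h2
  have hG' : M ^ 3 ∣ derivative G - derivative r * G ^ 2 := by
    obtain ⟨s, hs⟩ := hG
    have := congrArg derivative hs
    simp only [derivative_sub, derivative_mul, derivative_one, derivative_pow, Nat.cast_ofNat,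
      map_ofNat] at this
    exact ⟨G * (4 * derivative M * s + M * derivative s) - M * s * derivative G, by
      linear_combination G * this - derivative G * hs - derivative r * G ^ 2 * h2⟩
  have hb' : derivative (M * r) = derivative M * r + M * derivative r := derivative_mul
  have w1 := lb_half hM (derivative A * G)
  rw [derivative_mul, hda] at w1
  unfold vv
  rw [w1]
  generalize derivative A = a at *
  generalize derivative (M * r) = b at *
  have hbe : M * r * b = (b₀ * b₁) ^ 2 + X * b ^ 2 := by rw [hB, hb]; ring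
  have hae : A * a = (a₀ * a₁) ^ 2 + X * a ^ 2 := by rw [hA, ha]; ring
  generalize b₀ * b₁ = be at hbe
  generalize a₀ * a₁ = ae at hae
  have e4 : M ^ 4 = (M ^ 2) ^ 2 := by ring
  have d2 : M ^ 2 ∣ M ^ 4 := pow_dvd_pow M (by norm_num)
  have d3 : M ^ 3 ∣ M ^ 4 := pow_dvd_pow M (by norm_num)
  have d1 : M ∣ M ^ 4 := dvd_pow_self M (by norm_num)
  have t21 : ∀ P, tau (M ^ 2) (P * M) = tau M P := fun P => by rw [sq, tau_mul hM hM]
  have t43 : ∀ P, tau (M ^ 4) (P * M) = tau (M ^ 3) P := fun P => by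
    rw [pow_succ M 3, tau_mul (hM.pow 3) hM]
  have t42 : ∀ P, tau (M ^ 4) (P * M ^ 2) = tau (M ^ 2) P := fun P => by
    rw [e4, sq (M ^ 2), tau_mul (hM.pow 2) (hM.pow 2)]
  have v4 : ∀ S R, tau (M ^ 4) (S ^ 2 + X * R ^ 2) = tau (M ^ 2) R ^ 2 := fun S R => by
    rw [e4, lb_ev (hM.pow 2)]
  have hV' : M ^ 4 ∣ V - (U ^ 2 + X * (M * r) ^ 2 * U ^ 4) :=
    lb_dvd hU hV (-(V * (A * U - 1) * (1 + X * (M * r) ^ 2 * U ^ 2)))
      (U ^ 2 + X * (M * r) ^ 2 * U ^ 4) (-(V * X ^ 2 * r ^ 4 * U ^ 4)) (by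
        linear_combination (V - V * A * U - X * (M * r) ^ 2 * U ^ 3 * V * A) * h2)
  have s0 : tau (M ^ 4) (((X * (a ^ 2 + X * b ^ 2)) ^ 3 +
      X * (a ^ 2 + X * b ^ 2) * (X ^ 2 * b ^ 2) * (M * r) ^ 2 + Z * (M * r) ^ 4) * V * G ^ 4) =
      tau (M ^ 2) (X * a * (a ^ 2 + X * b ^ 2) * G ^ 2 * U) ^ 2 +
        tau M (X ^ 2 * b * (a ^ 2 + X * b ^ 2) * G * U ^ 2 + X * a * b * U * G) ^ 2 := by
    rw [← v4 (X ^ 2 * b * (a ^ 2 + X * b ^ 2) * G ^ 2 * U),
      ← lb_ev hM (X ^ 2 * a * (a ^ 2 + X * b ^ 2) * G * U ^ 2 + X ^ 2 * b ^ 2 * U * G), ← t42,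
      ← tau_add]
    refine tau_congr (hM.pow 4) ?_
    generalize hφ : a ^ 2 + X * b ^ 2 = φ
    refine lb_dvd hV' hG (((X * φ) ^ 3 + X * φ * (X ^ 2 * b ^ 2) * (M * r) ^ 2 + Z * (M * r) ^ 4) * G ^ 4)
      ((X ^ 4 * φ ^ 3 * U ^ 4 + X ^ 3 * φ * b ^ 2 * U ^ 2) * M ^ 2 * G ^ 2 * (r * G + 1))
      (r ^ 4 * G ^ 4 * (Z * (U ^ 2 + X * (M * r) ^ 2 * U ^ 4) + X ^ 4 * φ * b ^ 2 * U ^ 4)) ?_
    subst hφ
    linear_combination (-(M ^ 2 * G ^ 2 * U ^ 3 * (a ^ 2 + X * b ^ 2) *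
      (X ^ 4 * a * b ^ 2 + X ^ 4 * a * b ^ 2))) * h2
  have s1 : tau (M ^ 2) (X * a * (a ^ 2 + X * b ^ 2) * G ^ 2 * U) =
      tau (M ^ 2) (X * a ^ 3 * G ^ 2 * U) + tau M (X * a * b * U * G) ^ 2 := by
    rw [← lb_ev hM (X * b * G * U * ae), ← tau_add]
    refine tau_congr (hM.pow 2) (lb_dvd (d2.trans hU) (d2.trans hG)
      (-(X ^ 2 * a * b ^ 2 * G ^ 2 * U)) 0 0 ?_)
    linear_combination (X ^ 2 * b ^ 2 * G ^ 2 * U ^ 2) * hae
  have s2 : tau M (X ^ 3 * b ^ 3 * G * U ^ 2) = tau M (X * b * be * U * G) ^ 2 := by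
    rw [← lb_ev hM (X ^ 2 * b ^ 2 * G * U), ← t21]
    refine tau_congr (hM.pow 2) (lb_dvd (d2.trans hU) (d2.trans hG) 0
      (-(X ^ 3 * b ^ 3 * G * U ^ 2 * M)) 0 ?_)
    linear_combination (X ^ 3 * b ^ 2 * G ^ 2 * U ^ 2) * hbe
  have s3 : tau (M ^ 3) (X * (a * G) * ((0 * G + a * derivative G) * M + a * G * derivative M)) =
      tau (M ^ 2) (a * be * G ^ 2) ^ 2 := by
    rw [← v4 (X * a * b * G ^ 2), tau_congr (Q := X * a ^ 2 * b * r * G ^ 4) (hM.pow 3)
      (lb_dvd (d3.trans hG) hG' (-(X * a ^ 2 * G ^ 2 * (b * G + derivative M))) (X * a ^ 2 * G * M)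
        0 (by linear_combination (-(X * a ^ 2 * G ^ 3)) * hb')), ← t43]
    congr 1
    linear_combination (X * a ^ 2 * G ^ 4) * hbe
  have s4 : tau (M ^ 4) ((A * a + X * (M * r) * b) ^ 3 * G ^ 4 * U ^ 2) =
      (tau (M ^ 2) (a * be * G ^ 2) + tau M (X * a * b * U * G) + tau M (X * b * be * U * G)) ^ 2 := by
    have : (A * a + X * (M * r) * b) ^ 3 * G ^ 4 * U ^ 2 =
        ((A * a + X * (M * r) * b) * G ^ 2 * U * (ae + X * b)) ^ 2 +
          X * ((A * a + X * (M * r) * b) * G ^ 2 * U * (a + be)) ^ 2 := by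
      linear_combination ((A * a + X * (M * r) * b) ^ 2 * G ^ 4 * U ^ 2) * hae +
        ((A * a + X * (M * r) * b) ^ 2 * G ^ 4 * U ^ 2 * X) * hbe -
        ((A * a + X * (M * r) * b) ^ 2 * G ^ 4 * U ^ 2 * X * (ae * b + a * be)) * h2
    rw [this, v4, add_assoc, ← tau_add, ← t21, ← tau_add,
      ← add_zero (tau (M ^ 2) (a * be * G ^ 2 + _)), ← tau_sq_sq hM (a * G), ← tau_add]
    congr 1
    refine tau_congr (hM.pow 2) (lb_dvd (d2.trans hU) (d2.trans hG) (a * G ^ 2 * (a + be))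
      (X * M * b * G * U * (a + be)) 0 ?_)
    ring
  have s5 : tau (M ^ 2) (X * (A * a + X * (M * r) * b) ^ 3 * G ^ 2 * U ^ 4) =
      tau (M ^ 2) (X * a ^ 3 * G ^ 2 * U) + tau M (X ^ 2 * b * a ^ 2 * G * U ^ 2) := by
    rw [← t21, ← tau_add]
    refine tau_congr (hM.pow 2) (lb_dvd (d2.trans hU) (d2.trans hG)
      (X * a ^ 3 * G ^ 2 * U * ((A * U) ^ 2 + A * U + 1) +
        X ^ 2 * a ^ 2 * b * U ^ 2 * G ^ 2 * r * M * (A * U + 1))
      (X ^ 2 * b * a ^ 2 * G * U ^ 2 * M)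
      (X * G ^ 2 * U ^ 4 * (3 * A * a * (X * r * b) ^ 2 + M * (X * r * b) ^ 3)) ?_)
    linear_combination (X ^ 2 * A ^ 2 * a ^ 2 * M * r * b * G ^ 2 * U ^ 4) * h2
  have s6 : tau M (X ^ 2 * b * (a ^ 2 + X * b ^ 2) * G * U ^ 2 + X * a * b * U * G) =
      tau M (X ^ 2 * b * a ^ 2 * G * U ^ 2) + tau M (X * b * be * U * G) ^ 2 +
        tau M (X * a * b * U * G) := by
    rw [← s2, ← tau_add, ← tau_add]
    congr 1
    ring
  rw [s0, s1, s6, s3, s4, s5]
  generalize tau (M ^ 2) (X * a ^ 3 * G ^ 2 * U) = x₁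
  generalize tau M (X * a * b * U * G) = t
  generalize tau M (X ^ 2 * b * a ^ 2 * G * U ^ 2) = x₃
  generalize tau M (X * b * be * U * G) = y
  generalize tau (M ^ 2) (a * be * G ^ 2) = z
  have hw : psi ((x₁ + x₃ + y ^ 2 + t ^ 2 + t) ^ 2 + (x₁ + x₃ + y ^ 2 + t ^ 2 + t)) = 1 :=
    if_pos ⟨_, rfl⟩
  rw [← mul_one (psi (z ^ 2 + _ + _ + _)), ← hw, ← psi_add]
  congr 1
  simp only [CharTwo.add_sq]
  linear_combination (-(z ^ 2 + t + t ^ 2 + y ^ 2 + x₁ + x₃)) * k2

end LbC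

section LbD
variable {k : Type*} [Field k] [Fintype k] [CharP k 2]

omit [Fintype k] in
theorem lb_hasse (A B : k[X]) :
    hasseDeriv 1 (A ^ 2 + X * B ^ 2) = B ^ 2 ∧
    hasseDeriv 2 (A ^ 2 + X * B ^ 2) = derivative A ^ 2 + X * derivative B ^ 2 ∧
    hasseDeriv 3 (A ^ 2 + X * B ^ 2) = derivative B ^ 2 := by
  have h2 : (2 : k[X]) = 0 := CharTwo.two_eq_zero
  have x1 : hasseDeriv 1 (X : k[X]) = 1 := by rw [hasseDeriv_one', derivative_X]
  have x2 : hasseDeriv 2 (X : k[X]) = 0 := hasseDeriv_X 2 (by norm_num)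
  have x3 : hasseDeriv 3 (X : k[X]) = 0 := hasseDeriv_X 3 (by norm_num)
  have q1 : ∀ P : k[X], hasseDeriv 1 (P ^ 2) = 0 := fun P => by
    rw [hasseDeriv_one', sq, derivative_mul]; linear_combination (P * derivative P) * h2
  have q2 : ∀ P : k[X], hasseDeriv 2 (P ^ 2) = derivative P ^ 2 := fun P => by
    rw [sq, hasseDeriv_mul]
    simp only [Nat.antidiagonal_succ, Nat.antidiagonal_zero, sum_cons, sum_map, sum_singleton,
      Function.Embedding.coe_prodMap, Prod.map, Function.Embedding.coeFn_mk,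
      Function.Embedding.refl_apply, hasseDeriv_zero', Nat.succ_eq_add_one, zero_add,
      Nat.reduceAdd, hasseDeriv_one']
    linear_combination (P * hasseDeriv 2 P) * h2
  have q3 : ∀ P : k[X], hasseDeriv 3 (P ^ 2) = 0 := fun P => by
    rw [sq, hasseDeriv_mul]
    simp only [Nat.antidiagonal_succ, Nat.antidiagonal_zero, sum_cons, sum_map, sum_singleton,
      Function.Embedding.coe_prodMap, Prod.map, Function.Embedding.coeFn_mk,
      Function.Embedding.refl_apply, hasseDeriv_zero', Nat.succ_eq_add_one, zero_add,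
      Nat.reduceAdd]
    linear_combination (P * hasseDeriv 3 P + hasseDeriv 1 P * hasseDeriv 2 P) * h2
  refine ⟨?_, ?_, ?_⟩ <;> rw [map_add, hasseDeriv_mul] <;>
    simp only [Nat.antidiagonal_succ, Nat.antidiagonal_zero, sum_cons, sum_map, sum_singleton,
      Function.Embedding.coe_prodMap, Prod.map, Function.Embedding.coeFn_mk,
      Function.Embedding.refl_apply, hasseDeriv_zero', Nat.succ_eq_add_one, zero_add,
      Nat.reduceAdd, x1, x2, x3, q1, q2, q3] <;> ring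

omit [Fintype k] [CharP k 2] in
theorem lb_top {f : k[X]} (hf : f.Monic) {n : ℕ} (hn : f.natDegree = n + 1) (l : ℕ) :
    (X ^ l * hasseDeriv (l + 1) f).natDegree ≤ n ∧
      (X ^ l * hasseDeriv (l + 1) f).coeff n = ((n + 1).choose (l + 1) : k) := by
  have c : ∀ j, (X ^ l * hasseDeriv (l + 1) f).coeff j = ((j + 1).choose (l + 1) : k) * f.coeff (j + 1) :=
    fun j => by
      rw [coeff_X_pow_mul']
      split_ifs with h
      · rw [hasseDeriv_coeff, show j - l + (l + 1) = j + 1 by omega]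
      · rw [Nat.choose_eq_zero_of_lt (by omega), Nat.cast_zero, zero_mul]
  refine ⟨natDegree_le_iff_coeff_eq_zero.2 fun j hj => ?_, ?_⟩
  · rw [c, coeff_eq_zero_of_natDegree_lt (by omega), mul_zero]
  · rw [c, ← hn, hf.coeff_natDegree, mul_one]

theorem lb_psi {c : k} {γ : AlgebraicClosure k} {u : ℤˣ} (h : γ ^ 2 + γ = algebraMap k _ c)
    (hγ : MP_2033ac_nt.frob k γ = γ + if u = 1 then 0 else 1) : psi c = ((u : ℤ) : ℝ) := by
  unfold psi
  rcases Int.units_eq_one_or u with rfl | rfl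
  · rw [if_pos rfl, add_zero, MP_2033ac_nt.frob_apply] at hγ
    obtain ⟨w, hw⟩ : γ ∈ (algebraMap k (AlgebraicClosure k)).range := by
      have hX : (X ^ Fintype.card k - X : k[X]) ≠ 0 :=
        FiniteField.X_pow_card_sub_X_ne_zero k Fintype.one_lt_card
      refine Polynomial.Splits.mem_range_of_isRoot (f := X ^ Fintype.card k - X) ?_ hX ?_
      · rw [splits_iff_card_roots, FiniteField.roots_X_pow_card_sub_X,
          FiniteField.X_pow_card_sub_X_natDegree_eq k Fintype.one_lt_card]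
        rfl
      · simp [hγ]
    rw [if_pos ⟨w, (algebraMap k (AlgebraicClosure k)).injective (by rw [map_add, map_pow, hw, h])⟩]
    simp
  · rw [if_neg (by decide)] at hγ
    rw [if_neg]
    · simp
    rintro ⟨w, rfl⟩
    rw [map_add, map_pow] at h
    have h2 : (2 : AlgebraicClosure k) = 0 := CharTwo.two_eq_zero
    have e : (γ + algebraMap k _ w) * (γ + algebraMap k _ w + 1) = 0 := by
      linear_combination h + (γ * algebraMap k _ w + algebraMap k _ w ^ 2 + algebraMap k _ w) * h2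
    have hw := MP_2033ac_nt.frob_alg k w
    rcases mul_eq_zero.1 e with e | e
    · have := congrArg (MP_2033ac_nt.frob k) e
      rw [map_add, hγ, hw, map_zero] at this
      exact one_ne_zero (by linear_combination this - e : (1 : AlgebraicClosure k) = 0)
    · have := congrArg (MP_2033ac_nt.frob k) e
      rw [map_add, map_add, hγ, hw, map_zero, map_one] at this
      exact one_ne_zero (by linear_combination this - e : (1 : AlgebraicClosure k) = 0)

theorem lb_berl (m : ℕ) : ∃ c : k, ∀ A B V : k[X], B.Monic → B.natDegree = m → A.natDegree ≤ m →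
    B ^ 4 ∣ (A ^ 2 + X * B ^ 2) * V - 1 → lam (A ^ 2 + X * B ^ 2) = -psi (c + tau (B ^ 4)
      (((X * (derivative A ^ 2 + X * derivative B ^ 2)) ^ 3 +
        X * (derivative A ^ 2 + X * derivative B ^ 2) * (X ^ 2 * derivative B ^ 2) * B ^ 2 +
        X ^ 3 * hasseDeriv 4 (A ^ 2 + X * B ^ 2) * B ^ 4) * V)) := by
  refine ⟨(∑ i : Fin (2 * m + 1), ∑ _j ∈ Ioi i, (1 : k)) ^ 2 + (((2 * m + 1).choose 2 : k) ^ 3 +
    ((2 * m + 1).choose 2 : k) * ((2 * m + 1).choose 3 : k) + ((2 * m + 1).choose 4 : k)),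
    fun A B V hB hm hA hV => ?_⟩
  obtain ⟨H1, H2, H3⟩ := lb_hasse A B
  have dB : (X * B ^ 2).natDegree = 2 * m + 1 := by
    rw [natDegree_X_mul (pow_ne_zero 2 hB.ne_zero), hB.natDegree_pow, hm]
  have dA : (A ^ 2).natDegree < (X * B ^ 2).natDegree := by
    have := natDegree_pow_le (p := A) (n := 2)
    omega
  have hf : (A ^ 2 + X * B ^ 2).Monic :=
    (monic_X.mul (hB.pow 2)).add_of_right (degree_lt_degree dA)
  have hn : (A ^ 2 + X * B ^ 2).natDegree = 2 * m + 1 := by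
    rw [natDegree_add_eq_right_of_natDegree_lt dA, dB]
  rw [← H2, ← H3]
  generalize A ^ 2 + X * B ^ 2 = f at *
  obtain ⟨s, hs⟩ := hV
  have hd : derivative f = B ^ 2 := by rw [← H1, hasseDeriv_one']
  have hsep : f.Separable := ⟨V, -(B ^ 2 * s), by rw [hd]; linear_combination hs⟩
  obtain ⟨t1, c1⟩ := lb_top hf hn 1
  obtain ⟨t2, c2⟩ := lb_top hf hn 2
  obtain ⟨t3, c3⟩ := lb_top hf hn 3
  rw [pow_one] at t1 c1
  simp only [Nat.reduceAdd] at t1 c1 t2 c2 t3 c3
  set N := (X * hasseDeriv 2 f) ^ 3 + X * hasseDeriv 2 f * (X ^ 2 * hasseDeriv 3 f) * B ^ 2 +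
    X ^ 3 * hasseDeriv 4 f * B ^ 4 with hN
  have b2 : (B ^ 2).natDegree = 2 * m := by rw [hB.natDegree_pow, hm]
  have b4 : (B ^ 4).natDegree = 4 * m := by rw [hB.natDegree_pow, hm]
  have top : tau (f * B ^ 4) N = ((2 * m + 1).choose 2 : k) ^ 3 +
      ((2 * m + 1).choose 2 : k) * ((2 * m + 1).choose 3 : k) + ((2 * m + 1).choose 4 : k) := by
    have dw : (f * B ^ 4).natDegree = 6 * m + 1 := by
      rw [hf.natDegree_mul (hB.pow 4), hn, b4]; ring
    have n12 : (X * hasseDeriv 2 f * (X ^ 2 * hasseDeriv 3 f)).natDegree ≤ 2 * m + 2 * m :=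
      natDegree_mul_le.trans (add_le_add t1 t2)
    have dN : N.natDegree ≤ 6 * m := by
      refine natDegree_add_le_of_degree_le (natDegree_add_le_of_degree_le ?_ ?_) ?_
      · exact natDegree_pow_le.trans (by omega)
      · exact natDegree_mul_le.trans (by omega)
      · exact natDegree_mul_le.trans (by omega)
    rw [tau_of_lt (hf.mul (hB.pow 4)) (degree_lt_degree (by omega)), dw, Nat.add_sub_cancel, hN,
      coeff_add, coeff_add]
    congr 1
    · congr 1
      · rw [show 6 * m = 3 * (2 * m) by ring, coeff_pow_of_natDegree_le t1, c1]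
      · rw [show 6 * m = 2 * m + 2 * m + 2 * m by ring, coeff_mul_add_eq_of_natDegree_le n12 b2.le,
          coeff_mul_add_eq_of_natDegree_le t1 t2, c1, c2, ← b2, (hB.pow 2).coeff_natDegree, mul_one]
    · rw [show 6 * m = 2 * m + 4 * m by ring, coeff_mul_add_eq_of_natDegree_le t3 b4.le, c3, ← b4,
        (hB.pow 4).coeff_natDegree, mul_one]
  have hinv : f ∣ B ^ 4 * (-s) - 1 := ⟨-V, by linear_combination hs⟩
  have crt := lb_crt hf (hB.pow 4) hinv ⟨s, hs⟩ N
  have ex := exists_roots hf hsep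
  rw [hn] at ex
  obtain ⟨a, σ, ha, hr, hσ, hsg⟩ := ex
  have hfm : f.map (algebraMap k (AlgebraicClosure k)) = ∏ j, (X - C (a j)) := by
    refine eq_of_monic_of_dvd_of_natDegree_le (monic_prod_of_monic _ _ fun j _ => monic_X_sub_C _)
      (hf.map _) (Finset.prod_dvd_of_coprime (fun i _ j _ hij => ?_) fun j _ => dvd_iff_isRoot.2 (hr j))
      ?_
    · exact isCoprime_X_sub_C_of_isUnit_sub (sub_ne_zero.2 (ha.ne hij)).isUnit
    · rw [natDegree_map, hn, natDegree_prod_of_monic _ _ fun j _ => monic_X_sub_C _]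
      simp
  obtain ⟨h0, hβ⟩ := lb_beta ha (fun l => (hasseDeriv l f).map (algebraMap k _)) fun l => by
    rw [← hfm]; ext j; simp [hasseDeriv_coeff]
  have tr : algebraMap k (AlgebraicClosure k) (tau f (N * -s)) =
      ∑ i, ((N * B ^ 2 * s ^ 2).map (algebraMap k (AlgebraicClosure k))).eval (a i) := by
    rw [← tau_nodal, ← hfm, derivative_map, ← Polynomial.map_mul, ← tau_map _ hf, hd]
    congr 1
    exact tau_congr hf (lb_dvd hinv hinv (N * s) 0 0 (by ring))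
  have key : (∑ i, ∑ j ∈ Ioi i, a i / (a i + a j)) ^ 2 + ∑ i, ∑ j ∈ Ioi i, a i / (a i + a j) =
      algebraMap k _ ((∑ i : Fin (2 * m + 1), ∑ _j ∈ Ioi i, (1 : k)) ^ 2 + tau f (N * -s)) := by
    rw [hβ, map_add, tr]
    simp only [map_pow, map_sum, map_one]
    congr 1
    refine sum_congr rfl fun i _ => ?_
    have e0 := h0 i
    have e1 := congrArg (fun P => (P.map (algebraMap k (AlgebraicClosure k))).eval (a i)) hs
    simp only [H1, hN, Polynomial.map_mul, Polynomial.map_pow, Polynomial.map_add,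
      Polynomial.map_sub, Polynomial.map_one, map_X, eval_mul, eval_pow, eval_add, eval_sub,
      eval_one, eval_X, hr i, zero_mul] at e0 e1 ⊢
    rw [div_eq_iff (pow_ne_zero 3 e0)]
    generalize (B.map (algebraMap k (AlgebraicClosure k))).eval (a i) = β at *
    generalize (s.map (algebraMap k (AlgebraicClosure k))).eval (a i) = ς at *
    generalize ((hasseDeriv 2 f).map (algebraMap k (AlgebraicClosure k))).eval (a i) = η₂
    generalize ((hasseDeriv 3 f).map (algebraMap k (AlgebraicClosure k))).eval (a i) = η₃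
    generalize ((hasseDeriv 4 f).map (algebraMap k (AlgebraicClosure k))).eval (a i) = η₄
    linear_combination (a i ^ 3 * (η₂ ^ 3 + η₂ * η₃ * β ^ 2 + η₄ * β ^ 4) * (β ^ 4 * ς - 1)) * e1
  have hγ : MP_2033ac_nt.frob k (∑ i, ∑ j ∈ Ioi i, a i / (a i + a j)) =
      ∑ i, ∑ j ∈ Ioi i, a i / (a i + a j) + if Equiv.Perm.sign σ = 1 then 0 else 1 := by
    rw [← lb_perm ha σ]
    simp only [map_sum, map_div₀, map_add, hσ]
  have fin := lb_psi key hγ
  rw [hsg, Odd.neg_one_pow ⟨m, rfl⟩] at fin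
  rw [← top, crt, add_assoc, add_assoc, CharTwo.add_self_eq_zero, add_zero, fin]
  ring

theorem lam_eq (m : ℕ) : ∃ c : ℝ, |c| = 1 ∧ ∀ p D A U G U' G' : k[X], p.Monic → D.Monic →
    (p * D).natDegree = m → A.natDegree ≤ m → p ^ 4 ∣ A * U - 1 → p ^ 4 ∣ D * G - 1 →
    D ^ 4 ∣ A * U' - 1 → D ^ 4 ∣ p * G' - 1 →
    lam (A ^ 2 + X * (p * D) ^ 2) = c * psi (vv p (p * D) A U G) * psi (vv D (p * D) A U' G') := by
  obtain ⟨c, hc⟩ := lb_berl (k := k) m
  refine ⟨-psi c, ?_, fun p D A U G U' G' hp hD hm hA h1 h2 h3 h4 => ?_⟩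
  · unfold psi
    split_ifs <;> simp
  have cop : ∀ {x y z : k[X]}, x ^ 4 ∣ y * z - 1 → IsCoprime y x := fun {x y z} ⟨s, hs⟩ =>
    ⟨z, -(x ^ 3 * s), by linear_combination hs⟩
  have c1 : IsCoprime (A ^ 2 + X * (p * D) ^ 2) ((p * D) ^ 4) := by
    refine IsCoprime.pow_right ?_
    rw [sq (p * D), ← mul_assoc]
    exact (((cop h1).mul_right (cop h3)).pow_left).add_mul_right_left _
  obtain ⟨V, s, hs⟩ := c1
  have hV : (p * D) ^ 4 ∣ (A ^ 2 + X * (p * D) ^ 2) * V - 1 := ⟨-s, by linear_combination hs⟩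
  have pw : ∀ {x y z : k[X]}, x ^ 4 ∣ y * z - 1 → x ^ 4 ∣ y ^ 4 * z ^ 4 - 1 := fun {x y z} h => by
    rw [← mul_pow]
    exact h.trans (by simpa using sub_dvd_pow_sub_pow (y * z) 1 4)
  have l1 := lb_local (X ^ 3 * hasseDeriv 4 (A ^ 2 + X * (p * D) ^ 2)) hp h1 h2
    ((pow_dvd_pow_of_dvd (dvd_mul_right p D) 4).trans hV)
  have l2 := lb_local (X ^ 3 * hasseDeriv 4 (A ^ 2 + X * (p * D) ^ 2)) hD h3 h4 (V := V)
    (by rw [mul_comm D p]; exact (pow_dvd_pow_of_dvd (dvd_mul_left D p) 4).trans hV)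
  rw [mul_comm D p] at l2
  rw [hc A (p * D) V (hp.mul hD) hm hA hV, ← l1, ← l2]
  generalize (_ + _ + X ^ 3 * hasseDeriv 4 (A ^ 2 + X * (p * D) ^ 2) * (p * D) ^ 4) * V = N
  rw [mul_pow, lb_crt (hp.pow 4) (hD.pow 4) (pw h2) (pw h4), psi_add, psi_add]
  ring

end LbD

end Pool.Agent.MP_a4a062_nt.C2
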