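import Pool.Agent.MP_a4a062_nt.C2.P2

set_option autoImplicit false

open Polynomial Finset Filter
open scoped Classical BigOperators

noncomputable section
namespace Pool.Agent.MP_a4a062_nt.C2

section
variable {k : Type*} [Field k] [Fintype k]
variable [CharP k 2]

theorem vv_congr {M B A U U' : k[X]} (G : k[X]) (hM : M.Monic) (hU : M ^ 4 ∣ U - U') :
    vv M B A U G = vv M B A U' G := by
  have h : ∀ (j n : ℕ) (P Q : k[X]), j ≤ 4 → M ^ j ∣ P * U ^ n * Q - P * U' ^ n * Q :=
    fun j n P Q hj => by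
      rw [← sub_mul, ← mul_sub]
      exact (((pow_dvd_pow M hj).trans (hU.trans (sub_dvd_pow_sub_pow U U' n))).mul_left P).mul_right Q
  unfold vv
  congr 1
  · congr 1
    · congr 1
      exact tau_congr hM (by simpa only [pow_one] using h 1 1 _ G (by omega))
    · exact tau_congr (hM.pow 4) (by simpa only [mul_one] using h 4 2 _ 1 le_rfl)
  · exact tau_congr (hM.pow 2) (by simpa only [mul_one] using h 2 4 _ 1 (by omega))

theorem a1_pow {G R : Type*} [AddCommGroup G] [CommRing R] {n : ℕ} {F : G → R} (h : PDeg n F)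
    (j : ℕ) : PDeg (n * j) fun x => F x ^ j := by
  induction j with
  | zero => simpa only [pow_zero] using PDeg.const _ (1 : R)
  | succ j ih => simpa only [pow_succ, Nat.mul_succ] using ih.mul h

theorem a1_div {R : Type*} [CommRing R] {M : R[X]} (hM : M.Monic) (a b : R[X]) :
    (a + b) /ₘ M = a /ₘ M + b /ₘ M :=
  hM.isRegular.left (by
    have h := modByMonic_add_div (a + b) M
    rw [add_modByMonic] at h
    change M * _ = M * _
    linear_combination h - modByMonic_add_div a M - modByMonic_add_div b M)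

theorem vv_pdeg {M : k[X]} (B A U G : k[X]) (hM : M.Monic) (hU : M ^ 4 ∣ A * U - 1) :
    ∃ F : k[X] → k, PDeg 18 F ∧ ∀ y U', M ^ 4 ∣ (A + M * y) * U' - 1 →
      vv M B (A + M * y) U' G = F y := by
  have c : ∀ P : k[X], PDeg 0 fun _ : k[X] => P := PDeg.const 0
  have ht : PDeg 1 fun y : k[X] => -(U * M) * y := (c _).mul PDeg.id
  have hA : PDeg 1 fun y : k[X] => A + M * y := (PDeg.const 1 A).add ((c M).mul PDeg.id)
  have hD : PDeg 1 fun y : k[X] => derivative (A + M * y) :=
    hA.map derivative fun _ _ => derivative_add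
  have hV : PDeg 3 fun y : k[X] =>
      U * (1 + -(U * M) * y + (-(U * M) * y) ^ 2 + (-(U * M) * y) ^ 3) :=
    (c U).mul ((((PDeg.const 3 1).add (ht.mono (by omega))).add ((a1_pow ht 2).mono (by omega))).add
      (a1_pow ht 3))
  have hN : PDeg 6 fun y : k[X] =>
      ((A + M * y) * derivative (A + M * y) + X * B * derivative B) ^ 3 :=
    a1_pow ((hA.mul hD).add (PDeg.const 2 _)) 3
  refine ⟨fun y => vv M B (A + M * y)
    (U * (1 + -(U * M) * y + (-(U * M) * y) ^ 2 + (-(U * M) * y) ^ 3)) G, ?_, fun y U' h => ?_⟩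
  · exact ((((((hD.mul (c G)).map (· /ₘ M) fun _ _ => a1_div hM _ _).mul
      ((hD.mul (c G)).map (· %ₘ M) fun _ _ => add_modByMonic _ _)).map _ (tau_add M)).mono
        (by omega)).add (((((((c X).mul hD).mul (c _)).mul hV).mul (c G)).map _ (tau_add M)).mono
          (by omega))).add ((((hN.mul (c _)).mul (a1_pow hV 2)).map _ (tau_add _)).mono
            (by omega)) |>.add (((((c X).mul hN).mul (c _)).mul (a1_pow hV 4)).map _ (tau_add _))
  · refine vv_congr G hM ?_
    obtain ⟨a, ha⟩ := hU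
    obtain ⟨b, hb⟩ := h
    refine ⟨U * (1 + -(U * M) * y + (-(U * M) * y) ^ 2 + (-(U * M) * y) ^ 3) * b -
      U' * (a * (1 + -(U * M) * y + (-(U * M) * y) ^ 2 + (-(U * M) * y) ^ 3) - (U * y) ^ 4), ?_⟩
    linear_combination (U * (1 + -(U * M) * y + (-(U * M) * y) ^ 2 + (-(U * M) * y) ^ 3)) * hb -
      U' * (1 + -(U * M) * y + (-(U * M) * y) ^ 2 + (-(U * M) * y) ^ 3) * ha

end

section A2
variable {k : Type*} [Field k] [Fintype k] [CharP k 2]

omit [Fintype k] in
theorem a2_two : (2 : k[X]) = 0 := by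
  have h : (2 : k) = 0 := CharTwo.two_eq_zero
  rw [← C_ofNat, h, C_0]

omit [Fintype k] in
theorem a2_sq_dvd {M x y : k[X]} (h : M ∣ x - y) : M ^ 2 ∣ x ^ 2 - y ^ 2 := by
  have e : x ^ 2 - y ^ 2 = (x - y) ^ 2 := by
    linear_combination (x * y - y ^ 2) * (a2_two (k := k))
  rw [e]; exact pow_dvd_pow_of_dvd h 2

omit [Fintype k] [CharP k 2] in
theorem a2_U {M A U t V : k[X]} (hU : M ^ 4 ∣ A * U - 1) (h : M ^ 4 ∣ (A + M * t) * V - 1) :
    M ∣ V - U := by
  have h1 : M ∣ A * U - 1 := (dvd_pow_self M (by norm_num)).trans hU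
  have h2 : M ∣ (A + M * t) * V - 1 := (dvd_pow_self M (by norm_num)).trans h
  have e : V - U = -V * (A * U - 1) + U * ((A + M * t) * V - 1) - M * (t * U * V) := by ring
  rw [e]
  exact dvd_sub (dvd_add (h1.mul_left _) (h2.mul_left _)) (dvd_mul_right _ _)

omit [Fintype k] [CharP k 2] in
theorem a2_tau_zero (M : k[X]) : tau M 0 = 0 := by simp [tau]

omit [Fintype k] [CharP k 2] in
theorem a2_tau_one (P : k[X]) : tau 1 P = 0 := by simp [tau]

omit [Fintype k] [CharP k 2] in
theorem a2_mod_le {M : k[X]} (hM : M.Monic) (h1 : M ≠ 1) (x : k[X]) :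
    (x %ₘ M).natDegree ≤ M.natDegree - 1 :=
  Nat.le_sub_one_of_lt (natDegree_modByMonic_lt x hM h1)

omit [Fintype k] [CharP k 2] in
theorem a2_pos {M : k[X]} (hM : M.Monic) (h1 : M ≠ 1) : 0 < M.natDegree :=
  Nat.pos_of_ne_zero fun h => h1 (hM.natDegree_eq_zero.mp h)

omit [Fintype k] [CharP k 2] in
theorem a2_tau_le {M P : k[X]} (hM : M.Monic) (h1 : M ≠ 1)
    (h : P.natDegree ≤ 2 * M.natDegree - 1) : tau (M ^ 2) P = P.coeff (2 * M.natDegree - 1) := by
  have hp := a2_pos hM h1
  have hd : (M ^ 2).natDegree = 2 * M.natDegree := hM.natDegree_pow 2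
  rw [tau_of_lt (hM.pow 2), hd]
  apply degree_lt_degree
  omega

omit [Fintype k] [CharP k 2] in
theorem a2_polar {M : k[X]} (hM : M.Monic) (x y : k[X]) :
    tau M ((x + y) /ₘ M * ((x + y) %ₘ M)) =
      tau M (x /ₘ M * (x %ₘ M)) + tau M (y /ₘ M * (y %ₘ M)) + tau (M ^ 2) (x * y) := by
  by_cases h1 : M = 1
  · subst h1; simp [a2_tau_one]
  have hp := a2_pos hM h1
  have hx := modByMonic_add_div x M
  have hy := modByMonic_add_div y M
  have hxy := modByMonic_add_div (x + y) M
  have hmod : (x + y) %ₘ M = x %ₘ M + y %ₘ M := add_modByMonic x y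
  have hdiv : (x + y) /ₘ M = x /ₘ M + y /ₘ M := by
    apply mul_left_cancel₀ hM.ne_zero
    rw [hmod] at hxy
    linear_combination hxy - hx - hy
  have hr : tau (M ^ 2) (x %ₘ M * (y %ₘ M)) = 0 := by
    have h2 : (x %ₘ M * (y %ₘ M)).natDegree ≤ (M.natDegree - 1) + (M.natDegree - 1) :=
      natDegree_mul_le.trans (add_le_add (a2_mod_le hM h1 x) (a2_mod_le hM h1 y))
    rw [a2_tau_le hM h1 (by omega)]
    exact coeff_eq_zero_of_natDegree_lt (by omega)
  have e : tau (M ^ 2) (x * y) =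
      tau (M ^ 2) ((x /ₘ M * (y %ₘ M) + y /ₘ M * (x %ₘ M)) * M + x %ₘ M * (y %ₘ M)) := by
    apply tau_congr (hM.pow 2)
    refine ⟨x /ₘ M * (y /ₘ M), ?_⟩
    linear_combination (-y) * hx - (x %ₘ M + M * (x /ₘ M)) * hy
  rw [e, tau_add, hr, pow_two, tau_mul hM hM, hmod, hdiv, add_zero, ← tau_add, ← tau_add]
  congr 1; ring

omit [Fintype k] in
theorem a2_X_sq {M : k[X]} (hM : M.Monic) (S : k[X]) :
    tau (M ^ 2) (X * S ^ 2) = tau M S ^ 2 := by
  by_cases h1 : M = 1
  · subst h1; simp [a2_tau_one]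
  have hp := a2_pos hM h1
  have hr := a2_mod_le hM h1 S
  have hd : M ∣ S - S %ₘ M := ⟨S /ₘ M, by linear_combination -(modByMonic_add_div S M)⟩
  have e : tau (M ^ 2) (X * S ^ 2) = tau (M ^ 2) (X * (S %ₘ M) ^ 2) := by
    apply tau_congr (hM.pow 2)
    rw [← mul_sub]
    exact (a2_sq_dvd hd).mul_left _
  have h2 : (X * (S %ₘ M) ^ 2).natDegree ≤ 2 * M.natDegree - 1 := by
    refine natDegree_mul_le.trans ?_
    have h3 : ((S %ₘ M) ^ 2).natDegree ≤ 2 * (S %ₘ M).natDegree := natDegree_pow_le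
    have h4 : (X : k[X]).natDegree ≤ 1 := natDegree_X_le
    omega
  rw [e, a2_tau_le hM h1 h2]
  have h5 : 2 * M.natDegree - 1 = (M.natDegree - 1 + (M.natDegree - 1)) + 1 := by omega
  rw [h5, coeff_X_mul, pow_two, coeff_mul_add_eq_of_natDegree_le hr hr, tau, pow_two]

theorem a2_deriv_sq (P : k[X]) : ∃ a b : k[X], P = a ^ 2 + X * b ^ 2 ∧ derivative P = b ^ 2 := by
  obtain ⟨a, b, h, -⟩ := exists_ab P
  refine ⟨a, b, h, ?_⟩
  rw [h]
  simp only [derivative_add, derivative_mul, derivative_X, pow_two]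
  linear_combination (a * derivative a + X * b * derivative b) * (a2_two (k := k))

theorem a2_dd (P : k[X]) : derivative (derivative P) = 0 := by
  obtain ⟨a, b, -, h⟩ := a2_deriv_sq P
  rw [h]
  simp only [derivative_mul, pow_two]
  linear_combination (b * derivative b) * (a2_two (k := k))

theorem a2_cartier {M : k[X]} (hM : M.Monic) {P S : k[X]} (h : derivative P = S ^ 2) (Y : k[X]) :
    tau (M ^ 2) (P * Y ^ 2) = tau M (S * Y) ^ 2 := by
  obtain ⟨a, b, hP, hb⟩ := a2_deriv_sq P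
  have e : P * Y ^ 2 = (a * Y) ^ 2 + X * (S * Y) ^ 2 := by
    rw [hb] at h
    rw [hP]
    linear_combination X * Y ^ 2 * h
  rw [e, tau_add, tau_sq_sq hM, zero_add, a2_X_sq hM]

/-- The third term. -/
theorem a2_T3 {M B A U β t V : k[X]} (G : k[X]) (hM : M.Monic) (hB : M ∣ B)
    (hβ : derivative (X * B * derivative B) = β ^ 2) (hU : M ^ 4 ∣ A * U - 1)
    (h : M ^ 4 ∣ (A + M * t) * V - 1) :
    tau (M ^ 4) (((A + M * t) * derivative (A + M * t) + X * B * derivative B) ^ 3 * G ^ 4 * V ^ 2)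
      = tau (M ^ 2) ((derivative (A + M * t) + β) *
          (derivative (A + M * t) + X * B * derivative B * U) * G ^ 2) ^ 2 := by
  have hV := a2_U hU h
  generalize A + M * t = A₁ at h ⊢
  have hN : derivative (A₁ * derivative A₁ + X * B * derivative B) = (derivative A₁ + β) ^ 2 := by
    rw [derivative_add, hβ, derivative_mul, a2_dd]
    linear_combination (-(derivative A₁ * β)) * (a2_two (k := k))
  have e1 : (A₁ * derivative A₁ + X * B * derivative B) ^ 3 * G ^ 4 * V ^ 2 =
      (A₁ * derivative A₁ + X * B * derivative B) *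
        ((A₁ * derivative A₁ + X * B * derivative B) * V * G ^ 2) ^ 2 := by ring
  have e2 : M ^ 4 = (M ^ 2) ^ 2 := by ring
  rw [e1, e2, a2_cartier (hM.pow 2) hN]
  congr 1
  apply tau_congr (hM.pow 2)
  obtain ⟨c, hc⟩ := hB
  obtain ⟨d, hd⟩ := hV
  obtain ⟨e, he⟩ := h
  refine ⟨(derivative A₁ + β) * G ^ 2 * (derivative A₁ * M ^ 2 * e + X * c * derivative B * d), ?_⟩
  linear_combination (derivative A₁ + β) * G ^ 2 * derivative A₁ * he
    + (derivative A₁ + β) * G ^ 2 * X * B * derivative B * hd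
    + (derivative A₁ + β) * G ^ 2 * X * derivative B * M * d * hc

omit [Fintype k] in
/-- The fourth term. -/
theorem a2_T4 {M A U t V : k[X]} (Z G : k[X]) (hM : M.Monic) (hU : M ^ 4 ∣ A * U - 1)
    (h : M ^ 4 ∣ (A + M * t) * V - 1) :
    tau (M ^ 2) (X * ((A + M * t) * derivative (A + M * t) + Z) ^ 3 * G ^ 2 * V ^ 4)
      = tau (M ^ 2) (X * G ^ 2 * U ^ 4 *
          (((A * derivative A + Z) + A * derivative M * t) ^ 2 *
            ((A * derivative A + Z) + derivative (A * M * t) + M * derivative M * t ^ 2))) := by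
  have hV := a2_U hU h
  have h4 : M ^ 2 ∣ V ^ 4 - U ^ 4 := by
    have := a2_sq_dvd hV
    have e : V ^ 4 - U ^ 4 = (V ^ 2 - U ^ 2) * (V ^ 2 + U ^ 2) := by ring
    rw [e]; exact this.mul_right _
  set N := (A + M * t) * derivative (A + M * t) + Z with hN
  set N₁ := (A * derivative A + Z) + A * derivative M * t with hN₁
  set N₂ := (A * derivative A + Z) + derivative (A * M * t) + M * derivative M * t ^ 2 with hN₂
  have h1 : M ∣ N - N₁ := by
    refine ⟨A * derivative t + t * derivative (A + M * t), ?_⟩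
    simp only [hN, hN₁, derivative_add, derivative_mul]; ring
  have h2 : M ^ 2 ∣ N - N₂ := by
    refine ⟨t * derivative t, ?_⟩
    simp only [hN, hN₂, derivative_add, derivative_mul]; ring
  have h3 := a2_sq_dvd h1
  apply tau_congr (hM.pow 2)
  have e : X * N ^ 3 * G ^ 2 * V ^ 4 - X * G ^ 2 * U ^ 4 * (N₁ ^ 2 * N₂) =
      X * G ^ 2 * N ^ 3 * (V ^ 4 - U ^ 4) + X * G ^ 2 * U ^ 4 * N * (N ^ 2 - N₁ ^ 2)
        + X * G ^ 2 * U ^ 4 * N₁ ^ 2 * (N - N₂) := by ring
  rw [e]
  exact dvd_add (dvd_add (h4.mul_left _) (h3.mul_left _)) (h2.mul_left _)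

omit [Fintype k] in
theorem a2_parts {M : k[X]} (hM : M.Monic) (W P : k[X]) :
    tau (M ^ 2) (X * W ^ 2 * derivative (P * M)) = tau M (W ^ 2 * P) := by
  have h0 := tau_sq_mul_deriv hM W (X * (P * M))
  have e : X * W ^ 2 * derivative (P * M) =
      W ^ 2 * derivative (X * (P * M)) + W ^ 2 * P * M := by
    rw [derivative_mul (f := X), derivative_X]
    linear_combination (-(W ^ 2 * P * M)) * (a2_two (k := k))
  rw [e, tau_add, h0, zero_add, pow_two M, tau_mul hM hM]

theorem vv_diff {M B A U U₁ U₂ U₃ y z : k[X]} (G : k[X]) (hM : M.Monic) (hp : Irreducible M)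
    (hB : M ∣ B) (hU : M ^ 4 ∣ A * U - 1) (h₁ : M ^ 4 ∣ (A + M * y) * U₁ - 1)
    (h₂ : M ^ 4 ∣ (A + M * z) * U₂ - 1) (h₃ : M ^ 4 ∣ (A + M * y + M * z) * U₃ - 1) :
    ∃ w : k, vv M B A U G + vv M B (A + M * y) U₁ G + vv M B (A + M * z) U₂ G
      + vv M B (A + M * y + M * z) U₃ G + (w ^ 2 + w) =
        tau M (derivative M ^ 2 * G ^ 2 * U * (y ^ 2 * z + y * z ^ 2)) := by
  refine ⟨0, ?_⟩
  have two : (2 : k) = 0 := CharTwo.two_eq_zero
  have tw := a2_two (k := k)
  have h₀ : M ^ 4 ∣ (A + M * 0) * U - 1 := by simpa using hU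
  have e₃ : A + M * y + M * z = A + M * (y + z) := by ring
  have h₃' : M ^ 4 ∣ (A + M * (y + z)) * U₃ - 1 := e₃ ▸ h₃
  -- first terms
  have T1 : tau M ((derivative A * G) /ₘ M * ((derivative A * G) %ₘ M))
      + tau M ((derivative (A + M * y) * G) /ₘ M * ((derivative (A + M * y) * G) %ₘ M))
      + tau M ((derivative (A + M * z) * G) /ₘ M * ((derivative (A + M * z) * G) %ₘ M))
      + tau M ((derivative (A + M * y + M * z) * G) /ₘ M *
          ((derivative (A + M * y + M * z) * G) %ₘ M)) = 0 := by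
    have p1 := a2_polar hM (derivative A * G) (derivative (M * z) * G)
    have p2 := a2_polar hM (derivative (A + M * y) * G) (derivative (M * z) * G)
    rw [← add_mul, ← derivative_add] at p1 p2
    obtain ⟨a, b, -, hb⟩ := a2_deriv_sq (M * y)
    have p3 := tau_sq_mul_deriv hM (G * b) (M * z)
    have p4 : tau (M ^ 2) (derivative (A + M * y) * G * (derivative (M * z) * G)) =
        tau (M ^ 2) (derivative A * G * (derivative (M * z) * G)) := by
      have : derivative (A + M * y) * G * (derivative (M * z) * G) =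
          derivative A * G * (derivative (M * z) * G) + (G * b) ^ 2 * derivative (M * z) := by
        rw [derivative_add, hb]; ring
      rw [this, tau_add, p3, add_zero]
    rw [p1, p2, p4]
    linear_combination (tau M ((derivative A * G) /ₘ M * ((derivative A * G) %ₘ M))
      + tau M ((derivative (A + M * y) * G) /ₘ M * ((derivative (A + M * y) * G) %ₘ M))
      + tau M ((derivative (M * z) * G) /ₘ M * ((derivative (M * z) * G) %ₘ M))
      + tau (M ^ 2) (derivative A * G * (derivative (M * z) * G))) * two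
  -- second terms
  have T2 : tau M (X * derivative A * derivative B * U * G)
      + tau M (X * derivative (A + M * y) * derivative B * U₁ * G)
      + tau M (X * derivative (A + M * z) * derivative B * U₂ * G)
      + tau M (X * derivative (A + M * y + M * z) * derivative B * U₃ * G) = 0 := by
    have c : ∀ (P V : k[X]), M ∣ V - U → tau M (X * P * derivative B * V * G) =
        tau M (X * P * derivative B * U * G) := by
      intro P V hV
      apply tau_congr hM
      have : X * P * derivative B * V * G - X * P * derivative B * U * G =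
          X * P * derivative B * G * (V - U) := by ring
      rw [this]; exact hV.mul_left _
    rw [c _ _ (a2_U hU h₁), c _ _ (a2_U hU h₂), c _ _ (a2_U hU h₃'), ← tau_add, ← tau_add,
      ← tau_add, ← a2_tau_zero M]
    congr 1
    simp only [derivative_add]
    linear_combination (X * derivative B * U * G *
      (2 * derivative A + derivative (M * y) + derivative (M * z))) * tw
  -- third terms
  obtain ⟨-, β, -, hβ⟩ := a2_deriv_sq (X * B * derivative B)
  have t0 := a2_T3 G hM hB hβ hU h₀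
  have t1 := a2_T3 G hM hB hβ hU h₁
  have t2 := a2_T3 G hM hB hβ hU h₂
  have t3 := a2_T3 G hM hB hβ hU h₃'
  rw [mul_zero, add_zero] at t0
  rw [← e₃] at t3
  have T3 : tau (M ^ 2) ((derivative A + β) * (derivative A + X * B * derivative B * U) * G ^ 2)
      + tau (M ^ 2) ((derivative (A + M * y) + β) *
          (derivative (A + M * y) + X * B * derivative B * U) * G ^ 2)
      + tau (M ^ 2) ((derivative (A + M * z) + β) *
          (derivative (A + M * z) + X * B * derivative B * U) * G ^ 2)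
      + tau (M ^ 2) ((derivative (A + M * y + M * z) + β) *
          (derivative (A + M * y + M * z) + X * B * derivative B * U) * G ^ 2) = 0 := by
    rw [← tau_add, ← tau_add, ← tau_add, ← a2_tau_zero (M ^ 2)]
    congr 1
    simp only [derivative_add]
    generalize derivative A = a
    generalize derivative (M * y) = b
    generalize derivative (M * z) = c
    generalize X * B * derivative B * U = γ
    linear_combination (G ^ 2 * (2 * a ^ 2 + b ^ 2 + c ^ 2 + 2 * a * b + 2 * a * c + b * c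
      + (β + γ) * (2 * a + b + c) + 2 * β * γ)) * tw
  -- fourth terms
  have u0 := a2_T4 (X * B * derivative B) G hM hU h₀
  have u1 := a2_T4 (X * B * derivative B) G hM hU h₁
  have u2 := a2_T4 (X * B * derivative B) G hM hU h₂
  have u3 := a2_T4 (X * B * derivative B) G hM hU h₃'
  rw [mul_zero M, add_zero A] at u0
  rw [← e₃] at u3
  have hU1 : M ∣ A * U - 1 := (dvd_pow_self M (by norm_num)).trans hU
  have q : ∀ y z : k[X], tau (M ^ 2) (X * (G * U ^ 2 * A * derivative M * y) ^ 2 *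
      derivative (A * z * M)) = tau M (derivative M ^ 2 * G ^ 2 * U * (y ^ 2 * z)) := by
    intro y z
    rw [a2_parts hM]
    apply tau_congr hM
    have : (G * U ^ 2 * A * derivative M * y) ^ 2 * (A * z)
        - derivative M ^ 2 * G ^ 2 * U * (y ^ 2 * z) =
        derivative M ^ 2 * G ^ 2 * U * (y ^ 2 * z) * ((A * U) ^ 2 + A * U + 1) * (A * U - 1) := by
      ring
    rw [this]; exact hU1.mul_left _
  have T4 : tau (M ^ 2) (X * (A * derivative A + X * B * derivative B) ^ 3 * G ^ 2 * U ^ 4)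
      + tau (M ^ 2) (X * ((A + M * y) * derivative (A + M * y) + X * B * derivative B) ^ 3
          * G ^ 2 * U₁ ^ 4)
      + tau (M ^ 2) (X * ((A + M * z) * derivative (A + M * z) + X * B * derivative B) ^ 3
          * G ^ 2 * U₂ ^ 4)
      + tau (M ^ 2) (X * ((A + M * y + M * z) * derivative (A + M * y + M * z)
          + X * B * derivative B) ^ 3 * G ^ 2 * U₃ ^ 4) =
      tau M (derivative M ^ 2 * G ^ 2 * U * (y ^ 2 * z + y * z ^ 2)) := by
    have e : derivative M ^ 2 * G ^ 2 * U * (y ^ 2 * z + y * z ^ 2) =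
        derivative M ^ 2 * G ^ 2 * U * (y ^ 2 * z) + derivative M ^ 2 * G ^ 2 * U * (z ^ 2 * y) := by
      ring
    rw [u0, u1, u2, u3, e, tau_add M, ← q, ← q, ← tau_add, ← tau_add, ← tau_add, ← tau_add]
    congr 1
    have d0 : derivative (A * M * 0) = 0 := by simp
    have dy : derivative (A * y * M) = derivative (A * M * y) := by rw [mul_right_comm]
    have dz : derivative (A * z * M) = derivative (A * M * z) := by rw [mul_right_comm]
    have dyz : derivative (A * M * (y + z)) = derivative (A * M * y) + derivative (A * M * z) := by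
      rw [mul_add, derivative_add]
    rw [d0, dy, dz, dyz]
    generalize derivative (A * M * y) = b
    generalize derivative (A * M * z) = c
    generalize A * derivative A + X * B * derivative B = N
    generalize derivative M = m
    rw [← sub_eq_zero]
    ring_nf
    reduce_mod_char!
  simp only [vv]
  rw [t0, t1, t2, t3]
  generalize tau (M ^ 2) ((derivative A + β) * (derivative A + X * B * derivative B * U) * G ^ 2)
    = r0 at T3 ⊢
  generalize tau (M ^ 2) ((derivative (A + M * y) + β) *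
          (derivative (A + M * y) + X * B * derivative B * U) * G ^ 2) = r1 at T3 ⊢
  generalize tau (M ^ 2) ((derivative (A + M * z) + β) *
          (derivative (A + M * z) + X * B * derivative B * U) * G ^ 2) = r2 at T3 ⊢
  generalize tau (M ^ 2) ((derivative (A + M * y + M * z) + β) *
          (derivative (A + M * y + M * z) + X * B * derivative B * U) * G ^ 2) = r3 at T3 ⊢
  linear_combination T1 + T2 + T4 + (r0 + r1 + r2 + r3) * T3
    - (r0 * r1 + r0 * r2 + r0 * r3 + r1 * r2 + r1 * r3 + r2 * r3) * two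

end A2

section
variable {k : Type*} [Field k] [Fintype k]

omit [Fintype k] in
theorem loc_inv (M : k[X]) : ∃ u : k[X] → k[X], ∀ A, IsCoprime A M → M ^ 4 ∣ A * u A - 1 := by
  have h : ∀ A : k[X], ∃ U, IsCoprime A M → M ^ 4 ∣ A * U - 1 := fun A => by
    by_cases hA : IsCoprime A M
    · obtain ⟨a, b, hab⟩ := hA.pow_right (n := 4)
      exact ⟨a, fun _ => ⟨-b, by linear_combination hab⟩⟩
    · exact ⟨0, fun h => absurd h hA⟩
  exact ⟨fun A => (h A).choose, fun A => (h A).choose_spec⟩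

theorem loc_psi_sq (c : k) : psi c * psi c = 1 := by
  unfold psi
  split_ifs <;> norm_num

theorem loc_psi_as (w : k) : psi (w ^ 2 + w) = 1 := if_pos ⟨w, rfl⟩

theorem loc_psi_zero : psi (0 : k) = 1 := if_pos ⟨0, by simp⟩

omit [Fintype k] in
theorem loc_cop {M A : k[X]} (s : k[X]) : IsCoprime (A + M * s) M ↔ IsCoprime A M :=
  IsCoprime.add_mul_left_left_iff

variable [CharP k 2]

theorem loc_kill {M : k[X]} (hM : M.Monic) (B G : k[X]) {u : k[X] → k[X]}
    (hu : ∀ A, IsCoprime A M → M ^ 4 ∣ A * u A - 1) {c e : ℝ} (hc : |c| ≤ 1) (he : |e| ≤ 1) :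
    Kill 18 M fun A => if IsCoprime A M then c * psi (vv M B A (u A) G) else e := by
  intro A
  by_cases hA : IsCoprime A M
  · obtain ⟨F, hF, h⟩ := vv_pdeg B A (u A) G hM (hu A hA)
    refine ⟨c, F, hc, hF, fun s => ?_⟩
    have h1 := (loc_cop s).2 hA
    simp only [if_pos h1, h s _ (hu _ h1)]
  · refine ⟨e, fun _ => 0, he, PDeg.const _ _, fun s => ?_⟩
    simp only [if_neg (mt (loc_cop s).1 hA), loc_psi_zero, mul_one]

theorem loc {p r : k[X]} (hp : p.Monic) (hi : Irreducible p) (hr : r.Monic) (h : ¬ p ∣ r) :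
    ∃ Φ Θ : k[X] → ℝ, (∀ A, Φ A * Φ A = 1) ∧ Kill 18 p Φ ∧ Kill 18 r Θ ∧
      (∀ A, A.natDegree ≤ (p * r).natDegree → IsCoprime A (p * r) →
        lam (A ^ 2 + X * (p * r) ^ 2) = Φ A * Θ A) ∧
      ∀ A y z U G, p ∣ A * U - 1 → p ∣ r * G - 1 →
        Φ A * Φ (A + p * y) * Φ (A + p * z) * Φ (A + p * y + p * z) =
          psi (tau p (derivative p ^ 2 * G ^ 2 * U * (y ^ 2 * z + y * z ^ 2))) := by
  obtain ⟨c, hc, H⟩ := lam_eq (k := k) (p * r).natDegree
  obtain ⟨u, hu⟩ := loc_inv p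
  obtain ⟨v, hv⟩ := loc_inv r
  have hpr : IsCoprime p r := hi.coprime_iff_not_dvd.2 h
  have hG := hu r hpr.symm
  refine ⟨fun A => if IsCoprime A p then 1 * psi (vv p (p * r) A (u A) (u r)) else 1,
    fun A => if IsCoprime A r then c * psi (vv r (p * r) A (v A) (v p)) else 0, fun A => ?_,
    loc_kill hp _ _ hu (by simp) (by simp), loc_kill hr _ _ hv hc.le (by simp),
    fun A hA hco => ?_, fun A y z U G hU hG' => ?_⟩
  · beta_reduce
    split_ifs
    · rw [one_mul, loc_psi_sq]
    · rw [one_mul]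
  · have h1 := hco.of_mul_right_left
    have h2 := hco.of_mul_right_right
    simp only [if_pos h1, if_pos h2]
    rw [H p r A (u A) (u r) (v A) (v p) hp hr rfl hA (hu A h1) hG (hv A h2) (hv p hpr)]
    ring
  · have h0 : IsCoprime A p := by
      obtain ⟨t, ht⟩ := hU
      exact ⟨U, -t, by linear_combination ht⟩
    have h1 := (loc_cop y).2 h0
    have h2 := (loc_cop z).2 h0
    have h3 := (loc_cop z).2 h1
    obtain ⟨w, hw⟩ := vv_diff (B := p * r) (u r) hp hi (dvd_mul_right _ _) (hu _ h0) (hu _ h1)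
      (hu _ h2) (hu _ h3)
    have p4 : p ∣ p ^ 4 := dvd_pow_self p (by norm_num)
    have e1 : p ∣ u A - U := by
      refine h0.symm.dvd_of_dvd_mul_left ?_
      have := dvd_sub (p4.trans (hu A h0)) hU
      rwa [show A * u A - 1 - (A * U - 1) = A * (u A - U) by ring] at this
    have e2 : p ∣ u r - G := by
      refine hpr.dvd_of_dvd_mul_left ?_
      have := dvd_sub (p4.trans hG) hG'
      rwa [show r * u r - 1 - (r * G - 1) = r * (u r - G) by ring] at this
    have e3 : tau p (derivative p ^ 2 * u r ^ 2 * u A * (y ^ 2 * z + y * z ^ 2)) =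
        tau p (derivative p ^ 2 * G ^ 2 * U * (y ^ 2 * z + y * z ^ 2)) := by
      refine tau_congr hp ?_
      obtain ⟨a, ha⟩ := e1
      obtain ⟨b, hb⟩ := e2
      exact ⟨derivative p ^ 2 * (y ^ 2 * z + y * z ^ 2) * (u r ^ 2 * a + U * (u r + G) * b), by
        linear_combination derivative p ^ 2 * (y ^ 2 * z + y * z ^ 2) * u r ^ 2 * ha +
          derivative p ^ 2 * (y ^ 2 * z + y * z ^ 2) * U * (u r + G) * hb⟩
    simp only [if_pos h0, if_pos h1, if_pos h2, if_pos h3, one_mul]
    rw [← e3, ← hw, psi_add, psi_add, psi_add, psi_add, loc_psi_as, mul_one]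

end

section
variable {k : Type*} [Field k] [Fintype k]

omit [Fintype k] in
theorem locd_ne (A : k[X]) {B : k[X]} (hB : B ≠ 0) : A ^ 2 + X * B ^ 2 ≠ 0 := by
  intro h
  have h1 : A ^ 2 = -(X * B ^ 2) := eq_neg_of_add_eq_zero_left h
  have h2 := congrArg natDegree h1
  rw [natDegree_neg, natDegree_pow, natDegree_mul X_ne_zero (pow_ne_zero _ hB), natDegree_X,
    natDegree_pow] at h2
  omega

omit [Fintype k] in
theorem locd_dec {r : k[X]} (hr : r.Monic) (D A : k[X]) : ∃ d A' D' r' : k[X],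
    d = gcd A (gcd r D) ∧ d.Monic ∧ A = d * A' ∧ D = d * D' ∧ r = d * r' ∧ r'.Monic ∧
      r / d = r' ∧ ∀ t, (d * t) / d = t := by
  have hg : gcd r D ≠ 0 := fun h0 => hr.ne_zero ((gcd_eq_zero_iff _ _).1 h0).1
  have hd : gcd A (gcd r D) ≠ 0 := fun h0 => hg ((gcd_eq_zero_iff _ _).1 h0).2
  have hm : (gcd A (gcd r D)).Monic := by
    rw [← _root_.normalize_gcd]; exact monic_normalize hd
  obtain ⟨A', hA⟩ := gcd_dvd_left A (gcd r D)
  obtain ⟨D', hD⟩ := (gcd_dvd_right A (gcd r D)).trans (gcd_dvd_right r D)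
  obtain ⟨r', hr'⟩ := (gcd_dvd_right A (gcd r D)).trans (gcd_dvd_left r D)
  refine ⟨_, A', D', r', rfl, hm, hA, hD, hr', hm.of_mul_monic_left (hr' ▸ hr), ?_,
    fun t => mul_div_cancel_left₀ t hd⟩
  generalize gcd A (gcd r D) = d at hd hr'
  rw [hr', mul_div_cancel_left₀ _ hd]

omit [Fintype k] in
theorem locd_inv (r D A s : k[X]) : gcd (A + D * s) (gcd r D) = gcd A (gcd r D) :=
  gcd_eq_of_dvd_sub_left (by
    rw [add_sub_cancel_left]; exact (gcd_dvd_right r D).mul_right s)

variable [CharP k 2]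

theorem locd {p r D : k[X]} (hp : p.Monic) (hi : Irreducible p) (hr : r.Monic) (h : ¬ p ∣ r)
    (hD : ¬ p ∣ D) : ∃ (Φ Θ : k[X] → ℝ) (κ : k[X]), (∀ A, Φ A * Φ A = 1) ∧ Kill 18 (D * p) Φ ∧
      Kill 18 (D * r) Θ ∧ ¬ p ∣ κ ∧
      (∀ A, A.natDegree ≤ (p * r).natDegree → (∀ d, d ∣ A → d ∣ p * r → d ∣ D) →
        lam (A ^ 2 + X * (p * r) ^ 2) = Φ A * Θ A) ∧
      ∀ A y z U, p ∣ A * U - 1 →
        Φ A * Φ (A + D * p * y) * Φ (A + D * p * z) * Φ (A + D * p * y + D * p * z) =
          psi (tau p (κ * U * (y ^ 2 * z + y * z ^ 2))) := by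
  have hall : ∀ r' : k[X], ∃ Φ Θ : k[X] → ℝ, r'.Monic → ¬ p ∣ r' →
      (∀ A, Φ A * Φ A = 1) ∧ Kill 18 p Φ ∧ Kill 18 r' Θ ∧
      (∀ A, A.natDegree ≤ (p * r').natDegree → IsCoprime A (p * r') →
        lam (A ^ 2 + X * (p * r') ^ 2) = Φ A * Θ A) ∧
      ∀ A y z U G, p ∣ A * U - 1 → p ∣ r' * G - 1 →
        Φ A * Φ (A + p * y) * Φ (A + p * z) * Φ (A + p * y + p * z) =
          psi (tau p (derivative p ^ 2 * G ^ 2 * U * (y ^ 2 * z + y * z ^ 2))) := by
    intro r'
    by_cases hc : r'.Monic ∧ ¬ p ∣ r'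
    · obtain ⟨Φ, Θ, hΦ⟩ := loc hp hi hc.1 hc.2
      exact ⟨Φ, Θ, fun _ _ => hΦ⟩
    · exact ⟨0, 0, fun h1 h2 => absurd ⟨h1, h2⟩ hc⟩
  choose Φ₀ Θ₀ hloc using hall
  obtain ⟨G, hG⟩ : ∃ G, p ∣ r * G - 1 := by
    obtain ⟨a, b, hab⟩ := (hi.coprime_iff_not_dvd).2 h
    exact ⟨b, -a, by linear_combination hab⟩
  have hpp := hi.prime
  refine ⟨fun A => Φ₀ (r / gcd A (gcd r D)) (A / gcd A (gcd r D)),
    fun A => Θ₀ (r / gcd A (gcd r D)) (A / gcd A (gcd r D)),
    derivative p ^ 2 * G ^ 2 * D ^ 3, ?_, ?_, ?_, ?_, ?_, ?_⟩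
  · intro A
    obtain ⟨d, A', D', r', hd, -, hA, hD', hr', hm, hq, ht⟩ := locd_dec hr D A
    simp only [← hd, hq]
    exact (hloc r' hm fun h' => h (hr' ▸ h'.mul_left d)).1 _
  · intro A
    obtain ⟨d, A', D', r', hd, -, hA, hD', hr', hm, hq, ht⟩ := locd_dec hr D A
    obtain ⟨c, F, hc, hF, hs⟩ := (hloc r' hm fun h' => h (hr' ▸ h'.mul_left d)).2.1 A'
    refine ⟨c, fun s => F (D' * s), hc, hF.comp _ (fun a b => mul_add _ _ _), fun s => ?_⟩
    simp only [mul_assoc D p s, locd_inv, ← hd, hq]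
    rw [show A + D * (p * s) = d * (A' + p * (D' * s)) by rw [hA, hD']; ring, ht, hs]
  · intro A
    obtain ⟨d, A', D', r', hd, -, hA, hD', hr', hm, hq, ht⟩ := locd_dec hr D A
    obtain ⟨c, F, hc, hF, hs⟩ := (hloc r' hm fun h' => h (hr' ▸ h'.mul_left d)).2.2.1 A'
    refine ⟨c, fun s => F (D * s), hc, hF.comp _ (fun a b => mul_add _ _ _), fun s => ?_⟩
    simp only [mul_assoc D r s, locd_inv, ← hd, hq]
    rw [show A + D * (r * s) = d * (A' + r' * (D * s)) by rw [hA, hr']; ring, ht, hs]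
  · intro hk
    have hsep : IsCoprime p (derivative p) := PerfectField.separable_of_irreducible hi
    rcases hpp.dvd_or_dvd hk with h1 | h1
    · rcases hpp.dvd_or_dvd h1 with h2 | h2
      · exact hi.not_isUnit (hsep.isUnit_of_dvd' dvd_rfl (hpp.dvd_of_dvd_pow h2))
      · have h3 : p ∣ r * G := (hpp.dvd_of_dvd_pow h2).mul_left r
        have h4 : p ∣ 1 := by simpa using dvd_sub h3 hG
        exact hi.not_isUnit (isUnit_of_dvd_one h4)
    · exact hD (hpp.dvd_of_dvd_pow h1)
  · intro A hdeg hdiv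
    obtain ⟨d, A', D', r', hd, hdm, hA, hD', hr', hm, hq, ht⟩ := locd_dec hr D A
    simp only [← hd, hq]
    have hA' : A / d = A' := by rw [hA, ht]
    have hne := locd_ne A' (mul_ne_zero hp.ne_zero hm.ne_zero)
    have e1 : A ^ 2 + X * (p * r) ^ 2 = d * (d * (A' ^ 2 + X * (p * r') ^ 2)) := by
      rw [hA, hr']; ring
    rw [hA', e1, lam_mul hdm.ne_zero (mul_ne_zero hdm.ne_zero hne), lam_mul hdm.ne_zero hne,
      ← mul_assoc, lam_mul_self, one_mul]
    refine (hloc r' hm fun h' => h (hr' ▸ h'.mul_left d)).2.2.2.1 A' ?_ ?_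
    · by_cases h0 : A' = 0
      · simp [h0]
      · rw [hA, hr', natDegree_mul hdm.ne_zero h0, mul_left_comm,
          natDegree_mul hdm.ne_zero (mul_ne_zero hp.ne_zero hm.ne_zero)] at hdeg
        omega
    · refine IsRelPrime.isCoprime fun e h1 h2 => ?_
      have h3 : d * e ∣ A := hA ▸ mul_dvd_mul_left d h1
      have h4 : d * e ∣ p * r := by
        rw [hr', mul_left_comm]; exact mul_dvd_mul_left d h2
      have h5 : d * e ∣ D := hdiv _ h3 h4
      have h6 : IsCoprime p (d * e) := (hi.coprime_iff_not_dvd).2 fun h' => hD (h'.trans h5)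
      have h7 : d * e ∣ r := h6.symm.dvd_of_dvd_mul_left h4
      have h8 : d * e ∣ d * 1 := by
        rw [mul_one]
        conv_rhs => rw [hd]
        exact dvd_gcd h3 (dvd_gcd h7 h5)
      exact isUnit_of_dvd_one ((mul_dvd_mul_iff_left hdm.ne_zero).1 h8)
  · intro A y z U hU
    obtain ⟨d, A', D', r', hd, -, hA, hD', hr', hm, hq, ht⟩ := locd_dec hr D A
    have key := (hloc r' hm fun h' => h (hr' ▸ h'.mul_left d)).2.2.2.2 A' (D' * y) (D' * z)
      (d * U) (d * G) (by rw [show A' * (d * U) = A * U by rw [hA]; ring]; exact hU)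
      (by rw [show r' * (d * G) = r * G by rw [hr']; ring]; exact hG)
    have e3 : A + D * p * y + D * p * z = A + D * (p * y + p * z) := by ring
    rw [e3]
    simp only [mul_assoc D p, locd_inv, ← hd, hq]
    rw [show A + D * (p * y) = d * (A' + p * (D' * y)) by rw [hA, hD']; ring,
      show A + D * (p * z) = d * (A' + p * (D' * z)) by rw [hA, hD']; ring,
      show A + D * (p * y + p * z) = d * (A' + p * (D' * y) + p * (D' * z)) by
        rw [hA, hD']; ring, ht, ht, ht, show A / d = A' by rw [hA, ht], key]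
    exact congrArg (fun t => psi (tau p t)) (by rw [hD']; ring)

end

section RAD
variable {k : Type*} [Field k] [Fintype k] [CharP k 2]

omit [CharP k 2] in
theorem rad_psi (c : k) : psi c = 1 ∨ psi c = -1 := by
  unfold psi
  split_ifs <;> simp

theorem rad_key (χ : k → ℝ) (h1 : ∀ a b, χ (a + b) = χ a * χ b)
    (h3 : ∃ a, χ a = -1) {κ : k} (hκ : κ ≠ 0) :
    #{y : k | ∀ z, χ (κ * (y ^ 2 * z + y * z ^ 2)) = 1} ≤ 4 := by
  obtain ⟨a, ha⟩ := h3
  have A : ∀ t : k, t ≠ 0 → (∀ u, χ (t * (u ^ 2 + u)) = 1) → ∀ x, χ (t * x) = psi x := by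
    intro t ht h
    have B : ∀ x, psi x = 1 → χ (t * x) = 1 := fun x hx => by
      unfold psi at hx
      split_ifs at hx with c
      · obtain ⟨w, rfl⟩ := c
        exact h w
      · norm_num at hx
    intro x
    have e : t * (a / t) = a := by field_simp
    rcases rad_psi x with c | c
    · rw [c, B x c]
    · rcases rad_psi (a / t) with d | d
      · have := B _ d
        rw [e, ha] at this
        norm_num at this
      · have := B (x + a / t) (by rw [psi_add, c, d]; norm_num)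
        rw [mul_add, h1, e, ha] at this
        linarith
  have U : ∀ y : k, (∀ z, χ (κ * (y ^ 2 * z + y * z ^ 2)) = 1) →
      ∀ u, χ (κ * y ^ 3 * (u ^ 2 + u)) = 1 := fun y hy u => by
    rw [← hy (y * u)]
    congr 1
    ring
  by_cases c : ∃ y : k, y ≠ 0 ∧ ∀ z, χ (κ * (y ^ 2 * z + y * z ^ 2)) = 1
  · obtain ⟨y0, n0, h0⟩ := c
    refine (card_le_card (t := insert 0 (nthRoots 3 (y0 ^ 3)).toFinset) fun y hy => ?_).trans ?_
    · rw [mem_insert, Multiset.mem_toFinset, mem_nthRoots (by norm_num)]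
      by_contra hc
      push Not at hc
      have hy' := (mem_filter.1 hy).2
      have two : (2 : k) = 0 := CharTwo.two_eq_zero
      have t0 : κ * y ^ 3 + κ * y0 ^ 3 ≠ 0 := fun h => hc.2 (mul_left_cancel₀ hκ (by
        linear_combination h - κ * y0 ^ 3 * two))
      have e1 := A _ (mul_ne_zero hκ (pow_ne_zero 3 hc.1)) (U y hy') (a / (κ * y ^ 3 + κ * y0 ^ 3))
      have e2 := A _ (mul_ne_zero hκ (pow_ne_zero 3 n0)) (U y0 h0) (a / (κ * y ^ 3 + κ * y0 ^ 3))
      have e3 := h1 (κ * y ^ 3 * (a / (κ * y ^ 3 + κ * y0 ^ 3)))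
        (κ * y0 ^ 3 * (a / (κ * y ^ 3 + κ * y0 ^ 3)))
      rw [← add_mul, mul_div_cancel₀ _ t0, ha, e1, e2] at e3
      nlinarith [mul_self_nonneg (psi (a / (κ * y ^ 3 + κ * y0 ^ 3)))]
    · refine (card_insert_le _ _).trans ?_
      have := (Multiset.toFinset_card_le _).trans (card_nthRoots 3 (y0 ^ 3))
      omega
  · refine (card_le_card (t := {0}) fun y hy => ?_).trans (by simp)
    by_contra hc
    exact c ⟨y, by simpa using hc, (mem_filter.1 hy).2⟩

theorem rad_le {p κ : k[X]} (hp : p.Monic) (hi : Irreducible p) (hκ : ¬ p ∣ κ) :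
    𝔼 y ∈ box k p.natDegree, 𝔼 z ∈ box k p.natDegree,
      psi (tau p (κ * (y ^ 2 * z + y * z ^ 2))) ≤ 4 / qq k ^ p.natDegree := by
  have : Fact (Irreducible p) := ⟨hi⟩
  have : Module.Finite k (AdjoinRoot p) := (AdjoinRoot.powerBasis hp.ne_zero).finite
  have : Finite (AdjoinRoot p) := Module.finite_of_finite k
  let : Fintype (AdjoinRoot p) := Fintype.ofFinite _
  have : CharP (AdjoinRoot p) 2 := charP_of_injective_algebraMap (algebraMap k _).injective 2
  have two : (2 : k[X]) = 0 := CharTwo.two_eq_zero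
  have dp : p.degree = p.natDegree := degree_eq_natDegree hp.ne_zero
  set χ : AdjoinRoot p → ℝ := fun x => psi (tau p (AdjoinRoot.modByMonicHom hp x))
  have hχ : ∀ g, χ (AdjoinRoot.mk p g) = psi (tau p g) := fun g => by
    simp only [χ, AdjoinRoot.modByMonicHom_mk]
    rw [tau_congr (Q := g) hp ⟨-(g /ₘ p), by linear_combination modByMonic_add_div g p⟩]
  have key := rad_key χ (fun a b => by simp only [χ, map_add, tau_add, psi_add])
    (by
      obtain ⟨c, hc⟩ := exists_psi_neg (k := k)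
      refine ⟨AdjoinRoot.mk p (monomial (p.natDegree - 1) c), ?_⟩
      rw [hχ, tau_of_lt hp, coeff_monomial_same, hc]
      refine (degree_monomial_le _ _).trans_lt ?_
      rw [dp]
      exact_mod_cast Nat.sub_lt hi.natDegree_pos one_pos)
    (κ := AdjoinRoot.mk p κ) (by rwa [Ne, AdjoinRoot.mk_eq_zero])
  have step : ∀ y ∈ box k p.natDegree, 𝔼 z ∈ box k p.natDegree,
      psi (tau p (κ * (y ^ 2 * z + y * z ^ 2))) ≤ if ∀ z, χ (AdjoinRoot.mk p κ *
        (AdjoinRoot.mk p y ^ 2 * z + AdjoinRoot.mk p y * z ^ 2)) = 1 then (1 : ℝ) else 0 := by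
    intro y _
    split_ifs with c
    · exact expect_le (box_nonempty _) fun z _ => by
        rcases rad_psi (tau p (κ * (y ^ 2 * z + y * z ^ 2))) with h | h <;> linarith
    · push Not at c
      obtain ⟨z, hz⟩ := c
      have ez : z = AdjoinRoot.mk p (AdjoinRoot.modByMonicHom hp z) :=
        (AdjoinRoot.mk_leftInverse hp z).symm
      have dz : (AdjoinRoot.modByMonicHom hp z).degree < p.natDegree := by
        obtain ⟨g, rfl⟩ := AdjoinRoot.mk_surjective z
        rw [AdjoinRoot.modByMonicHom_mk, ← dp]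
        exact degree_modByMonic_lt _ hp
      set t := AdjoinRoot.modByMonicHom hp z
      have ht : psi (tau p (κ * (y ^ 2 * t + y * t ^ 2))) = -1 := by
        refine (rad_psi _).resolve_left fun h => hz ?_
        rw [ez, ← h, ← hχ]
        simp
      have e := exp_box_shift dz fun z => psi (tau p (κ * (y ^ 2 * z + y * z ^ 2)))
      have e2 : ∀ z : k[X], psi (tau p (κ * (y ^ 2 * (z + t) + y * (z + t) ^ 2))) =
          -psi (tau p (κ * (y ^ 2 * z + y * z ^ 2))) := fun z => by
        rw [show κ * (y ^ 2 * (z + t) + y * (z + t) ^ 2) = κ * (y ^ 2 * z + y * z ^ 2) +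
          κ * (y ^ 2 * t + y * t ^ 2) by linear_combination κ * y * z * t * two, tau_add, psi_add,
          ht]
        ring
      simp only [e2, expect_neg_distrib] at e
      linarith
  refine (expect_le_expect step).trans ?_
  rw [expect_eq_sum_div_card, card_box, sum_boole]
  refine div_le_div_of_nonneg_right ?_ (pow_nonneg (by linarith [two_le_qq (k := k)]) _)
  exact_mod_cast le_trans (card_le_card_of_injOn (AdjoinRoot.mk p)
    (fun y hy => by simpa using (mem_filter.1 hy).2) fun a ha b hb hab => by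
      have ha' := mem_box.1 (mem_filter.1 ha).1
      have hb' := mem_box.1 (mem_filter.1 hb).1
      rw [AdjoinRoot.mk_eq_mk] at hab
      refine sub_eq_zero.1 (eq_zero_of_dvd_of_degree_lt hab ?_)
      rw [dp]
      exact (degree_sub_le _ _).trans_lt (max_lt ha' hb')) key

theorem quad_le {J : ℕ} (F : k[X] → ℝ) (β : k[X] → k[X] → ℝ)
    (h : ∀ x ∈ box k J, ∀ y ∈ box k J, ∀ z ∈ box k J,
      F x * F (x + y) * F (x + z) * F (x + y + z) = β y z) :
    (𝔼 x ∈ box k J, F x) ^ 4 ≤ 𝔼 y ∈ box k J, 𝔼 z ∈ box k J, β y z := by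
  have sq : ∀ G : k[X] → ℝ, (𝔼 x ∈ box k J, G x) ^ 2 =
      𝔼 y ∈ box k J, 𝔼 x ∈ box k J, G x * G (x + y) := fun G => by
    rw [expect_comm, pow_two, expect_mul]
    refine expect_congr rfl fun x hx => ?_
    rw [← mul_expect, ← exp_box_shift (mem_box.1 hx) G]
    simp only [add_comm]
  have cs := expect_mul_sq_le_sq_mul_sq (box k J) (fun _ => (1 : ℝ))
    fun y => 𝔼 x ∈ box k J, F x * F (x + y)
  simp only [one_mul, one_pow, expect_const (box_nonempty J)] at cs
  rw [show (4 : ℕ) = 2 * 2 by rfl, pow_mul, sq F]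
  refine cs.trans (le_of_eq (expect_congr rfl fun y hy => ?_))
  rw [sq]
  refine expect_congr rfl fun z hz => ?_
  rw [expect_congr rfl (g := fun _ => β y z) fun x hx => ?_, expect_const (box_nonempty J)]
  rw [← h x hx y hy z hz, add_right_comm x z y]
  ring

end RAD

section
variable {k : Type*} [Field k] [Fintype k]

theorem kap_poly {K ι : Type*} [Field K] {S : Finset ι} (h0 : S.Nonempty) (c : ι → K)
    (hc : ∀ a ∈ S, ∀ b ∈ S, c a = c b → a = b) : ∃ Z : Finset K, #Z ≤ 2 * #S ∧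
      ∀ x, x ∉ Z → (∀ a ∈ S, x + c a ≠ 0) ∧ ∑ a ∈ S, (x + c a)⁻¹ ≠ 0 := by
  let Q : K[X] := ∑ a ∈ S, ∏ b ∈ S.erase a, (X + C (c b))
  have ev : ∀ x, Q.eval x = ∑ a ∈ S, ∏ b ∈ S.erase a, (x + c b) := fun x => by
    simp only [Q, eval_finsetSum, eval_prod, eval_add, eval_X, eval_C]
  have hQ : Q ≠ 0 := by
    obtain ⟨a, ha⟩ := h0
    intro e
    have := ev (-c a)
    rw [e, eval_zero, sum_eq_single_of_mem a ha fun b hb hba =>
      prod_eq_zero (mem_erase.2 ⟨hba.symm, ha⟩) (neg_add_cancel _)] at this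
    obtain ⟨b, hb, hb'⟩ := prod_eq_zero_iff.1 this.symm
    exact (mem_erase.1 hb).1 (hc b (mem_erase.1 hb).2 a ha (neg_add_eq_zero.1 hb').symm)
  have dQ : Q.natDegree ≤ #S := by
    refine natDegree_sum_le_of_forall_le _ _ fun a _ => (natDegree_prod_le _ _).trans ?_
    simp only [natDegree_X_add_C, sum_const, smul_eq_mul, mul_one]
    exact card_erase_le
  refine ⟨S.image (fun a => -c a) ∪ Q.roots.toFinset, ?_, fun x hx => ?_⟩
  · have h1 := card_image_le (s := S) (f := fun a => -c a)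
    have h2 := (Multiset.toFinset_card_le Q.roots).trans ((card_roots' Q).trans dQ)
    have h3 := card_union_le (S.image fun a => -c a) Q.roots.toFinset
    omega
  · rw [mem_union, not_or] at hx
    have h1 : ∀ a ∈ S, x + c a ≠ 0 := fun a ha e =>
      hx.1 (mem_image.2 ⟨a, ha, (eq_neg_of_add_eq_zero_left e).symm⟩)
    refine ⟨h1, fun e => hx.2 (Multiset.mem_toFinset.2 ((mem_roots hQ).2 ?_))⟩
    rw [IsRoot, ev, ← mul_zero (∏ b ∈ S, (x + c b)), ← e, mul_sum]
    refine sum_congr rfl fun a ha => ?_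
    rw [← mul_prod_erase S _ ha, mul_comm (x + c a), mul_assoc, mul_inv_cancel₀ (h1 a ha), mul_one]

variable [CharP k 2]

theorem kap_le {p : k[X]} (hp : p.Monic) (hi : Irreducible p) {S : Finset k[X]} (h0 : S.Nonempty)
    (hS : Inc p S) {l : ℕ} (hl : p.natDegree ≤ l) :
    𝔼 A ∈ box k l, (if ∃ U : k[X] → k[X], (∀ a ∈ S, p ∣ (A + a) * U a - 1) ∧ ¬ p ∣ ∑ a ∈ S, U a
      then (0 : ℝ) else 1) ≤ 2 * (#S : ℝ) / qq k ^ p.natDegree := by
  have : Fact (Irreducible p) := ⟨hi⟩
  obtain ⟨Z, hZ, hx⟩ := kap_poly h0 (AdjoinRoot.mk p) fun a ha b hb e =>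
    hS a ha b hb (AdjoinRoot.mk_eq_mk.1 e)
  choose σ hσ using AdjoinRoot.mk_surjective (g := p)
  have hq : 0 < qq k ^ p.natDegree := pow_pos (by linarith [two_le_qq (k := k)]) _
  calc _ ≤ 𝔼 A ∈ box k l, ∑ z ∈ Z, (if p ∣ -σ z + 1 * A then (1 : ℝ) else 0) := by
        refine expect_le_expect fun A _ => ?_
        have nn : ∀ z ∈ Z, (0 : ℝ) ≤ if p ∣ -σ z + 1 * A then (1 : ℝ) else 0 := fun z _ => by
          split_ifs <;> norm_num
        split_ifs with h
        · exact sum_nonneg nn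
        · have hA : AdjoinRoot.mk p A ∈ Z := by
            by_contra hA
            obtain ⟨h1, h2⟩ := hx _ hA
            refine h ⟨fun a => σ (AdjoinRoot.mk p A + AdjoinRoot.mk p a)⁻¹, fun a ha => ?_,
              fun e => h2 ?_⟩
            · rw [← AdjoinRoot.mk_eq_zero, map_sub, map_mul, map_add, hσ, map_one,
                mul_inv_cancel₀ (h1 a ha), sub_self]
            · rw [← AdjoinRoot.mk_eq_zero, map_sum] at e
              simpa only [hσ] using e
          refine le_trans (le_of_eq (if_pos ?_).symm) (single_le_sum nn hA)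
          rw [← AdjoinRoot.mk_eq_zero, map_add, map_neg, hσ, one_mul, neg_add_cancel]
    _ = ∑ z ∈ Z, 1 / qq k ^ p.natDegree := by
        rw [expect_sum_comm]
        exact sum_congr rfl fun z _ => exp_box_dvd hp.ne_zero hl isCoprime_one_left _
    _ ≤ _ := by
        rw [sum_const, nsmul_eq_mul, mul_one_div]
        exact div_le_div_of_nonneg_right (by exact_mod_cast hZ) hq.le

end

section
variable {k : Type*} [Field k] [Fintype k]
variable [CharP k 2]

theorem base_prod (p : k[X]) (S : Finset k[X]) (f : k[X] → k[X]) :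
    ∏ a ∈ S, psi (tau p (f a)) = psi (tau p (∑ a ∈ S, f a)) := by
  induction S using Finset.induction_on with
  | empty =>
    have h : tau p (0 : k[X]) = 0 := by simp [tau]
    rw [Finset.prod_empty, Finset.sum_empty, h, psi, if_pos ⟨0, by simp⟩]
  | insert a S ha ih => rw [Finset.prod_insert ha, Finset.sum_insert ha, tau_add, psi_add, ih]

theorem base (s : ℕ) {η : ℝ} (hη : 0 < η) : ∃ c : ℕ, ∀ (p D κ : k[X]) (Φ : k[X] → ℝ) (l : ℕ)
    (S : Finset k[X]), p.Monic → Irreducible p → c ≤ p.natDegree → ¬ p ∣ κ →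
    D.natDegree + 2 * p.natDegree ≤ l → (∀ A, Φ A * Φ A = 1) →
    (∀ A y z U, p ∣ A * U - 1 →
      Φ A * Φ (A + D * p * y) * Φ (A + D * p * z) * Φ (A + D * p * y + D * p * z) =
        psi (tau p (κ * U * (y ^ 2 * z + y * z ^ 2)))) →
    S.Nonempty → #S ≤ s → Inc p S → |𝔼 A ∈ box k l, ∏ a ∈ S, Φ (A + a)| ≤ η := by
  obtain ⟨c, hc⟩ := pow_unbounded_of_one_lt (4 / (η / 2) ^ 4 + 4 * s / η) (one_lt_two (α := ℝ))
  refine ⟨c, fun p D κ Φ l S hp hi hcp hκ hl hΦ hq h0 hs hS => ?_⟩
  have hq2 := two_le_qq (k := k)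
  have hQ : 4 / (η / 2) ^ 4 + 4 * s / η ≤ qq k ^ p.natDegree :=
    hc.le.trans ((pow_le_pow_right₀ one_le_two hcp).trans (pow_le_pow_left₀ zero_le_two hq2 _))
  have hQ0 : 0 < qq k ^ p.natDegree := by positivity
  have hQ1 : 4 / qq k ^ p.natDegree ≤ (η / 2) ^ 4 := by
    have h : 4 / (η / 2) ^ 4 ≤ qq k ^ p.natDegree :=
      (le_add_of_nonneg_right (by positivity)).trans hQ
    rw [div_le_iff₀ (by positivity)] at h
    rw [div_le_iff₀ hQ0]
    linarith
  have hQ2 : 2 * (#S : ℝ) / qq k ^ p.natDegree ≤ η / 2 := by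
    have h : 4 * s / η ≤ qq k ^ p.natDegree := (le_add_of_nonneg_left (by positivity)).trans hQ
    have hs' : (#S : ℝ) ≤ s := by exact_mod_cast hs
    rw [div_le_iff₀ hη] at h
    rw [div_le_iff₀ hQ0]
    linarith
  have hΦ1 : ∀ A, |Φ A| = 1 := fun A => by
    rcases mul_self_eq_one_iff.1 (hΦ A) with h | h <;> simp [h]
  have hΨ1 : ∀ A, |∏ a ∈ S, Φ (A + a)| = 1 := fun A => by
    rw [Finset.abs_prod]
    exact Finset.prod_eq_one fun a _ => hΦ1 _
  have hdeg : ∀ x ∈ box k p.natDegree, (D * p * x).degree < (l : ℕ) := by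
    intro x hx
    rcases eq_or_ne (D * p * x) 0 with h | h
    · rw [h, degree_zero]
      exact WithBot.bot_lt_coe _
    have hx0 : x ≠ 0 := right_ne_zero_of_mul h
    rw [mem_box, ← natDegree_lt_iff_degree_lt hx0] at hx
    rw [← natDegree_lt_iff_degree_lt h]
    have h1 := natDegree_mul_le (p := D * p) (q := x)
    have h2 := natDegree_mul_le (p := D) (q := p)
    omega
  have e1 : 𝔼 A ∈ box k l, ∏ a ∈ S, Φ (A + a) =
      𝔼 A ∈ box k l, 𝔼 x ∈ box k p.natDegree, ∏ a ∈ S, Φ (A + D * p * x + a) := by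
    rw [Finset.expect_comm, Finset.expect_congr rfl fun x hx =>
      exp_box_shift (hdeg x hx) fun A => ∏ a ∈ S, Φ (A + a),
      Finset.expect_const (box_nonempty _)]
  have e2 : ∀ A ∈ box k l, |𝔼 x ∈ box k p.natDegree, ∏ a ∈ S, Φ (A + D * p * x + a)| ≤
      η / 2 + (if ∃ U : k[X] → k[X], (∀ a ∈ S, p ∣ (A + a) * U a - 1) ∧ ¬ p ∣ ∑ a ∈ S, U a
        then (0 : ℝ) else 1) := by
    intro A _
    split_ifs with h
    · obtain ⟨U, hU, hU'⟩ := h
      have hκ' : ¬ p ∣ κ * ∑ a ∈ S, U a := fun h => (hi.prime.dvd_or_dvd h).elim hκ hU'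
      have h4 := (quad_le (J := p.natDegree) (fun x => ∏ a ∈ S, Φ (A + D * p * x + a))
        (fun y z => psi (tau p ((κ * ∑ a ∈ S, U a) * (y ^ 2 * z + y * z ^ 2))))
        fun x _ y _ z _ => ?_).trans ((rad_le hp hi hκ').trans hQ1)
      · rw [add_zero]
        refine le_of_pow_le_pow_left₀ (n := 4) (by norm_num) (by positivity) ?_
        rwa [← abs_pow, abs_of_nonneg (by positivity)]
      · rw [Finset.mul_sum, Finset.sum_mul, ← base_prod, ← Finset.prod_mul_distrib,
          ← Finset.prod_mul_distrib, ← Finset.prod_mul_distrib]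
        refine Finset.prod_congr rfl fun a ha => ?_
        have hd : p ∣ (A + D * p * x + a) * U a - 1 := by
          rw [show (A + D * p * x + a) * U a - 1 = (A + a) * U a - 1 + p * (D * x * U a) by ring]
          exact dvd_add (hU a ha) (dvd_mul_right _ _)
        rw [← hq _ y z _ hd,
          show A + D * p * (x + y) + a = A + D * p * x + a + D * p * y by ring,
          show A + D * p * (x + z) + a = A + D * p * x + a + D * p * z by ring,
          show A + D * p * (x + y + z) + a = A + D * p * x + a + D * p * y + D * p * z by ring]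
    · refine (Finset.abs_expect_le _ _).trans ?_
      rw [Finset.expect_congr rfl fun x _ => hΨ1 _, Finset.expect_const (box_nonempty _)]
      linarith
  rw [e1]
  refine (Finset.abs_expect_le _ _).trans ((Finset.expect_le_expect e2).trans ?_)
  rw [Finset.expect_add_distrib, Finset.expect_const (box_nonempty _)]
  have h5 := (kap_le hp hi h0 hS (l := l) (by omega)).trans hQ2
  linarith

end

end Pool.Agent.MP_a4a062_nt.C2
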