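import Pool.Agent.MP_a4a062_nt.C2.P3

set_option autoImplicit false

open Polynomial Finset Filter
open scoped Classical BigOperators

noncomputable section
namespace Pool.Agent.MP_a4a062_nt.C2

section
variable {k : Type*} [Field k] [Fintype k]

theorem vdc_abs_psi (c : k) : |psi c| = 1 := by
  unfold psi
  split_ifs <;> simp

theorem vdc_kill_abs {n : ℕ} {W : k[X]} {Θ : k[X] → ℝ} (h : Kill n W Θ) (A : k[X]) :
    |Θ A| ≤ 1 := by
  obtain ⟨c, F, hc, -, e⟩ := h A
  have := e 0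
  rw [mul_zero, add_zero] at this
  rw [this, abs_mul, vdc_abs_psi, mul_one]
  exact hc

theorem vdc_kill_zero {W : k[X]} {Θ : k[X] → ℝ} (h : Kill 0 W Θ) (A s : k[X]) :
    Θ (A + W * s) = Θ A := by
  obtain ⟨c, F, -, hF, e⟩ := h A
  have e0 := e 0
  rw [mul_zero, add_zero] at e0
  rw [e s, e0, hF s 0]

theorem vdc_deg {W s : k[X]} {K l : ℕ} (h : W.natDegree + K ≤ l) (hs : s ∈ box k K) :
    (W * s).degree < (l : ℕ) := by
  have h1 := mem_box.1 hs
  by_cases h0 : W * s = 0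
  · rw [h0, degree_zero]; exact WithBot.bot_lt_coe _
  · have hs0 : s ≠ 0 := fun hh => h0 (by rw [hh, mul_zero])
    have h2 : s.natDegree < K := (natDegree_lt_iff_degree_lt hs0).2 h1
    have h3 : (W * s).natDegree ≤ W.natDegree + s.natDegree := natDegree_mul_le
    exact (natDegree_lt_iff_degree_lt h0).1 (by omega)

theorem vdc_cs {W : k[X]} {K l : ℕ} (h : W.natDegree + K ≤ l) (u g : k[X] → ℝ)
    (hu : ∀ A, |u A| ≤ 1) (hi : ∀ A s, u (A + W * s) = u A) :
    (𝔼 A ∈ box k l, u A * g A) ^ 2 ≤ 𝔼 s ∈ box k K, 𝔼 A ∈ box k l, g A * g (A + W * s) := by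
  have e1 : 𝔼 A ∈ box k l, u A * g A = 𝔼 A ∈ box k l, u A * 𝔼 s ∈ box k K, g (A + W * s) := by
    simp only [mul_expect]
    rw [expect_comm, ← expect_const (box_nonempty (k := k) K) (𝔼 A ∈ box k l, u A * g A)]
    refine expect_congr rfl fun s hs => ?_
    rw [← exp_box_shift (vdc_deg h hs) (fun A => u A * g A)]
    simp only [hi]
  have cs := expect_mul_sq_le_sq_mul_sq (box k l) u (fun A => 𝔼 s ∈ box k K, g (A + W * s))
  rw [← e1] at cs
  have h1 : 𝔼 A ∈ box k l, u A ^ 2 ≤ 1 :=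
    expect_le (box_nonempty l) fun A _ => by
      have := hu A
      rw [← sq_abs]
      exact pow_le_one₀ (abs_nonneg _) this
  have h0 : 0 ≤ 𝔼 A ∈ box k l, (𝔼 s ∈ box k K, g (A + W * s)) ^ 2 :=
    expect_nonneg fun _ _ => sq_nonneg _
  refine cs.trans ((mul_le_of_le_one_left h0 h1).trans (le_of_eq ?_))
  have e2 : ∀ A, (𝔼 s ∈ box k K, g (A + W * s)) ^ 2
      = 𝔼 s ∈ box k K, 𝔼 t ∈ box k K, g (A + W * s) * g ((A + W * s) + W * t) := by
    intro A
    rw [sq, expect_mul]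
    refine expect_congr rfl fun s hs => ?_
    rw [mul_expect, ← exp_box_shift (mem_box.1 hs) (fun t => g (A + W * s) * g (A + W * t))]
    refine expect_congr rfl fun t _ => ?_
    rw [show A + W * (t + s) = A + W * s + W * t by ring]
  simp only [e2]
  rw [expect_comm, expect_comm (box k K) (box k l),
    expect_comm (box k l) (box k K), expect_comm (box k K) (box k l) fun s A => g A * g (A + W * s),
    ← expect_const (box_nonempty (k := k) K)
      (𝔼 A ∈ box k l, 𝔼 t ∈ box k K, g A * g (A + W * t))]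
  exact expect_congr rfl fun s hs =>
    exp_box_shift (vdc_deg h hs) (fun A => 𝔼 t ∈ box k K, g A * g (A + W * t))

theorem vdc_bad {p W : k[X]} (hp : Irreducible p) (hW : ¬ p ∣ W) {K : ℕ} (hK : K ≤ p.natDegree)
    (S : Finset k[X]) :
    𝔼 s ∈ box k K, (if ∃ a ∈ S, ∃ b ∈ S, p ∣ a - (b + W * s) then (1 : ℝ) else 0)
      ≤ (#S : ℝ) ^ 2 / 2 ^ K := by
  have hc : #{s ∈ box k K | ∃ a ∈ S, ∃ b ∈ S, p ∣ a - (b + W * s)} ≤ #S ^ 2 := by
    have hsub : {s ∈ box k K | ∃ a ∈ S, ∃ b ∈ S, p ∣ a - (b + W * s)} ⊆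
        (S ×ˢ S).biUnion fun z => {s ∈ box k K | p ∣ z.1 - (z.2 + W * s)} := by
      intro s hs
      obtain ⟨h1, a, ha, b, hb, h2⟩ := mem_filter.1 hs
      exact mem_biUnion.2 ⟨(a, b), mem_product.2 ⟨ha, hb⟩, mem_filter.2 ⟨h1, h2⟩⟩
    refine (card_le_card hsub).trans (card_biUnion_le.trans ?_)
    refine (sum_le_card_nsmul _ _ 1 fun z _ => card_le_one.2 fun s hs t ht => ?_).trans ?_
    · obtain ⟨s1, s2⟩ := mem_filter.1 hs
      obtain ⟨t1, t2⟩ := mem_filter.1 ht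
      have h3 : p ∣ W * (s - t) := by
        have := dvd_sub t2 s2
        rwa [show z.1 - (z.2 + W * t) - (z.1 - (z.2 + W * s)) = W * (s - t) by ring] at this
      have h4 : p ∣ s - t := (hp.prime.dvd_or_dvd h3).resolve_left hW
      have h5 : (s - t).degree < p.degree := by
        refine ((degree_sub_le _ _).trans_lt (max_lt (mem_box.1 s1) (mem_box.1 t1))).trans_le ?_
        rw [degree_eq_natDegree hp.ne_zero]
        exact_mod_cast hK
      exact sub_eq_zero.1 (eq_zero_of_dvd_of_degree_lt h4 h5)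
    · rw [card_product, smul_eq_mul, mul_one, sq]
  rw [expect_eq_sum_div_card, sum_boole, card_box]
  have h2 : (2 : ℝ) ^ K ≤ qq k ^ K := pow_le_pow_left₀ (by norm_num) two_le_qq K
  refine div_le_div₀ (by positivity) ?_ (by positivity) h2
  exact_mod_cast hc

omit [Fintype k] in
theorem vdc_union {p t : k[X]} {S : Finset k[X]} (hS : Inc p S)
    (hg : ¬ ∃ a ∈ S, ∃ b ∈ S, p ∣ a - (b + t)) :
    Inc p (S ∪ S.image fun b => b + t) ∧ ∀ (Φ : k[X] → ℝ) (A : k[X]),
      ∏ a ∈ S ∪ S.image fun b => b + t, Φ (A + a) = (∏ a ∈ S, Φ (A + a)) * ∏ a ∈ S, Φ (A + t + a) := by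
  refine ⟨fun a ha b hb hd => ?_, fun Φ A => ?_⟩
  · rcases mem_union.1 ha with ha | ha <;> rcases mem_union.1 hb with hb | hb
    · exact hS a ha b hb hd
    · obtain ⟨b', hb', rfl⟩ := mem_image.1 hb
      exact absurd ⟨a, ha, b', hb', hd⟩ hg
    · obtain ⟨a', ha', rfl⟩ := mem_image.1 ha
      exact absurd ⟨b, hb, a', ha', dvd_sub_comm.1 hd⟩ hg
    · obtain ⟨a', ha', rfl⟩ := mem_image.1 ha
      obtain ⟨b', hb', rfl⟩ := mem_image.1 hb
      rw [add_sub_add_right_eq_sub] at hd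
      rw [hS a' ha' b' hb' hd]
  · rw [prod_union, prod_image fun a _ b _ h => add_right_cancel h]
    · congr 1
      exact prod_congr rfl fun a _ => by rw [add_assoc, add_comm t a]
    · refine disjoint_left.2 fun a ha hb => hg ?_
      obtain ⟨b', hb', rfl⟩ := mem_image.1 hb
      exact ⟨_, ha, b', hb', by rw [sub_self]; exact dvd_zero _⟩

/-- The conclusion of the van der Corput argument for a class of weights. -/
def vdcOK {ι : Type} (Cl : (ι → k[X]) → (k[X] → ℝ) → Prop) : Prop :=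
  ∀ (s : ℕ) (ε : ℝ), 0 < ε → ∃ (η : ℝ) (K s' : ℕ), 0 < η ∧ ∀ (W : ι → k[X]) (ϑ : k[X] → ℝ)
    (p : k[X]) (Φ : k[X] → ℝ) (l : ℕ), Irreducible p → K ≤ p.natDegree → (∀ i, ¬ p ∣ W i) →
    (∀ i, (W i).natDegree + K ≤ l) → Cl W ϑ → (∀ A, |Φ A| ≤ 1) →
    (∀ S : Finset k[X], S.Nonempty → #S ≤ s' → Inc p S →
      |𝔼 A ∈ box k l, ∏ a ∈ S, Φ (A + a)| ≤ η) →
    ∀ S : Finset k[X], S.Nonempty → #S ≤ s → Inc p S →
      |𝔼 A ∈ box k l, (∏ a ∈ S, Φ (A + a)) * ϑ A| ≤ ε

theorem vdc_step {ι : Type} {Cl Cl' : (ι → k[X]) → (k[X] → ℝ) → Prop} (j : ι) (h' : vdcOK Cl')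
    (h : ∀ W ϑ, Cl W ϑ → ∃ u g : k[X] → ℝ, (∀ A, ϑ A = u A * g A) ∧ (∀ A, |u A| ≤ 1) ∧
      (∀ A s, u (A + W j * s) = u A) ∧ (∀ A, |g A| ≤ 1) ∧
      ∀ s, Cl' W fun A => g A * g (A + W j * s)) : vdcOK Cl := by
  intro s ε hε
  obtain ⟨η, K, s', hη, H⟩ := h' (2 * s) (ε ^ 2 / 2) (by positivity)
  obtain ⟨K0, hK0⟩ : ∃ K0 : ℕ, (s : ℝ) ^ 2 / 2 ^ K0 ≤ ε ^ 2 / 2 := by
    obtain ⟨n, hn⟩ := pow_unbounded_of_one_lt ((s : ℝ) ^ 2 / (ε ^ 2 / 2)) (one_lt_two (α := ℝ))
    refine ⟨n, ?_⟩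
    rw [div_lt_iff₀ (by positivity)] at hn
    rw [div_le_iff₀ (by positivity)]
    linarith
  refine ⟨η, max K K0, s', hη, fun W ϑ p Φ l hp hK hW hl hC hΦ hH S hS hs hI => ?_⟩
  obtain ⟨u, g, e, hu, hi, hg, hC'⟩ := h W ϑ hC
  have hP : ∀ A, |∏ a ∈ S, Φ (A + a)| ≤ 1 := fun A => by
    rw [abs_prod]
    exact prod_le_one (fun _ _ => abs_nonneg _) fun _ _ => hΦ _
  have hG : ∀ A, |(∏ a ∈ S, Φ (A + a)) * g A| ≤ 1 := fun A => by
    rw [abs_mul]
    exact mul_le_one₀ (hP A) (abs_nonneg _) (hg A)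
  have cs := vdc_cs (K := K0) (l := l) (W := W j)
    (by have := hl j; have := le_max_right K K0; omega) u
    (fun A => (∏ a ∈ S, Φ (A + a)) * g A) hu hi
  have e1 : 𝔼 A ∈ box k l, (∏ a ∈ S, Φ (A + a)) * ϑ A
      = 𝔼 A ∈ box k l, u A * ((∏ a ∈ S, Φ (A + a)) * g A) :=
    expect_congr rfl fun A _ => by rw [e A]; ring
  have hb := vdc_bad hp (hW j) ((le_max_right K K0).trans hK) S
  have hs2 : (#S : ℝ) ^ 2 / 2 ^ K0 ≤ (s : ℝ) ^ 2 / 2 ^ K0 := by
    have : (#S : ℝ) ≤ s := by exact_mod_cast hs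
    gcongr
  refine abs_le_of_sq_le_sq ?_ hε.le
  rw [e1]
  refine cs.trans ?_
  have h2 : ∀ t ∈ box k K0, 𝔼 A ∈ box k l, ((∏ a ∈ S, Φ (A + a)) * g A) *
      ((∏ a ∈ S, Φ (A + W j * t + a)) * g (A + W j * t)) ≤
      ε ^ 2 / 2 + (if ∃ a ∈ S, ∃ b ∈ S, p ∣ a - (b + W j * t) then (1 : ℝ) else 0) := by
    intro t _
    split_ifs with hbad
    · have : 𝔼 A ∈ box k l, ((∏ a ∈ S, Φ (A + a)) * g A) *
          ((∏ a ∈ S, Φ (A + W j * t + a)) * g (A + W j * t)) ≤ 1 :=
        expect_le (box_nonempty l) fun A _ => (le_abs_self _).trans (by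
          rw [abs_mul]
          exact mul_le_one₀ (hG A) (abs_nonneg _) (hG _))
      have h3 : 0 < ε ^ 2 / 2 := by positivity
      linarith
    · obtain ⟨hI', hpr⟩ := vdc_union hI hbad
      have := H W _ p Φ l hp ((le_max_left K K0).trans hK) hW
        (fun i => by have := hl i; have := le_max_left K K0; omega) (hC' t) hΦ hH _
        (hS.mono subset_union_left)
        ((card_union_le _ _).trans (by have := card_image_le (s := S) (f := fun b => b + W j * t); omega))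
        hI'
      rw [add_zero]
      refine le_trans (le_of_eq (expect_congr rfl fun A _ => ?_)) ((le_abs_self _).trans this)
      rw [hpr]
      ring
  refine (expect_le_expect h2).trans ?_
  rw [expect_add_distrib, expect_const (box_nonempty K0)]
  linarith

variable [CharP k 2]

theorem vdc_kill_mul {n : ℕ} {W : k[X]} {Θ : k[X] → ℝ} (h : Kill n W Θ) (t : k[X]) :
    Kill n W fun A => Θ A * Θ (A + t) := by
  intro A
  obtain ⟨c, F, hc, hF, e⟩ := h A
  obtain ⟨c', F', hc', hF', e'⟩ := h (A + t)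
  refine ⟨c * c', fun s => F s + F' s, ?_, hF.add hF', fun s => ?_⟩
  · rw [abs_mul]; exact mul_le_one₀ hc (abs_nonneg _) hc'
  · show Θ (A + W * s) * Θ (A + W * s + t) = _
    rw [add_right_comm, e, e', psi_add]
    ring

theorem vdc_kill_succ {n : ℕ} {W : k[X]} {Θ : k[X] → ℝ} (h : Kill (n + 1) W Θ) (t : k[X]) :
    Kill n W fun A => Θ A * Θ (A + W * t) := by
  intro A
  obtain ⟨c, F, hc, hF, e⟩ := h A
  refine ⟨c * c, fun s => F (s + t) - F s, ?_, hF t, fun s => ?_⟩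
  · rw [abs_mul]; exact mul_le_one₀ hc (abs_nonneg _) hc
  · show Θ (A + W * s) * Θ (A + W * s + W * t) = c * c * psi (F (s + t) - F s)
    rw [add_assoc, ← mul_add, e, e, CharTwo.sub_eq_add, psi_add]
    ring

/-- `Kill` with one more step: `0` means that the factor is gone. -/
def vdcKD : ℕ → k[X] → (k[X] → ℝ) → Prop
  | 0, _, Θ => ∀ A, Θ A = 1
  | n + 1, W, Θ => Kill n W Θ

omit [CharP k 2] in
theorem vdc_kd_abs {n : ℕ} {W : k[X]} {Θ : k[X] → ℝ} (h : vdcKD n W Θ) (A : k[X]) :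
    |Θ A| ≤ 1 := by
  cases n with
  | zero => rw [h A, abs_one]
  | succ n => exact vdc_kill_abs (n := n) h A

theorem vdc_kd_mul {n : ℕ} {W : k[X]} {Θ : k[X] → ℝ} (h : vdcKD n W Θ) (t : k[X]) :
    vdcKD n W fun A => Θ A * Θ (A + t) := by
  cases n with
  | zero => intro A; show Θ A * Θ (A + t) = 1; rw [h A, h (A + t), mul_one]
  | succ n => exact vdc_kill_mul (n := n) h t

theorem vdc_all {ι : Type} [Fintype ι] (N : ℕ) : ∀ d : ι → ℕ, ∑ i, d i = N →
    vdcOK fun (W : ι → k[X]) (ϑ : k[X] → ℝ) => ∃ Θ : ι → k[X] → ℝ,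
      (∀ i, vdcKD (d i) (W i) (Θ i)) ∧ ∀ A, ϑ A = ∏ i, Θ i A := by
  induction N with
  | zero =>
    intro d hd s ε hε
    refine ⟨ε, 0, s, hε, fun W ϑ p Φ l _ _ _ _ hC _ hH S hS hs hI => ?_⟩
    obtain ⟨Θ, hΘ, e⟩ := hC
    have e1 : ∀ A, ϑ A = 1 := fun A => by
      rw [e A]
      refine prod_eq_one fun i _ => ?_
      have h0 : d i = 0 := (sum_eq_zero_iff.1 hd) i (mem_univ i)
      have := hΘ i
      rw [h0] at this
      exact this A
    simp only [e1, mul_one]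
    exact hH S hS hs hI
  | succ N ih =>
    intro d hd
    obtain ⟨j, -, hj⟩ := exists_ne_zero_of_sum_ne_zero (s := univ) (f := d) (by omega)
    obtain ⟨n, hn⟩ := Nat.exists_eq_succ_of_ne_zero hj
    have hsum : ∑ i, Function.update d j n i = N := by
      rw [sum_update_of_mem (mem_univ j)]
      rw [← add_sum_erase _ _ (mem_univ j), ← sdiff_singleton_eq_erase] at hd
      omega
    refine vdc_step j (ih _ hsum) ?_
    rintro W ϑ ⟨Θ, hΘ, e⟩
    have hj' := hΘ j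
    rw [hn] at hj'
    cases n with
    | zero =>
      have hk : ∀ i, vdcKD (Function.update d j 0 i) (W i) (Function.update Θ j (fun _ => 1) i) := by
        intro i
        by_cases hi : i = j
        · subst hi
          rw [Function.update_self, Function.update_self]
          exact fun _ => rfl
        · rw [Function.update_of_ne hi, Function.update_of_ne hi]
          exact hΘ i
      refine ⟨Θ j, fun A => ∏ i, Function.update Θ j (fun _ => 1) i A, fun A => ?_,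
        vdc_kill_abs (n := 0) hj', vdc_kill_zero hj', fun A => ?_, fun s =>
        ⟨_, fun i => vdc_kd_mul (hk i) (W j * s), fun A => prod_mul_distrib.symm⟩⟩
      · rw [e A, ← mul_prod_erase _ _ (mem_univ j)]
        show _ = Θ j A * ∏ i, Function.update Θ j (fun _ => 1) i A
        rw [← mul_prod_erase _ _ (mem_univ j), Function.update_self, one_mul]
        congr 1
        exact prod_congr rfl fun i hi => by rw [Function.update_of_ne (ne_of_mem_erase hi)]
      · show |∏ i, Function.update Θ j (fun _ => 1) i A| ≤ 1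
        rw [abs_prod]
        exact prod_le_one (fun _ _ => abs_nonneg _) fun i _ => vdc_kd_abs (hk i) A
    | succ n =>
      refine ⟨fun _ => 1, fun A => ∏ i, Θ i A, fun A => by rw [e A, one_mul], fun _ => by simp,
        fun _ _ => rfl, fun A => ?_, fun s =>
        ⟨fun i A => Θ i A * Θ i (A + W j * s), fun i => ?_, fun A => prod_mul_distrib.symm⟩⟩
      · show |∏ i, Θ i A| ≤ 1
        rw [abs_prod]
        exact prod_le_one (fun _ _ => abs_nonneg _) fun i _ => vdc_kd_abs (hΘ i) A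
      · by_cases hi : i = j
        · subst hi
          rw [Function.update_self]
          exact vdc_kill_succ (n := n) hj' s
        · rw [Function.update_of_ne hi]
          exact vdc_kd_mul (hΘ i) _

theorem vdc (ι : Type) [Fintype ι] (δ s : ℕ) {ε : ℝ} (hε : 0 < ε) :
    ∃ (η : ℝ) (K s' : ℕ), 0 < η ∧ ∀ (W : ι → k[X]) (Θ : ι → k[X] → ℝ) (p : k[X]) (Φ : k[X] → ℝ)
      (l : ℕ), Irreducible p → K ≤ p.natDegree → (∀ i, ¬ p ∣ W i) →
      (∀ i, (W i).natDegree + K ≤ l) → (∀ i, Kill δ (W i) (Θ i)) → (∀ A, |Φ A| ≤ 1) →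
      (∀ S : Finset k[X], S.Nonempty → #S ≤ s' → Inc p S →
        |𝔼 A ∈ box k l, ∏ a ∈ S, Φ (A + a)| ≤ η) →
      ∀ S : Finset k[X], S.Nonempty → #S ≤ s → Inc p S →
        |𝔼 A ∈ box k l, (∏ a ∈ S, Φ (A + a)) * ∏ i, Θ i A| ≤ ε := by
  obtain ⟨η, K, s', hη, H⟩ := vdc_all (k := k) _ (fun _ : ι => δ + 1) rfl s ε hε
  exact ⟨η, K, s', hη, fun W Θ p Φ l hp hK hW hl hΘ hΦ hH S hS hs hI =>
    H W (fun A => ∏ i, Θ i A) p Φ l hp hK hW hl ⟨Θ, hΘ, fun _ => rfl⟩ hΦ hH S hS hs hI⟩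

end

section
variable {k : Type*} [Field k] [Fintype k]

theorem share_dvd {m : ℕ} {M : k[X]} (hM : M ≠ 0) (h : M.natDegree ≤ m) :
    𝔼 B ∈ mon k m, (if M ∣ B then (1 : ℝ) else 0) = 1 / qq k ^ M.natDegree := by
  rw [mon, expect_image fun _ _ _ _ e => add_left_cancel e]
  simpa only [one_mul] using exp_box_dvd hM h isCoprime_one_left (X ^ m)

omit [Fintype k] in
theorem share_cop {p r : k[X]} (hp : p.Monic ∧ Irreducible p) (hr : r.Monic ∧ Irreducible r)
    (h : p ≠ r) : IsCoprime p r :=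
  hp.2.coprime_iff_not_dvd.2 fun e =>
    h (eq_of_monic_of_associated hp.1 hr.1 (hp.2.associated_of_dvd hr.2 e))

theorem share_var {m : ℕ} (S : Finset k[X])
    (hS : ∀ p ∈ S, (p.Monic ∧ Irreducible p) ∧ 2 * p.natDegree ≤ m) :
    𝔼 B ∈ mon k m, (∑ p ∈ S, ((if p ∣ B then (1 : ℝ) else 0) - 1 / qq k ^ p.natDegree)) ^ 2 ≤
      ∑ p ∈ S, 1 / qq k ^ p.natDegree := by
  simp only [sq, sum_mul_sum, expect_sum_comm]
  refine sum_le_sum fun p hp => ?_
  obtain ⟨p1, p2⟩ := hS p hp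
  have key : ∀ r ∈ S, 𝔼 B ∈ mon k m, ((if p ∣ B then (1 : ℝ) else 0) - 1 / qq k ^ p.natDegree) *
      ((if r ∣ B then (1 : ℝ) else 0) - 1 / qq k ^ r.natDegree) ≤
      if p = r then 1 / qq k ^ p.natDegree else 0 := by
    intro r hr
    obtain ⟨r1, r2⟩ := hS r hr
    have e1 := share_dvd (m := m) p1.1.ne_zero (by omega)
    have e2 := share_dvd (m := m) r1.1.ne_zero (by omega)
    simp only [sub_mul, mul_sub, expect_sub_distrib, ← mul_expect, ← expect_mul,
      expect_const (mon_nonempty m), e1, e2]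
    split_ifs with h
    · subst h
      simp only [and_self, mul_one, ite_zero_mul_ite_zero, e1]
      nlinarith [mul_self_nonneg (1 / qq k ^ p.natDegree)]
    · have e3 := share_dvd (m := m) (mul_ne_zero p1.1.ne_zero r1.1.ne_zero)
        (by rw [p1.1.natDegree_mul r1.1]; omega)
      have : ∀ B : k[X], (p ∣ B ∧ r ∣ B) ↔ p * r ∣ B := fun B =>
        ⟨fun e => (share_cop p1 r1 h).mul_dvd e.1 e.2,
          fun e => ⟨(dvd_mul_right _ _).trans e, (dvd_mul_left _ _).trans e⟩⟩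
      simp only [ite_zero_mul_ite_zero, mul_one, this, e3, p1.1.natDegree_mul r1.1, pow_add]
      apply le_of_eq
      ring
  exact (sum_le_sum key).trans (by simp [hp])

omit [Fintype k] in
theorem share_card {Δ : k[X]} (hΔ : Δ ≠ 0) (T : Finset k[X])
    (hT : ∀ p ∈ T, (p.Monic ∧ Irreducible p) ∧ p ∣ Δ) : #T ≤ Δ.natDegree := by
  have h1 : ∏ p ∈ T, p ∣ Δ := Finset.prod_dvd_of_coprime
    (fun p hp r hr h => share_cop (hT p hp).1 (hT r hr).1 h) fun p hp => (hT p hp).2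
  refine le_trans ?_ (natDegree_le_of_dvd h1 hΔ)
  rw [natDegree_prod_of_monic _ _ fun p hp => (hT p hp).1.1, card_eq_sum_ones]
  exact sum_le_sum fun p hp => (hT p hp).1.2.natDegree_pos

theorem share_harm {E : ℕ} (hE : 0 < E) (t : ℕ) :
    (t : ℝ) / 4 ≤ ∑ e ∈ Ioc E (2 ^ t * E), 1 / (2 * (e : ℝ)) := by
  induction t with
  | zero => simp
  | succ t ih =>
    have h0 : 0 < 2 ^ t * E := by positivity
    have h1 : E ≤ 2 ^ t * E := Nat.le_mul_of_pos_left _ (by positivity)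
    rw [pow_succ', mul_assoc]
    generalize 2 ^ t * E = a at *
    rw [← sum_Ioc_consecutive _ h1 (show a ≤ 2 * a by omega)]
    have h2 := card_nsmul_le_sum (Ioc a (2 * a)) (fun e : ℕ => 1 / (2 * (e : ℝ)))
      (1 / (2 * (2 * a : ℝ))) fun e he => by
        obtain ⟨e1, e2⟩ := mem_Ioc.1 he
        have : (e : ℝ) ≤ 2 * a := by exact_mod_cast e2
        have : (0 : ℝ) < e := by exact_mod_cast h0.trans e1
        gcongr
    rw [Nat.card_Ioc, show 2 * a - a = a by omega, nsmul_eq_mul] at h2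
    have h3 : (a : ℝ) * (1 / (2 * (2 * a : ℝ))) = 1 / 4 := by
      have : (0 : ℝ) < a := by exact_mod_cast h0
      field_simp
      norm_num
    push_cast
    linarith

theorem share_pow (C : ℕ) : ∀ᶠ E in atTop, C * (E + 1) ≤ 2 ^ E := by
  filter_upwards [eventually_ge_atTop (4 * C + 2)] with E hE
  obtain ⟨a, b, rfl, h1, h2⟩ : ∃ a b, E = a + b ∧ 2 * C ≤ a ∧ a ≤ b :=
    ⟨E / 2, E - E / 2, by omega, by omega, by omega⟩
  have h3 : 2 * C ≤ 2 ^ a := h1.trans Nat.lt_two_pow_self.le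
  have h4 : b + 1 ≤ 2 ^ b := Nat.lt_two_pow_self
  rw [pow_add]
  exact le_trans (by nlinarith) (Nat.mul_le_mul h3 h4)

theorem share (L N : ℕ) {ε : ℝ} (hε : 0 < ε) : ∀ᶠ m in atTop, ∀ Δ : k[X], Δ ≠ 0 →
    Δ.natDegree ≤ N * m → 𝔼 B ∈ mon k m, (if Spf L m Δ B then (0 : ℝ) else 1) ≤ ε := by
  obtain ⟨t, ht⟩ := exists_nat_ge (8 / ε + 4)
  obtain ⟨c, hc⟩ := exists_nat_ge (4 / ε)
  have hd : 0 < 4 * 2 ^ t := by positivity
  filter_upwards [(Nat.tendsto_div_const_atTop hd.ne').eventually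
    ((share_pow (N * (4 * 2 ^ t) + c)).and (eventually_ge_atTop (L + 1)))] with m hm Δ hΔ hN
  have m1 := Nat.div_mul_le_self m (4 * 2 ^ t)
  have m2 := Nat.lt_div_mul_add (a := m) hd
  generalize m / (4 * 2 ^ t) = E at *
  obtain ⟨m3, m4⟩ := hm
  have q2 : (2 : ℝ) ≤ qq k := two_le_qq
  have q0 : (0 : ℝ) < qq k ^ E := by positivity
  have qE : ((2 ^ E : ℕ) : ℝ) ≤ qq k ^ E := by push_cast; gcongr
  have q3 : (Δ.natDegree : ℝ) ≤ qq k ^ E :=
    le_trans (by exact_mod_cast (by nlinarith : Δ.natDegree ≤ 2 ^ E)) qE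
  have q4 : (c : ℝ) ≤ qq k ^ E := le_trans (by exact_mod_cast (by nlinarith : c ≤ 2 ^ E)) qE
  obtain ⟨A, hA⟩ : ∃ A, A = (Ioc E (2 ^ t * E)).biUnion (prs k) := ⟨_, rfl⟩
  have mA : ∀ p ∈ A, (p.Monic ∧ Irreducible p) ∧ E < p.natDegree ∧ 4 * p.natDegree ≤ m := by
    intro p hp
    simp only [hA, mem_biUnion, prs, mem_filter, mem_mon, mem_Ioc] at hp
    obtain ⟨e, ⟨e1, e2⟩, ⟨e3, rfl⟩, e4⟩ := hp
    exact ⟨⟨e3, e4⟩, e1, by nlinarith⟩
  have sA : (t : ℝ) / 4 ≤ ∑ p ∈ A, 1 / qq k ^ p.natDegree := by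
    rw [hA, sum_biUnion (t := prs k) fun e _ e' _ h => disjoint_left.2 fun p h1 h2 =>
      h ((mem_mon.1 (mem_filter.1 h1).1).2.symm.trans (mem_mon.1 (mem_filter.1 h2).1).2)]
    refine (share_harm (by omega) t).trans (sum_le_sum fun e he => ?_)
    have e0 : 0 < e := by have := (mem_Ioc.1 he).1; omega
    rw [sum_congr rfl fun p hp => by rw [(mem_mon.1 (mem_filter.1 hp).1).2], sum_const,
      nsmul_eq_mul, mul_one_div, div_le_div_iff₀ (by positivity) (by positivity)]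
    linarith [card_prs (k := k) e0]
  have sB : ∑ p ∈ A with p ∣ Δ, 1 / qq k ^ p.natDegree ≤ 1 := by
    refine (sum_le_card_nsmul _ _ (1 / qq k ^ E) fun p hp => ?_).trans ?_
    · have := (mA p (mem_filter.1 hp).1).2.1.le
      gcongr
      linarith
    · rw [nsmul_eq_mul, mul_one_div, div_le_one q0]
      refine le_trans ?_ q3
      exact_mod_cast share_card hΔ _ fun p hp => ⟨(mA p (mem_filter.1 hp).1).1, (mem_filter.1 hp).2⟩
  have sC := sum_filter_add_sum_filter_not A (· ∣ Δ) fun p => 1 / qq k ^ p.natDegree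
  have hv := share_var (m := m) {p ∈ A | ¬ p ∣ Δ} fun p hp =>
    ⟨(mA p (mem_filter.1 hp).1).1, by have := (mA p (mem_filter.1 hp).1).2.2; omega⟩
  simp only [sum_sub_distrib] at hv
  generalize hμ : ∑ p ∈ A with ¬ p ∣ Δ, 1 / qq k ^ p.natDegree = μ at *
  have h2 : 2 / ε ≤ μ := by
    have : 8 / ε = 4 * (2 / ε) := by ring
    linarith
  have μ0 : 0 < μ := lt_of_lt_of_le (by positivity) h2
  calc _ ≤ 𝔼 B ∈ mon k m, ((∑ p ∈ A with ¬ p ∣ Δ, (if p ∣ B then (1 : ℝ) else 0) - μ) ^ 2 *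
        (1 / μ ^ 2) + if Big E B then (1 : ℝ) else 0) := by
        refine expect_le_expect fun B _ => ?_
        split_ifs with h1 h2 h2
        · positivity
        · positivity
        · exact le_add_of_nonneg_left (by positivity)
        · rw [sum_eq_zero fun p hp => if_neg fun e => ?_]
          · field_simp
            norm_num
          · obtain ⟨p1, p2⟩ := mem_filter.1 hp
            obtain ⟨⟨p3, p4⟩, p5, p6⟩ := mA p p1
            exact h1 ⟨p, p3, p4, by omega, p6, p2, e, fun e' => h2 ⟨p, p3, p5.le, e'⟩⟩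
    _ ≤ μ * (1 / μ ^ 2) + 2 / qq k ^ E := by
        rw [expect_add_distrib, ← expect_mul]
        exact add_le_add (mul_le_mul_of_nonneg_right hv (by positivity)) (exp_big m E)
    _ ≤ ε / 2 + ε / 2 := by
        refine add_le_add ?_ ?_
        · rw [show μ * (1 / μ ^ 2) = 1 / μ by field_simp, div_le_div_iff₀ μ0 two_pos]
          rw [div_le_iff₀ hε] at h2
          linarith
        · rw [div_le_div_iff₀ q0 two_pos]
          rw [div_le_iff₀ hε] at hc
          nlinarith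
    _ = ε := add_halves ε

end

section CORE
variable {k : Type*} [Field k] [Fintype k]

theorem core_abs_psi (c : k) : |psi c| = 1 := by
  unfold psi
  split_ifs <;> simp

theorem core_kill_abs {n : ℕ} {W : k[X]} {Θ : k[X] → ℝ} (h : Kill n W Θ) (A : k[X]) :
    |Θ A| ≤ 1 := by
  obtain ⟨c, F, hc, -, hs⟩ := h A
  have h0 := hs 0
  rw [mul_zero, add_zero] at h0
  rw [h0, abs_mul, core_abs_psi, mul_one]
  exact hc

theorem core_kill_shift {n : ℕ} {W : k[X]} {Θ : k[X] → ℝ} (h : Kill n W Θ) (a : k[X]) :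
    Kill n W fun A => Θ (A + a) := by
  intro A
  obtain ⟨c, F, hc, hF, hs⟩ := h (A + a)
  refine ⟨c, F, hc, hF, fun s => ?_⟩
  rw [← hs s, add_right_comm]

theorem core_kill_per (n : ℕ) {W : k[X]} {u : k[X] → ℝ} (h1 : ∀ A, |u A| ≤ 1)
    (h2 : ∀ A s, u (A + W * s) = u A) : Kill n W u := by
  intro A
  refine ⟨u A, fun _ => 0, h1 A, PDeg.const n 0, fun s => ?_⟩
  have h0 : psi (0 : k) = 1 := by
    unfold psi
    rw [if_pos ⟨0, by simp⟩]
  rw [h2, h0, mul_one]

theorem core_big {L₀ : ℕ} (M : k[X]) {A b : k[X]} (hb : b ≠ 0)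
    (h : ¬ Big L₀ (A ^ 2 + X * b ^ 2)) (d : k[X]) (h1 : d ∣ A) (h2 : d ∣ b) :
    d ∣ M * MP_2033ac_nt.lcmP k L₀ := by
  have hd : d ≠ 0 := ne_zero_of_dvd_ne_zero hb h2
  refine Dvd.dvd.mul_left (MP_2033ac_nt.dvd_lcmP L₀ d hd ?_) M
  by_contra hlt
  have hu : d * C d.leadingCoeff⁻¹ ∣ d :=
    ⟨C d.leadingCoeff, by
      rw [mul_assoc, ← C_mul, inv_mul_cancel₀ (leadingCoeff_ne_zero.2 hd), C_1, mul_one]⟩
  refine h ⟨d * C d.leadingCoeff⁻¹, monic_mul_leadingCoeff_inv hd, ?_, ?_⟩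
  · rw [natDegree_mul_leadingCoeff_self_inv]
    omega
  · exact dvd_add (pow_dvd_pow_of_dvd (hu.trans h1) 2)
      (Dvd.dvd.mul_left (pow_dvd_pow_of_dvd (hu.trans h2) 2) X)

omit [Fintype k] in
theorem core_ndvd {p D : k[X]} (hD : D ≠ 0) (h : D.natDegree < p.natDegree) : ¬ p ∣ D :=
  fun hd => absurd (natDegree_le_of_dvd hd hD) (by omega)

variable [CharP k 2]

theorem core_data {D : k[X]} (hD : D ≠ 0) {L : ℕ} (hL : D.natDegree < L) (m : ℕ) (Δ b : k[X]) :
    ∃ (p r κ : k[X]) (Φ Θ : k[X] → ℝ), b.Monic → Spf L m Δ b →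
      p.Monic ∧ Irreducible p ∧ L ≤ p.natDegree ∧ 4 * p.natDegree ≤ m ∧ ¬ p ∣ Δ ∧ b = p * r ∧
      r.Monic ∧ ¬ p ∣ r ∧ (∀ A, Φ A * Φ A = 1) ∧ Kill 18 (D * p) Φ ∧ Kill 18 (D * r) Θ ∧
      ¬ p ∣ κ ∧ (∀ A, A.natDegree ≤ b.natDegree → (∀ d, d ∣ A → d ∣ b → d ∣ D) →
        lam (A ^ 2 + X * b ^ 2) = Φ A * Θ A) ∧
      ∀ A y z U, p ∣ A * U - 1 →
        Φ A * Φ (A + D * p * y) * Φ (A + D * p * z) * Φ (A + D * p * y + D * p * z) =
          psi (tau p (κ * U * (y ^ 2 * z + y * z ^ 2))) := by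
  by_cases h : b.Monic ∧ Spf L m Δ b
  · obtain ⟨hb, p, hp, hi, h1, h2, h3, ⟨r, rfl⟩, h5⟩ := h
    have hr : r.Monic := hp.of_mul_monic_left hb
    have hpr : ¬ p ∣ r := fun hh => h5 (by rw [pow_two]; exact mul_dvd_mul_left p hh)
    obtain ⟨Φ, Θ, κ, a1, a2, a3, a4, a5, a6⟩ :=
      locd hp hi hr hpr (core_ndvd hD (lt_of_lt_of_le hL h1))
    exact ⟨p, r, κ, Φ, Θ, fun _ _ => ⟨hp, hi, h1, h2, h3, rfl, hr, hpr, a1, a2, a3, a4, a5, a6⟩⟩
  · exact ⟨0, 0, 0, 0, 0, fun h1 h2 => absurd ⟨h1, h2⟩ h⟩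

omit [Fintype k] [CharP k 2] in
theorem core_err {K : ℕ} (T : Finset k[X]) (f g : k[X] → ℝ) (P : Fin K → k[X] → Prop) {ε : ℝ}
    (hf : ∀ A, |f A| ≤ 1) (hg : ∀ A, |g A| ≤ 1) (h : ∀ A ∈ T, (∀ j, ¬ P j A) → f A = g A)
    (hε : |𝔼 A ∈ T, g A| ≤ ε) :
    |𝔼 A ∈ T, f A| ≤ ε + 2 * ∑ j, 𝔼 A ∈ T, (if P j A then (1 : ℝ) else 0) := by
  have h1 : 𝔼 A ∈ T, f A = (𝔼 A ∈ T, g A) + 𝔼 A ∈ T, (f A - g A) := by
    rw [← expect_add_distrib]
    exact expect_congr rfl fun A _ => by ring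
  have h2 : |𝔼 A ∈ T, (f A - g A)| ≤ 𝔼 A ∈ T, 2 * ∑ j, (if P j A then (1 : ℝ) else 0) := by
    refine (abs_expect_le _ _).trans (expect_le_expect fun A hA => ?_)
    have h0 : ∀ j ∈ (univ : Finset (Fin K)), (0 : ℝ) ≤ if P j A then (1 : ℝ) else 0 :=
      fun j _ => by split_ifs <;> norm_num
    by_cases hP : ∀ j, ¬ P j A
    · rw [h A hA hP, sub_self, abs_zero]
      exact mul_nonneg (by norm_num) (sum_nonneg h0)
    · obtain ⟨j, hj⟩ := not_forall.1 hP
      have h3 := single_le_sum h0 (mem_univ j)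
      rw [if_pos (not_not.1 hj)] at h3
      have h4 := abs_sub (f A) (g A)
      linarith [hf A, hg A]
  rw [← mul_expect, expect_sum_comm] at h2
  rw [h1]
  exact (abs_add_le _ _).trans (add_le_add hε h2)

theorem core (K : ℕ) (hK : 0 < K) {M : k[X]} (hM : M ≠ 0) (L₀ : ℕ) {ε : ℝ} (hε : 0 < ε) :
    ∃ L : ℕ, ∀ᶠ m in atTop, ∀ (α β : Fin K → k[X]) (Δ B : k[X]) (u : k[X] → ℝ),
      (∀ j, (α j).degree < (m + 1 : ℕ)) → (∀ j, B + β j ∈ mon k m) →
      (∀ i j, β i ≠ β j → β i - β j ∣ Δ) → (∀ i j, i ≠ j → β i = β j → α i ≠ α j ∧ α i - α j ∣ Δ) →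
      (∀ j, Spf L m Δ (B + β j)) → (∀ A, |u A| ≤ 1) → (∀ A s, u (A + M * s) = u A) →
      |𝔼 A ∈ box k (m + 1), u A * ∏ j, lam ((A + α j) ^ 2 + X * (B + β j) ^ 2)| ≤
        ε + 2 * ∑ j, 𝔼 A ∈ box k (m + 1),
          (if Big L₀ ((A + α j) ^ 2 + X * (B + β j) ^ 2) then (1 : ℝ) else 0) := by
  obtain ⟨D, hDe⟩ : ∃ D : k[X], D = M * MP_2033ac_nt.lcmP k L₀ := ⟨_, rfl⟩
  have hl0 : MP_2033ac_nt.lcmP k L₀ ≠ 0 := (MP_2033ac_nt.lcmP_monic L₀).ne_zero
  have hD : D ≠ 0 := hDe ▸ mul_ne_zero hM hl0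
  have hMD : M.natDegree ≤ D.natDegree := natDegree_le_of_dvd (hDe ▸ dvd_mul_right M _) hD
  obtain ⟨η, K', s', hη, hv⟩ := vdc (k := k) (Option (Fin K ⊕ Fin K)) 18 K hε
  obtain ⟨c, hc⟩ := base (k := k) s' hη
  refine ⟨D.natDegree + K' + c + 1, ?_⟩
  filter_upwards [eventually_ge_atTop (2 * (D.natDegree + K'))] with m hm α β Δ B u hα hβ hΔ₁ hΔ₂
    hS hu hup
  choose p r κ Φ Θ hd using
    core_data hD (L := D.natDegree + K' + c + 1) (by omega) m Δ
  have hb : ∀ j, (B + β j).Monic ∧ (B + β j).natDegree = m := fun j => mem_mon.1 (hβ j)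
  have H := fun j => hd (B + β j) (hb j).1 (hS j)
  obtain ⟨o, ho⟩ : ∃ o : Fin K, o = ⟨0, hK⟩ := ⟨_, rfl⟩
  obtain ⟨pm, pi, pL, p4, pΔ, pb, rm, pr, Φ1, -, -, pκ, -, pq⟩ := H o
  have pp : Prime (p (B + β o)) := pi.prime
  have pD : ¬ p (B + β o) ∣ D := core_ndvd hD (by omega)
  have pj : ∀ j, β j ≠ β o → ¬ p (B + β o) ∣ B + β j := by
    intro j hj hh
    have h1 : p (B + β o) ∣ B + β o := ⟨_, pb⟩
    have h2 := dvd_sub hh h1
    rw [add_sub_add_left_eq_sub] at h2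
    exact pΔ (h2.trans (hΔ₁ j o hj))
  have Φabs : ∀ j A, |Φ (B + β j) A| ≤ 1 := fun j A =>
    core_kill_abs (H j).2.2.2.2.2.2.2.2.2.1 A
  have Θabs : ∀ j A, |Θ (B + β j) A| ≤ 1 := fun j A =>
    core_kill_abs (H j).2.2.2.2.2.2.2.2.2.2.1 A
  have hinj : ∀ i ∈ univ.filter fun j => β j = β o, ∀ j ∈ univ.filter fun j => β j = β o,
      α i = α j → i = j := by
    intro i hi j hj h
    by_contra hne
    exact (hΔ₂ i j hne ((mem_filter.1 hi).2.trans (mem_filter.1 hj).2.symm)).1 h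
  have main := hv
    (fun i => i.elim M (Sum.elim (fun j => D * r (B + β j))
      fun j => if β j = β o then 1 else D * p (B + β j)))
    (fun i => i.elim u (Sum.elim (fun j A => Θ (B + β j) (A + α j))
      fun j A => if β j = β o then 1 else Φ (B + β j) (A + α j)))
    (p (B + β o)) (Φ (B + β o)) (m + 1) pi (by omega) ?_ ?_ ?_ (Φabs o)
    (fun S h0 h1 h2 => hc (p (B + β o)) D (κ (B + β o)) (Φ (B + β o)) (m + 1) S pm pi (by omega) pκ
      (by omega) Φ1 pq h0 h1 h2)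
    ((univ.filter fun j => β j = β o).image α)
    ⟨α o, mem_image_of_mem α (mem_filter.2 ⟨mem_univ o, rfl⟩)⟩
    (card_image_le.trans ((card_filter_le _ _).trans (by simp))) ?_
  · refine core_err _ _ _ (fun j A => Big L₀ ((A + α j) ^ 2 + X * (B + β j) ^ 2)) (fun A => ?_)
      (fun A => ?_) (fun A hA hP => ?_) main
    · rw [abs_mul, abs_prod, prod_congr rfl fun j _ => abs_lam _, prod_const_one, mul_one]
      exact hu A
    · rw [abs_mul, abs_prod, abs_prod]
      refine mul_le_one₀ (prod_le_one (fun _ _ => abs_nonneg _) fun a _ => Φabs o _)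
        (prod_nonneg fun _ _ => abs_nonneg _) (prod_le_one (fun _ _ => abs_nonneg _) ?_)
      rintro (_ | j | j) -
      · exact hu A
      · exact Θabs j _
      · simp only [Option.elim_some, Sum.elim_inr]
        split_ifs
        · simp
        · exact Φabs j _
    · have h1 : ∀ j, lam ((A + α j) ^ 2 + X * (B + β j) ^ 2) =
          Φ (B + β j) (A + α j) * Θ (B + β j) (A + α j) := by
        intro j
        refine (H j).2.2.2.2.2.2.2.2.2.2.2.2.1 _ ?_ fun d h1 h2 => ?_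
        · have h3 : (A + α j).degree < (m + 1 : ℕ) :=
            (degree_add_le _ _).trans_lt (max_lt (mem_box.1 hA) (hα j))
          rw [(hb j).2]
          by_cases h0 : A + α j = 0
          · rw [h0, natDegree_zero]
            exact Nat.zero_le m
          · exact Nat.lt_succ_iff.1 ((natDegree_lt_iff_degree_lt h0).2 h3)
        · rw [hDe]
          exact core_big M (hb j).1.ne_zero (hP j) d h1 h2
      have h2 : ∏ j, Φ (B + β j) (A + α j) =
          (∏ j ∈ univ.filter fun j => β j = β o, Φ (B + β o) (A + α j)) *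
            ∏ j, (if β j = β o then 1 else Φ (B + β j) (A + α j)) := by
        rw [prod_filter, ← prod_mul_distrib]
        refine prod_congr rfl fun j _ => ?_
        split_ifs with hj
        · rw [hj, mul_one]
        · rw [one_mul]
      rw [prod_congr rfl fun j _ => h1 j, prod_mul_distrib, h2, prod_image hinj,
        Fintype.prod_option, Fintype.prod_sum_type]
      simp only [Option.elim_none, Option.elim_some, Sum.elim_inl, Sum.elim_inr]
      ring
  · rintro (_ | j | j)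
    · exact fun hh => pD (hh.trans (hDe ▸ dvd_mul_right M _))
    · simp only [Option.elim_some, Sum.elim_inl]
      intro hh
      refine (pp.dvd_or_dvd hh).elim pD fun h1 => ?_
      by_cases hj : β j = β o
      · rw [hj] at h1
        exact pr h1
      · exact pj j hj (h1.trans ⟨p (B + β j), (H j).2.2.2.2.2.1.trans (mul_comm _ _)⟩)
    · simp only [Option.elim_some, Sum.elim_inr]
      split_ifs with hj
      · exact pp.not_dvd_one
      · intro hh
        exact (pp.dvd_or_dvd hh).elim pD fun h1 => pj j hj (h1.trans ⟨_, (H j).2.2.2.2.2.1⟩)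
  · rintro (_ | j | j)
    · simp only [Option.elim_none]
      omega
    · simp only [Option.elim_some, Sum.elim_inl]
      obtain ⟨a1, -, a3, -, -, a6, a7, -⟩ := H j
      have h1 := (hb j).2
      rw [a6, a1.natDegree_mul a7] at h1
      rw [natDegree_mul hD a7.ne_zero]
      omega
    · simp only [Option.elim_some, Sum.elim_inr]
      split_ifs with hj
      · rw [natDegree_one]
        omega
      · obtain ⟨a1, -, -, a4, -⟩ := H j
        rw [natDegree_mul hD a1.ne_zero]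
        omega
  · rintro (_ | j | j)
    · exact core_kill_per 18 hu hup
    · exact core_kill_shift (H j).2.2.2.2.2.2.2.2.2.2.1 (α j)
    · simp only [Option.elim_some, Sum.elim_inr]
      split_ifs with hj
      · exact core_kill_per 18 (fun _ => by simp) fun _ _ => rfl
      · exact core_kill_shift (H j).2.2.2.2.2.2.2.2.2.1 (α j)
  · intro a ha b hb' hab
    obtain ⟨i, hi, rfl⟩ := mem_image.1 ha
    obtain ⟨j, hj, rfl⟩ := mem_image.1 hb'
    by_cases hij : i = j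
    · rw [hij]
    · exact absurd (hab.trans
        (hΔ₂ i j hij ((mem_filter.1 hi).2.trans (mem_filter.1 hj).2.symm)).2) pΔ

end CORE

section
variable {k : Type*} [Field k] [Fintype k]

variable [CharP k 2]

theorem odd_le (K : ℕ) (hK : 0 < K) {M : k[X]} (hM : M ≠ 0) {ε : ℝ} (hε : 0 < ε) :
    ∀ᶠ m in atTop, ∀ (h : Fin K → k[X]) (a : k[X]), Function.Injective h →
      (∀ j, (h j).degree < (2 * m + 1 : ℕ)) → |cor h M a (2 * m + 1)| ≤ ε := by
  have hK' : (0 : ℝ) < K := by exact_mod_cast hK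
  have hq := two_le_qq (k := k)
  obtain ⟨L₀, hL⟩ := pow_unbounded_of_one_lt (12 * K / ε) (show 1 < qq k by linarith)
  obtain ⟨L, hc⟩ := core K hK hM L₀ (show 0 < ε / 3 by positivity)
  filter_upwards [hc, share (k := k) L (K * K) (show 0 < ε / (3 * K) by positivity)]
    with m hc hs h a hi hd
  choose α β hab hdeg using fun j => exists_ab (h j)
  replace hdeg := fun j => hdeg j m (hd j)
  let w : Fin K × Fin K → k[X] := fun x =>
    if β x.1 = β x.2 then if x.1 = x.2 then 1 else α x.1 - α x.2 else β x.1 - β x.2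
  have h1 : ∀ i j, i ≠ j → β i = β j → α i ≠ α j := fun i j h2 h3 h4 =>
    h2 (hi (by rw [hab i, hab j, h3, h4]))
  have h2 : ∏ x, w x ≠ 0 := prod_ne_zero_iff.2 fun x _ => by
    simp only [w]
    split_ifs with h3 h4
    exacts [one_ne_zero, sub_ne_zero.2 (h1 _ _ h4 h3), sub_ne_zero.2 h3]
  have h3 : (∏ x, w x).natDegree ≤ K * K * m := by
    have h4 : ∀ j, (α j).natDegree ≤ m := fun j =>
      natDegree_le_iff_degree_le.2 (Order.le_of_lt_succ (by exact_mod_cast (hdeg j).1))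
    have h5 : ∀ j, (β j).natDegree ≤ m := fun j => natDegree_le_iff_degree_le.2 (hdeg j).2.le
    refine (natDegree_prod_le _ _).trans ((sum_le_card_nsmul _ _ m fun x _ => ?_).trans (by simp))
    simp only [w]
    split_ifs
    exacts [by simp, (natDegree_sub_le _ _).trans (max_le (h4 _) (h4 _)),
      (natDegree_sub_le _ _).trans (max_le (h5 _) (h5 _))]
  have h4 : ∀ (A B : k[X]) j, A ^ 2 + X * B ^ 2 + h j = (A + α j) ^ 2 + X * (B + β j) ^ 2 :=
    fun A B j => by rw [hab j, CharTwo.add_sq, CharTwo.add_sq]; ring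
  have h5 : ∀ B ∈ mon k m, |𝔼 A ∈ box k (m + 1), (if M ∣ A ^ 2 + X * B ^ 2 - a then (1 : ℝ) else 0) *
      ∏ j, lam (A ^ 2 + X * B ^ 2 + h j)| ≤ ε / 3 + 2 * ∑ j, (𝔼 A ∈ box k (m + 1),
        (if Big L₀ (A ^ 2 + X * B ^ 2 + h j) then (1 : ℝ) else 0)) +
        ∑ j, (if Spf L m (∏ x, w x) (B + β j) then (0 : ℝ) else 1) := fun B hB => by
    have h6 : ∀ A : k[X], |(if M ∣ A ^ 2 + X * B ^ 2 - a then (1 : ℝ) else 0)| ≤ 1 := fun A => by
      split_ifs <;> simp
    by_cases h7 : ∀ j, Spf L m (∏ x, w x) (B + β j)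
    · simp only [h4, h7, if_true, sum_const_zero, add_zero]
      obtain ⟨h8, h9⟩ := mem_mon.1 hB
      have h10 : ∀ j, (β j).degree < B.degree := fun j => by
        rw [degree_eq_natDegree h8.ne_zero, h9]; exact (hdeg j).2
      refine hc α β _ B _ (fun j => (hdeg j).1) (fun j => mem_mon.2 ⟨h8.add_of_left (h10 j),
        (natDegree_add_eq_left_of_degree_lt (h10 j)).trans h9⟩) (fun i j h => ?_)
        (fun i j h h' => ⟨h1 i j h h', ?_⟩) h7 h6 fun A s => if_congr ?_ rfl rfl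
      · simpa [w, h] using dvd_prod_of_mem w (mem_univ (i, j))
      · simpa [w, h, h'] using dvd_prod_of_mem w (mem_univ (i, j))
      · rw [show (A + M * s) ^ 2 + X * B ^ 2 - a =
          A ^ 2 + X * B ^ 2 - a + M * (2 * A * s + M * s ^ 2) by ring]
        exact dvd_add_left (dvd_mul_right _ _)
    · obtain ⟨j, hj⟩ := not_forall.1 h7
      have h8 := single_le_sum (f := fun j => if Spf L m (∏ x, w x) (B + β j) then (0 : ℝ) else 1)
        (fun j _ => by split_ifs <;> simp) (mem_univ j)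
      simp only [hj, if_false] at h8
      refine ((abs_expect_le _ _).trans (expect_le (box_nonempty _) fun A _ => ?_)).trans
        (h8.trans (le_add_of_nonneg_left (add_nonneg (by positivity) (mul_nonneg two_pos.le
          (sum_nonneg fun j _ => expect_nonneg fun A _ => by split_ifs <;> simp)))))
      rw [abs_mul, abs_prod]
      simpa [abs_lam] using h6 A
  have h6 : ∀ j, 𝔼 B ∈ mon k m, 𝔼 A ∈ box k (m + 1),
      (if Big L₀ (A ^ 2 + X * B ^ 2 + h j) then (1 : ℝ) else 0) ≤ 2 / qq k ^ L₀ := fun j => by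
    rw [← exp_AB m fun f => if Big L₀ (f + h j) then (1 : ℝ) else 0,
      exp_mon_shift (hd j) fun f => if Big L₀ f then (1 : ℝ) else 0]
    exact exp_big _ _
  have h7 : ∀ j, 𝔼 B ∈ mon k m, (if Spf L m (∏ x, w x) (B + β j) then (0 : ℝ) else 1) ≤
      ε / (3 * K) := fun j => by
    rw [exp_mon_shift (hdeg j).2 fun f => if Spf L m (∏ x, w x) f then (0 : ℝ) else 1]
    exact hs _ h2 h3
  rw [cor, exp_AB]
  refine (abs_expect_le _ _).trans ((expect_le_expect h5).trans ?_)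
  rw [expect_add_distrib, expect_add_distrib, expect_const (mon_nonempty m), ← mul_expect,
    expect_sum_comm, expect_sum_comm]
  have h8 := sum_le_card_nsmul univ _ _ fun j _ => h6 j
  have h9 := sum_le_card_nsmul univ _ _ fun j _ => h7 j
  rw [card_univ, Fintype.card_fin, nsmul_eq_mul] at h8 h9
  have h10 : K * (ε / (3 * K)) = ε / 3 := by field_simp
  have h11 : K * (2 / qq k ^ L₀) ≤ ε / 6 := by
    rw [div_lt_iff₀ hε] at hL
    rw [← mul_div_assoc, div_le_iff₀ (by positivity)]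
    linarith
  linarith

end

section
variable {k : Type*} [Field k] [Fintype k]

theorem mn_even {K n : ℕ} (h : Fin K → k[X]) (M a : k[X]) (hd : ∀ j, (h j).degree < (n : ℕ)) :
    |cor h M a n| = qq k * |cor (fun j => X * h j) (X * M) (X * a) (n + 1)| := by
  have q2 : (2 : ℝ) ≤ qq k := two_le_qq
  have e := exp_mon_mul (n := n) monic_X
    fun g : k[X] => (if X * M ∣ g - X * a then (1 : ℝ) else 0) * ∏ i, lam (g + X * h i)
  rw [natDegree_X, pow_one, expect_congr rfl (g := fun f =>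
    lam (X : k[X]) ^ K * ((if M ∣ f - a then 1 else 0) * ∏ i, lam (f + h i))) fun f hf => ?_,
    ← mul_expect, expect_congr rfl (s := mon k (n + 1)) (g := fun g =>
      (if X * M ∣ g - X * a then (1 : ℝ) else 0) * ∏ i, lam (g + X * h i)) fun g _ => ?_] at e
  · have := congrArg abs e
    rwa [abs_mul, abs_mul, abs_pow, abs_lam, one_pow, one_mul, abs_of_nonneg (a := qq k) (by linarith)] at this
  · refine ite_eq_left_iff.2 fun hg => ?_
    rw [if_neg fun e => hg ?_, zero_mul]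
    simpa using dvd_add ((dvd_mul_right X M).trans e) (dvd_mul_right X a)
  · obtain ⟨f1, f2⟩ := mem_mon.1 hf
    have : ∀ i, f + h i ≠ 0 := fun i =>
      (f1.add_of_left (by rw [degree_eq_natDegree f1.ne_zero, f2]; exact hd i)).ne_zero
    simp only [← mul_sub, ← mul_add, mul_dvd_mul_iff_left (X_ne_zero (R := k)),
      lam_mul X_ne_zero (this _), prod_mul_distrib, prod_const, card_univ, Fintype.card_fin]
    ring

variable [CharP k 2]

theorem cor_le (K : ℕ) (hK : 0 < K) {M : k[X]} (hM : M ≠ 0) {ε : ℝ} (hε : 0 < ε) :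
    ∀ᶠ n in atTop, ∀ (h : Fin K → k[X]) (a : k[X]), Function.Injective h →
      (∀ j, (h j).degree < (n : ℕ)) → |cor h M a n| ≤ ε := by
  have q2 : (2 : ℝ) ≤ qq k := two_le_qq
  obtain ⟨m, hm⟩ := eventually_atTop.1 ((odd_le K hK hM hε).and
    (odd_le K hK (mul_ne_zero X_ne_zero hM) (show 0 < ε / qq k by positivity)))
  filter_upwards [eventually_ge_atTop (2 * m + 1)] with n hn h a hi hd
  obtain ⟨j, rfl | rfl⟩ := n.even_or_odd'
  · rw [mn_even h M a hd, ← le_div_iff₀' (by linarith)]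
    refine (hm j (by omega)).2 _ _ (fun i i' e => hi (mul_left_cancel₀ X_ne_zero e)) fun i => ?_
    rw [mul_comm, degree_mul_X, Nat.cast_succ]
    exact WithBot.add_lt_add_right WithBot.one_ne_bot (hd i)
  · exact (hm j (by omega)).1 h a hi hd

end

theorem main (k : Type*) [Field k] [Finite k] [CharP k 2] (K : ℕ) (hK : 0 < K) (M : k[X])
    (hM : M ≠ 0) (ε : ℝ) (hε : 0 < ε) : ∃ n₀ : ℕ, ∀ n : ℕ, n₀ ≤ n → ∀ (h : Fin K → k[X]) (a : k[X]),
      Function.Injective h → (∀ j, (h j).degree < n) →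
      |∑ᶠ f ∈ {f : k[X] | f.Monic ∧ f.natDegree = n ∧ M ∣ f - a},
        ∏ j, (-1 : ℝ) ^ (UniqueFactorizationMonoid.factors (f + h j)).card|
      ≤ ε * (Nat.card k : ℝ) ^ n := by
  have := Fintype.ofFinite k
  obtain ⟨m, hm⟩ := eventually_atTop.1 (cor_le K hK hM hε)
  refine ⟨m, fun n hn h a hi hd => ?_⟩
  have q2 : (2 : ℝ) ≤ qq k := two_le_qq
  have := hm n hn h a hi hd
  rw [cor, expect_eq_sum_div_card, card_mon, abs_div, abs_of_pos (a := qq k ^ n) (by positivity),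
    div_le_iff₀ (by positivity)] at this
  rw [show {f : k[X] | f.Monic ∧ f.natDegree = n ∧ M ∣ f - a} =
    ↑({f ∈ mon k n | M ∣ f - a} : Finset k[X]) by ext f; simp [mem_mon, and_assoc],
    finsum_mem_coe_finset, sum_filter, Nat.card_eq_fintype_card]
  simpa only [ite_mul, one_mul, zero_mul, lam, qq] using this

end Pool.Agent.MP_a4a062_nt.C2
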